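import Mathlib

/-!
# An abstract Maker-Breaker game with a move limit

`Safe m F`: Maker is to move, may make `m` more moves, and Breaker can prevent Maker from
occupying all elements of a member of `F`.
-/

namespace Pool.Agent.Lib_helper61

set_option linter.unusedSectionVars false

variable {α : Type*} [DecidableEq α]

/-- The family after Maker has taken `x` and Breaker has taken `y`. -/
def after (F : Set (Finset α)) (x y : α) : Set (Finset α) :=
  {E' | ∃ E ∈ F, y ∉ E ∧ E' = E.erase x}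

/-- Breaker can prevent Maker (to move) from completing a member of `F` within `m` moves. -/
def Safe : ℕ → Set (Finset α) → Prop
  | 0, F => ∅ ∉ F
  | m + 1, F => ∅ ∉ F ∧ ∀ x, ∃ y, y ≠ x ∧ Safe m (after F x y)

/-- Every member of `F` contains a member of `G`. -/
def Dom (F G : Set (Finset α)) : Prop := ∀ E ∈ F, ∃ E' ∈ G, E' ⊆ E

theorem Dom.of_subset {F G : Set (Finset α)} (h : F ⊆ G) : Dom F G :=
  fun E hE => ⟨E, h hE, subset_rfl⟩

theorem Dom.trans {F G H : Set (Finset α)} (h₁ : Dom F G) (h₂ : Dom G H) : Dom F H := by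
  intro E hE
  obtain ⟨E', hE', h⟩ := h₁ E hE
  obtain ⟨E'', hE'', h'⟩ := h₂ E' hE'
  exact ⟨E'', hE'', h'.trans h⟩

theorem Safe.empty_notMem {m : ℕ} {F : Set (Finset α)} (h : Safe m F) : ∅ ∉ F := by
  cases m with
  | zero => exact h
  | succ m => exact h.1

theorem Dom.empty {F G : Set (Finset α)} (h : Dom F G) (hG : ∅ ∉ G) : ∅ ∉ F := by
  intro h0
  obtain ⟨E', hE', hs⟩ := h _ h0
  rw [Finset.subset_empty] at hs
  exact hG (hs ▸ hE')

theorem Dom.after {F G : Set (Finset α)} (h : Dom F G) (x y : α) :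
    Dom (after F x y) (after G x y) := by
  rintro _ ⟨E, hE, hy, rfl⟩
  obtain ⟨E', hE', hs⟩ := h E hE
  exact ⟨E'.erase x, ⟨E', hE', fun h' => hy (hs h'), rfl⟩, Finset.erase_subset_erase x hs⟩

theorem Safe.mono {m : ℕ} {F G : Set (Finset α)} (h : Dom F G) (hG : Safe m G) : Safe m F := by
  induction m generalizing F G with
  | zero => exact h.empty hG
  | succ m ih =>
    refine ⟨h.empty hG.1, fun x => ?_⟩
    obtain ⟨y, hyx, hy⟩ := hG.2 x
    exact ⟨y, hyx, ih (h.after x y) hy⟩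

theorem Safe.pred {m : ℕ} {F : Set (Finset α)} (h : Safe (m + 1) F) : Safe m F := by
  induction m generalizing F with
  | zero => exact h.1
  | succ m ih =>
    refine ⟨h.1, fun x => ?_⟩
    obtain ⟨y, hyx, hy⟩ := h.2 x
    exact ⟨y, hyx, ih hy⟩

theorem Safe.anti {m n : ℕ} (hmn : m ≤ n) {F : Set (Finset α)} (h : Safe n F) : Safe m F := by
  induction n, hmn using Nat.le_induction with
  | base => exact h
  | succ n _ ih => exact ih h.pred

/-- Only members with at most `m` elements matter. -/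
theorem Safe.of_card {m : ℕ} {F : Set (Finset α)} (h : Safe m {E ∈ F | E.card ≤ m}) :
    Safe m F := by
  induction m generalizing F with
  | zero =>
    intro h0
    exact h ⟨h0, by simp⟩
  | succ m ih =>
    refine ⟨fun h0 => h.1 ⟨h0, by simp⟩, fun x => ?_⟩
    obtain ⟨y, hyx, hy⟩ := h.2 x
    refine ⟨y, hyx, ih (hy.mono (Dom.of_subset ?_))⟩
    rintro _ ⟨⟨E, hE, hyE, rfl⟩, hc⟩
    refine ⟨E, ⟨hE, ?_⟩, hyE, rfl⟩
    have := Finset.pred_card_le_card_erase (s := E) (a := x)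
    omega



/-- Moves outside the support need not be considered. -/
theorem Safe.of_supp [Infinite α] {m : ℕ} {F : Set (Finset α)} (U : Set α)
    (hU : ∀ E ∈ F, ∀ a ∈ E, a ∈ U) (hne : U.Nonempty) (h0 : ∅ ∉ F)
    (h : ∀ x ∈ U, ∃ y, y ≠ x ∧ Safe m (after F x y)) : Safe (m + 1) F := by
  refine ⟨h0, fun x => ?_⟩
  by_cases hx : x ∈ U
  · exact h x hx
  · obtain ⟨x₀, hx₀⟩ := hne
    obtain ⟨y₀, -, hs⟩ := h x₀ hx₀
    by_cases hy : y₀ = x
    · obtain ⟨y, hyx⟩ := exists_ne x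
      refine ⟨y, hyx, hs.mono ?_⟩
      rintro _ ⟨E, hE, -, rfl⟩
      have hxE : x ∉ E := fun h' => hx (hU E hE x h')
      refine ⟨E.erase x₀, ⟨E, hE, hy ▸ hxE, rfl⟩, ?_⟩
      rw [Finset.erase_eq_of_notMem hxE]
      exact Finset.erase_subset _ _
    · refine ⟨y₀, hy, hs.mono ?_⟩
      rintro _ ⟨E, hE, hy₀, rfl⟩
      have hxE : x ∉ E := fun h' => hx (hU E hE x h')
      refine ⟨E.erase x₀, ⟨E, hE, hy₀, rfl⟩, ?_⟩
      rw [Finset.erase_eq_of_notMem hxE]
      exact Finset.erase_subset _ _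

/-- The two games are played on disjoint supports: Breaker can defend both. -/
theorem Safe.union [Infinite α] {m : ℕ} {F G : Set (Finset α)} (U V : Set α)
    (hU : ∀ E ∈ F, ∀ a ∈ E, a ∈ U) (hV : ∀ E ∈ G, ∀ a ∈ E, a ∈ V) (hUV : Disjoint U V)
    (hF : Safe m F) (hG : Safe m G) : Safe m (F ∪ G) := by
  induction m generalizing F G with
  | zero => exact fun h => h.elim hF hG
  | succ m ih =>
    refine ⟨fun h => h.elim hF.1 hG.1, fun x => ?_⟩
    by_cases hx : x ∈ U
    · have hxV : x ∉ V := fun h => Set.disjoint_left.1 hUV hx h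
      obtain ⟨y, hyx, hy⟩ := hF.2 x
      refine ⟨y, hyx, (ih (F := after F x y) (G := G) ?_ hV hy hG.pred).mono ?_⟩
      · rintro _ ⟨E, hE, -, rfl⟩ a ha
        exact hU E hE a (Finset.mem_of_mem_erase ha)
      · rintro _ ⟨E, hE, hyE, rfl⟩
        rcases hE with hE | hE
        · exact ⟨E.erase x, Or.inl ⟨E, hE, hyE, rfl⟩, subset_rfl⟩
        · have hxE : x ∉ E := fun h' => hxV (hV E hE x h')
          exact ⟨E, Or.inr hE, by rw [Finset.erase_eq_of_notMem hxE]⟩
    · obtain ⟨y, hyx, hy⟩ := hG.2 x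
      refine ⟨y, hyx, (ih (F := F) (G := after G x y) hU ?_ hF.pred hy).mono ?_⟩
      · rintro _ ⟨E, hE, -, rfl⟩ a ha
        exact hV E hE a (Finset.mem_of_mem_erase ha)
      · rintro _ ⟨E, hE, hyE, rfl⟩
        rcases hE with hE | hE
        · have hxE : x ∉ E := fun h' => hx (hU E hE x h')
          exact ⟨E, Or.inl hE, by rw [Finset.erase_eq_of_notMem hxE]⟩
        · exact ⟨E.erase x, Or.inr ⟨E, hE, hyE, rfl⟩, subset_rfl⟩

/-- Maker has to complete a member of `F` and a member of `G`. -/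
def both (F G : Set (Finset α)) : Set (Finset α) :=
  {E | ∃ E₁ ∈ F, ∃ E₂ ∈ G, E = E₁ ∪ E₂}

theorem Safe.both [Infinite α] {N m m' : ℕ} {F G : Set (Finset α)} (U V : Set α)
    (hU : ∀ E ∈ F, ∀ a ∈ E, a ∈ U) (hV : ∀ E ∈ G, ∀ a ∈ E, a ∈ V) (hUV : Disjoint U V)
    (hN : N = m + m') (hF : Safe m F) (hG : Safe m' G) : Safe (N + 1) (both F G) := by
  induction N generalizing F G m m' with
  | zero =>
    obtain rfl : m = 0 := by omega
    obtain rfl : m' = 0 := by omega
    refine ⟨?_, fun x => ?_⟩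
    · rintro ⟨E₁, h₁, E₂, -, h⟩
      exact hF ((Finset.union_eq_empty.1 h.symm).1 ▸ h₁)
    · obtain ⟨y, hyx⟩ := exists_ne x
      refine ⟨y, hyx, ?_⟩
      rintro ⟨_, ⟨E₁, h₁, E₂, h₂, rfl⟩, -, h⟩
      by_cases hx : x ∈ U
      · have hxE : x ∉ E₂ := fun h' => Set.disjoint_left.1 hUV hx (hV _ h₂ _ h')
        refine hG ?_
        have : E₂ = ∅ := by
          rw [Finset.eq_empty_iff_forall_notMem]
          intro a ha
          have : a ∈ (E₁ ∪ E₂).erase x := by
            rw [Finset.mem_erase, Finset.mem_union]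
            exact ⟨fun h' => hxE (h' ▸ ha), Or.inr ha⟩
          rw [← h] at this
          simp at this
        exact this ▸ h₂
      · have hxE : x ∉ E₁ := fun h' => hx (hU _ h₁ _ h')
        refine hF ?_
        have : E₁ = ∅ := by
          rw [Finset.eq_empty_iff_forall_notMem]
          intro a ha
          have : a ∈ (E₁ ∪ E₂).erase x := by
            rw [Finset.mem_erase, Finset.mem_union]
            exact ⟨fun h' => hxE (h' ▸ ha), Or.inl ha⟩
          rw [← h] at this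
          simp at this
        exact this ▸ h₁
  | succ N ih =>
    refine ⟨?_, fun x => ?_⟩
    · rintro ⟨E₁, h₁, E₂, -, h⟩
      exact hF.empty_notMem ((Finset.union_eq_empty.1 h.symm).1 ▸ h₁)
    by_cases hx : x ∈ U
    · have hxV : x ∉ V := fun h => Set.disjoint_left.1 hUV hx h
      cases m with
      | zero =>
        obtain ⟨y, hyx⟩ := exists_ne x
        refine ⟨y, hyx, ?_⟩
        have hG' : Safe (N + 1) G := by rwa [show N + 1 = m' by omega]
        refine hG'.mono ?_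
        rintro _ ⟨_, ⟨E₁, h₁, E₂, h₂, rfl⟩, -, rfl⟩
        have hxE : x ∉ E₂ := fun h' => hxV (hV _ h₂ _ h')
        refine ⟨E₂, h₂, fun a ha => ?_⟩
        rw [Finset.mem_erase, Finset.mem_union]
        exact ⟨fun h' => hxE (h' ▸ ha), Or.inr ha⟩
      | succ m =>
        obtain ⟨y, hyx, hy⟩ := hF.2 x
        refine ⟨y, hyx, (ih (F := after F x y) (G := G) (m := m) (m' := m') ?_ hV (by omega)
          hy hG).mono ?_⟩
        · rintro _ ⟨E, hE, -, rfl⟩ a ha
          exact hU E hE a (Finset.mem_of_mem_erase ha)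
        · rintro _ ⟨_, ⟨E₁, h₁, E₂, h₂, rfl⟩, hyE, rfl⟩
          have hxE : x ∉ E₂ := fun h' => hxV (hV _ h₂ _ h')
          rw [Finset.mem_union, not_or] at hyE
          refine ⟨E₁.erase x ∪ E₂, ⟨_, ⟨E₁, h₁, hyE.1, rfl⟩, E₂, h₂, rfl⟩, ?_⟩
          rw [Finset.erase_union_distrib, Finset.erase_eq_of_notMem hxE]
    · cases m' with
      | zero =>
        obtain ⟨y, hyx⟩ := exists_ne x
        refine ⟨y, hyx, ?_⟩
        have hF' : Safe (N + 1) F := by rwa [show N + 1 = m by omega]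
        refine hF'.mono ?_
        rintro _ ⟨_, ⟨E₁, h₁, E₂, h₂, rfl⟩, -, rfl⟩
        have hxE : x ∉ E₁ := fun h' => hx (hU _ h₁ _ h')
        refine ⟨E₁, h₁, fun a ha => ?_⟩
        rw [Finset.mem_erase, Finset.mem_union]
        exact ⟨fun h' => hxE (h' ▸ ha), Or.inl ha⟩
      | succ m' =>
        obtain ⟨y, hyx, hy⟩ := hG.2 x
        refine ⟨y, hyx, (ih (F := F) (G := after G x y) (m := m) (m' := m') hU ?_ (by omega)
          hF hy).mono ?_⟩
        · rintro _ ⟨E, hE, -, rfl⟩ a ha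
          exact hV E hE a (Finset.mem_of_mem_erase ha)
        · rintro _ ⟨_, ⟨E₁, h₁, E₂, h₂, rfl⟩, hyE, rfl⟩
          have hxE : x ∉ E₁ := fun h' => hx (hU _ h₁ _ h')
          rw [Finset.mem_union, not_or] at hyE
          refine ⟨E₁ ∪ E₂.erase x, ⟨E₁, h₁, _, ⟨E₂, h₂, hyE.2, rfl⟩, rfl⟩, ?_⟩
          rw [Finset.erase_union_distrib, Finset.erase_eq_of_notMem hxE]

/-- **Pairing strategy.** -/
theorem Safe.of_matching {F : Set (Finset α)} (P : Set (α × α))
    (hP : ∀ x, ∃ y, y ≠ x ∧ ∀ p ∈ P, (p.1 = x → p.2 = y) ∧ (p.2 = x → p.1 = y))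
    (hF : ∀ E ∈ F, ∃ p ∈ P, p.1 ∈ E ∧ p.2 ∈ E) (m : ℕ) : Safe m F := by
  have h0 : ∀ {F : Set (Finset α)}, (∀ E ∈ F, ∃ p ∈ P, p.1 ∈ E ∧ p.2 ∈ E) → ∅ ∉ F := by
    intro F hF h
    obtain ⟨p, -, h1, -⟩ := hF _ h
    simp at h1
  induction m generalizing F with
  | zero => exact h0 hF
  | succ m ih =>
    refine ⟨h0 hF, fun x => ?_⟩
    obtain ⟨y, hyx, hy⟩ := hP x
    refine ⟨y, hyx, ih ?_⟩
    rintro _ ⟨E, hE, hyE, rfl⟩
    obtain ⟨p, hp, h1, h2⟩ := hF E hE
    refine ⟨p, hp, ?_, ?_⟩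
    · rw [Finset.mem_erase]
      refine ⟨fun h => hyE ?_, h1⟩
      rw [← (hy p hp).1 h]
      exact h2
    · rw [Finset.mem_erase]
      refine ⟨fun h => hyE ?_, h2⟩
      rw [← (hy p hp).2 h]
      exact h1

end Pool.Agent.Lib_helper61
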