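import Mathlib
import Pool.Agent.Lib_helper61.Game

/-!
# The game of Hex on an `n × n` board, counted by the number of stones of the first player
-/

namespace Pool.Agent.Lib_helper61

/-- A cell, given by its row and its column. The board of size `n` consists of the cells with row
and column in `{0, …, n-1}`. -/
abbrev Cell : Type := ℤ × ℤ

/-- Adjacency of hexagonal cells: `(r, c)` is adjacent to `(r, c ± 1)`, `(r ± 1, c)`,
`(r + 1, c - 1)` and `(r - 1, c + 1)`. -/
def Adj (p q : Cell) : Prop :=
  (q.1 = p.1 ∧ (q.2 = p.2 + 1 ∨ q.2 = p.2 - 1)) ∨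
  (q.1 = p.1 + 1 ∧ (q.2 = p.2 ∨ q.2 = p.2 - 1)) ∨
  (q.1 = p.1 - 1 ∧ (q.2 = p.2 ∨ q.2 = p.2 + 1))

/-- `p` is a cell of the `n × n` board. -/
def OnBoard (n : ℕ) (p : Cell) : Prop := 0 ≤ p.1 ∧ p.1 < n ∧ 0 ≤ p.2 ∧ p.2 < n

/-- `S` contains a chain of pairwise adjacent cells from `p` to `q`. -/
def Conn (S : Finset Cell) (p q : Cell) : Prop :=
  p ∈ S ∧ Relation.ReflTransGen (fun u v => u ∈ S ∧ v ∈ S ∧ Adj u v) p q

/-- The stones `S` join the top row and the bottom row of the `n × n` board. -/
def TopBottom (n : ℕ) (S : Finset Cell) : Prop :=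
  ∃ p q : Cell, p.1 = 0 ∧ q.1 = (n : ℤ) - 1 ∧ Conn S p q

/-- The stones `S` join the leftmost and the rightmost column of the `n × n` board. -/
def LeftRight (n : ℕ) (S : Finset Cell) : Prop :=
  ∃ p q : Cell, p.2 = 0 ∧ q.2 = (n : ℤ) - 1 ∧ Conn S p q

/-- `x` is an empty cell of the board when the first player has the stones `B` and the second
player the stones `W`. -/
def Legal (n : ℕ) (B W : Finset Cell) (x : Cell) : Prop := OnBoard n x ∧ x ∉ B ∧ x ∉ W

/-- On the `n × n` board, with stones `B` of the first player (top to bottom) and `W` of the second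
player (left to right), the first player, who is to move, can force a win with at most `k` further
stones of her own. -/
def FirstWins (n : ℕ) : ℕ → Finset Cell → Finset Cell → Prop
  | 0, _, _ => False
  | k + 1, B, W => ∃ x, Legal n B W x ∧ (TopBottom n (insert x B) ∨
      ((∃ y, Legal n (insert x B) W y) ∧ ∀ y, Legal n (insert x B) W y →
        ¬ LeftRight n (insert y W) ∧ FirstWins n k (insert x B) (insert y W)))

/-- The members of `F` that the second player has not hit, without the stones of the first
player. -/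
def rem (F : Set (Finset Cell)) (B W : Finset Cell) : Set (Finset Cell) :=
  {E' | ∃ E ∈ F, Disjoint E W ∧ E' = E \ B}

theorem not_firstWins (n : ℕ) (F : Set (Finset Cell)) (hFb : ∀ E ∈ F, ∀ a ∈ E, OnBoard n a)
    (hF : ∀ S : Finset Cell, (∀ a ∈ S, OnBoard n a) → TopBottom n S → ∃ E ∈ F, E ⊆ S)
    (k : ℕ) (B W : Finset Cell) (hB : ∀ a ∈ B, OnBoard n a)
    (hBW : Disjoint B W) (hS : Safe k (rem F B W)) : ¬ FirstWins n k B W := by
  induction k generalizing B W with
  | zero => exact fun h => h
  | succ k ih =>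
    rintro ⟨x, ⟨hxb, hxB, hxW⟩, h⟩
    have hB' : ∀ a ∈ insert x B, OnBoard n a := by
      intro a ha
      rw [Finset.mem_insert] at ha
      exact ha.elim (fun h => h ▸ hxb) (hB a)
    obtain ⟨y, hyx, hy⟩ := hS.2 x
    have hdis : Disjoint (insert x B) W := by
      rw [Finset.disjoint_insert_left]
      exact ⟨hxW, hBW⟩
    rcases h with h | ⟨⟨y₀, hy₀⟩, h⟩
    · obtain ⟨E, hE, hEs⟩ := hF _ hB' h
      refine hy.empty_notMem ⟨E \ B, ⟨E, hE, Finset.disjoint_of_subset_left hEs hdis, rfl⟩, ?_, ?_⟩
      · rw [Finset.mem_sdiff]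
        rintro ⟨h1, h2⟩
        have := hEs h1
        rw [Finset.mem_insert] at this
        exact this.elim hyx h2
      · symm
        rw [Finset.eq_empty_iff_forall_notMem]
        intro a ha
        rw [Finset.mem_erase, Finset.mem_sdiff] at ha
        have := hEs ha.2.1
        rw [Finset.mem_insert] at this
        exact this.elim ha.1 ha.2.2
    · -- the reply: `y` if it is legal, `y₀` otherwise
      have key : ∃ y', Legal n (insert x B) W y' ∧
          Dom (rem F (insert x B) (insert y' W)) (after (rem F B W) x y) := by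
        by_cases hyl : Legal n (insert x B) W y
        · refine ⟨y, hyl, ?_⟩
          rintro _ ⟨E, hE, hd, rfl⟩
          rw [Finset.disjoint_insert_right] at hd
          refine ⟨(E \ B).erase x, ⟨E \ B, ⟨E, hE, hd.2, rfl⟩, ?_, rfl⟩, ?_⟩
          · rw [Finset.mem_sdiff]
            exact fun h => hd.1 h.1
          · intro a ha
            rw [Finset.mem_erase, Finset.mem_sdiff] at ha
            rw [Finset.mem_sdiff, Finset.mem_insert]
            exact ⟨ha.2.1, fun h => h.elim ha.1 ha.2.2⟩
        · refine ⟨y₀, hy₀, ?_⟩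
          rintro _ ⟨E, hE, hd, rfl⟩
          rw [Finset.disjoint_insert_right] at hd
          by_cases hyE : y ∈ E \ B
          · exfalso
            rw [Finset.mem_sdiff] at hyE
            refine hyl ⟨hFb E hE y hyE.1, ?_, fun h' => Finset.disjoint_left.1 hd.2 hyE.1 h'⟩
            rw [Finset.mem_insert]
            exact fun h' => h'.elim hyx hyE.2
          · refine ⟨(E \ B).erase x, ⟨E \ B, ⟨E, hE, hd.2, rfl⟩, hyE, rfl⟩, ?_⟩
            intro a ha
            rw [Finset.mem_erase, Finset.mem_sdiff] at ha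
            rw [Finset.mem_sdiff, Finset.mem_insert]
            exact ⟨ha.2.1, fun h => h.elim ha.1 ha.2.2⟩
      obtain ⟨y', hy', hD⟩ := key
      refine ih (insert x B) (insert y' W) hB' ?_ (hy.mono hD) (h y' hy').2
      rw [Finset.disjoint_insert_right]
      exact ⟨hy'.2.1, hdis⟩

end Pool.Agent.Lib_helper61
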