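import Mathlib
import Pool.Agent.Lib_helper61.Hex

/-!
# Crossings of bands of rows
-/

namespace Pool.Agent.Lib_helper61

theorem Adj.symm {p q : Cell} (h : Adj p q) : Adj q p := by
  unfold Adj at *
  omega

theorem Conn.mem_right {S : Finset Cell} {p q : Cell} (h : Conn S p q) : q ∈ S := by
  obtain ⟨hp, h⟩ := h
  induction h with
  | refl => exact hp
  | tail _ h _ => exact h.2.1

theorem Conn.symm {S : Finset Cell} {p q : Cell} (h : Conn S p q) : Conn S q p := by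
  refine ⟨h.mem_right, ?_⟩
  obtain ⟨-, h⟩ := h
  induction h with
  | refl => exact Relation.ReflTransGen.refl
  | tail _ h ih => exact Relation.ReflTransGen.head ⟨h.2.1, h.1, h.2.2.symm⟩ ih

theorem Adj.fst_le {p q : Cell} (h : Adj p q) : q.1 ≤ p.1 + 1 := by
  unfold Adj at h
  omega

theorem Adj.le_fst {p q : Cell} (h : Adj p q) : p.1 - 1 ≤ q.1 := by
  unfold Adj at h
  omega

theorem Conn.restrict_le {S : Finset Cell} {p q : Cell} (h : Conn S p q) {b : ℤ} (hp : p.1 ≤ b)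
    (hq : b ≤ q.1) : ∃ q' : Cell, q'.1 = b ∧ Conn (S.filter fun x => x.1 ≤ b) p q' := by
  obtain ⟨hpS, h⟩ := h
  have key : (∃ q' : Cell, q'.1 = b ∧ Conn (S.filter fun x => x.1 ≤ b) p q') ∨
      (q.1 < b ∧ Conn (S.filter fun x => x.1 ≤ b) p q) := by
    clear hq
    induction h with
    | refl =>
      have h0 : Conn (S.filter fun x => x.1 ≤ b) p p :=
        ⟨Finset.mem_filter.2 ⟨hpS, hp⟩, Relation.ReflTransGen.refl⟩
      rcases hp.eq_or_lt with h | h
      · exact Or.inl ⟨p, h, h0⟩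
      · exact Or.inr ⟨h, h0⟩
    | @tail u v _ huv ih =>
      rcases ih with ih | ⟨hu, ih⟩
      · exact Or.inl ih
      · have hv : v.1 ≤ b := by have := huv.2.2.fst_le; omega
        have h0 : Conn (S.filter fun x => x.1 ≤ b) p v :=
          ⟨ih.1, ih.2.tail ⟨ih.mem_right, Finset.mem_filter.2 ⟨huv.2.1, hv⟩, huv.2.2⟩⟩
        rcases hv.eq_or_lt with h | h
        · exact Or.inl ⟨v, h, h0⟩
        · exact Or.inr ⟨h, h0⟩
  rcases key with h | ⟨h, -⟩
  · exact h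
  · omega

theorem Conn.restrict_ge {S : Finset Cell} {p q : Cell} (h : Conn S p q) {a : ℤ} (hp : p.1 ≤ a)
    (hq : a ≤ q.1) : ∃ p' : Cell, p'.1 = a ∧ Conn (S.filter fun x => a ≤ x.1) p' q := by
  have h₂ := h.symm
  clear h
  obtain ⟨hqS, h⟩ := h₂
  have key : (∃ p' : Cell, p'.1 = a ∧ Conn (S.filter fun x => a ≤ x.1) q p') ∨
      (a < p.1 ∧ Conn (S.filter fun x => a ≤ x.1) q p) := by
    clear hp
    induction h with
    | refl =>
      have h0 : Conn (S.filter fun x => a ≤ x.1) q q :=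
        ⟨Finset.mem_filter.2 ⟨hqS, hq⟩, Relation.ReflTransGen.refl⟩
      rcases hq.eq_or_lt with h | h
      · exact Or.inl ⟨q, h.symm, h0⟩
      · exact Or.inr ⟨h, h0⟩
    | @tail u v _ huv ih =>
      rcases ih with ih | ⟨hu, ih⟩
      · exact Or.inl ih
      · have hv : a ≤ v.1 := by have := huv.2.2.le_fst; omega
        have h0 : Conn (S.filter fun x => a ≤ x.1) q v :=
          ⟨ih.1, ih.2.tail ⟨ih.mem_right, Finset.mem_filter.2 ⟨huv.2.1, hv⟩, huv.2.2⟩⟩
        rcases hv.eq_or_lt with h | h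
        · exact Or.inl ⟨v, h.symm, h0⟩
        · exact Or.inr ⟨h, h0⟩
  rcases key with ⟨p', h, h'⟩ | ⟨h, -⟩
  · exact ⟨p', h, h'.symm⟩
  · omega

/-- The finite sets of cells in the `n` rows `a, …, a + n - 1` that join the first and the last
of these rows. -/
def Cross (a : ℤ) (n : ℕ) : Set (Finset Cell) :=
  {E | (∀ p ∈ E, a ≤ p.1 ∧ p.1 < a + n) ∧
    ∃ p q : Cell, p.1 = a ∧ q.1 = a + n - 1 ∧ Conn E p q}

theorem exists_cross {S : Finset Cell} {p q : Cell} (h : Conn S p q) (a : ℤ) (n : ℕ) (hn : 1 ≤ n)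
    (hp : p.1 ≤ a) (hq : a + n - 1 ≤ q.1) : ∃ E ∈ Cross a n, E ⊆ S := by
  obtain ⟨q', hq', h'⟩ := h.restrict_le (b := a + n - 1) (by omega) hq
  obtain ⟨p', hp', h''⟩ := h'.restrict_ge (a := a) hp (by omega)
  refine ⟨_, ⟨?_, p', q', hp', hq', h''⟩, ?_⟩
  · intro x hx
    rw [Finset.mem_filter, Finset.mem_filter] at hx
    omega
  · exact (Finset.filter_subset _ _).trans (Finset.filter_subset _ _)

theorem cross_nonempty {a : ℤ} {n : ℕ} {E : Finset Cell} (h : E ∈ Cross a n) : E ≠ ∅ := by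
  obtain ⟨-, p, q, -, -, h⟩ := h
  exact Finset.ne_empty_of_mem h.1

theorem safe_cross_add {m m' : ℕ} {a : ℤ} {n n' : ℕ} (hn : 1 ≤ n) (hn' : 1 ≤ n')
    (h : Safe m (Cross a n)) (h' : Safe m' (Cross (a + n) n')) :
    Safe (m + m' + 1) (Cross a (n + n')) := by
  refine (Safe.both {p : Cell | p.1 < a + n} {p : Cell | a + n ≤ p.1} ?_ ?_ ?_ rfl h h').mono ?_
  · intro E hE p hp
    exact (hE.1 p hp).2
  · intro E hE p hp
    exact (hE.1 p hp).1
  · rw [Set.disjoint_left]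
    intro p hp hp'
    simp only [Set.mem_ofPred_eq] at hp hp'
    omega
  · rintro E ⟨hE, p, q, hp, hq, hc⟩
    obtain ⟨E₁, h₁, hs₁⟩ := exists_cross hc a n hn (by omega) (by push_cast at hq; omega)
    obtain ⟨E₂, h₂, hs₂⟩ := exists_cross hc (a + n) n' hn' (by omega) (by push_cast at hq; omega)
    exact ⟨E₁ ∪ E₂, ⟨E₁, h₁, E₂, h₂, rfl⟩, Finset.union_subset hs₁ hs₂⟩

theorem safe_cross_one (a : ℤ) : Safe 0 (Cross a 1) := fun h => cross_nonempty h rfl

/-- The link with the game. -/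
theorem le_of_firstWins {n k m : ℕ} (hn : 1 ≤ n) (hS : Safe m (Cross 0 n))
    (h : FirstWins n k ∅ ∅) : m + 1 ≤ k := by
  by_contra hk
  push Not at hk
  refine not_firstWins n {E ∈ Cross 0 n | ∀ a ∈ E, OnBoard n a} (fun E hE => hE.2) ?_ k ∅ ∅
    (by simp) (by simp) ?_ h
  · rintro S hS ⟨p, q, hp, hq, hc⟩
    obtain ⟨E, hE, hs⟩ := exists_cross hc 0 n hn (by omega) (by omega)
    exact ⟨E, ⟨hE, fun a ha => hS a (hs ha)⟩, hs⟩
  · refine (hS.anti (show k ≤ m by omega)).mono ?_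
    rintro _ ⟨E, ⟨hE, -⟩, -, rfl⟩
    exact ⟨E, hE, by simp⟩

end Pool.Agent.Lib_helper61
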