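import Mathlib
import Pool.Agent.Lib_helper61.Cross

/-!
# Short crossings as step lists, and their bit masks
-/

namespace Pool.Agent.Lib_helper61

/-- One step: `0` and `1` go down one row, `2` goes right, any other number goes left. -/
def stepC (p : Cell) : ℕ → Cell
  | 0 => (p.1 + 1, p.2)
  | 1 => (p.1 + 1, p.2 - 1)
  | 2 => (p.1, p.2 + 1)
  | _ => (p.1, p.2 - 1)

/-- The cells of the chain that starts at `p` and follows the steps `L`. -/
def cells (p : Cell) : List ℕ → List Cell
  | [] => [p]
  | s :: L => p :: cells (stepC p s) L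

/-- All step lists that go down `d` rows, without horizontal steps. -/
def strP : ℕ → List (List ℕ)
  | 0 => [[]]
  | d + 1 => (strP d).flatMap fun L => [0 :: L, 1 :: L]

/-- Allow one more horizontal step. -/
def nextP (prev : ℕ → List (List ℕ)) : ℕ → List (List ℕ)
  | 0 => [[]]
  | d + 1 => ((nextP prev d).flatMap fun L => [0 :: L, 1 :: L]) ++
      (prev (d + 1)).flatMap fun L => [2 :: L, 3 :: L]

/-- All step lists with at most `e` horizontal steps. -/
def pathsAux : ℕ → ℕ → List (List ℕ)
  | 0 => strP
  | e + 1 => nextP (pathsAux e)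

/-- All step lists that go down `d` rows and have at most `e` horizontal steps. -/
def paths (d e : ℕ) : List (List ℕ) := pathsAux e d

theorem nil_mem_paths (e : ℕ) : [] ∈ paths 0 e := by
  cases e <;> simp [paths, pathsAux, strP, nextP]

theorem mem_paths_down {d e : ℕ} {L : List ℕ} (hL : L ∈ paths d e) (s : ℕ)
    (hs : s = 0 ∨ s = 1) : s :: L ∈ paths (d + 1) e := by
  cases e with
  | zero =>
    rw [paths, pathsAux, strP, List.mem_flatMap]
    refine ⟨L, hL, ?_⟩
    rcases hs with rfl | rfl <;> simp
  | succ e =>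
    rw [paths, pathsAux, nextP, List.mem_append, List.mem_flatMap]
    left
    refine ⟨L, hL, ?_⟩
    rcases hs with rfl | rfl <;> simp

theorem mem_paths_side {d e : ℕ} {L : List ℕ} (hL : L ∈ paths (d + 1) e) (s : ℕ)
    (hs : s = 2 ∨ s = 3) : s :: L ∈ paths (d + 1) (e + 1) := by
  rw [paths, pathsAux, nextP, List.mem_append]
  right
  rw [List.mem_flatMap]
  refine ⟨L, hL, ?_⟩
  rcases hs with rfl | rfl <;> simp

/-- Adjacency inside `E`. -/
def gr (E : Finset Cell) : SimpleGraph E where
  Adj u v := Adj u.1 v.1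
  symm := ⟨fun _ _ h => h.symm⟩
  loopless := ⟨fun u h => by
    have h' : Adj u.1 u.1 := h
    unfold Adj at h'
    omega⟩

theorem walk_length {E : Finset Cell} {u v : E} (w : (gr E).Walk u v) :
    v.1.1 ≤ u.1.1 + w.length := by
  induction w with
  | nil => simp
  | cons h w ih =>
    have := Adj.fst_le h
    rw [SimpleGraph.Walk.length_cons]
    push_cast
    omega

theorem walk_cells {E : Finset Cell} {u v : E} (w : (gr E).Walk u v) (d e : ℕ) (he : e ≤ 1)
    (hd : v.1.1 = u.1.1 + d) (hl : w.length ≤ d + e) :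
    ∃ L ∈ paths d e, ∀ x ∈ cells u.1 L, x ∈ E := by
  induction w generalizing d e with
  | nil =>
    rename_i u
    refine ⟨[], ?_, by simp [cells]⟩
    have : d = 0 := by omega
    subst this
    exact nil_mem_paths e
  | @cons u u' v h w ih =>
    rw [SimpleGraph.Walk.length_cons] at hl
    cases d with
    | zero => exact ⟨[], nil_mem_paths e, by simp [cells]⟩
    | succ d =>
      have hw := walk_length w
      have h' : Adj u.1 u'.1 := h
      push_cast at hd
      rcases h' with ⟨h1, h2⟩ | ⟨h1, h2⟩ | ⟨h1, h2⟩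
      · -- horizontal
        have he' : e = 1 := by omega
        subst he'
        obtain ⟨L, hL, hc⟩ := ih (d + 1) 0 (by omega) (by push_cast; omega) (by omega)
        rcases h2 with h2 | h2
        · have e1 : stepC u.1 2 = u'.1 := Prod.ext h1.symm h2.symm
          refine ⟨2 :: L, ?_, ?_⟩
          · exact mem_paths_side hL 2 (Or.inl rfl)
          · intro x hx
            rw [cells, List.mem_cons] at hx
            rcases hx with rfl | hx
            · exact u.2
            · exact hc x (e1 ▸ hx)
        · have e1 : stepC u.1 3 = u'.1 := Prod.ext h1.symm h2.symm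
          refine ⟨3 :: L, ?_, ?_⟩
          · exact mem_paths_side hL 3 (Or.inr rfl)
          · intro x hx
            rw [cells, List.mem_cons] at hx
            rcases hx with rfl | hx
            · exact u.2
            · exact hc x (e1 ▸ hx)
      · -- down
        obtain ⟨L, hL, hc⟩ := ih d e he (by omega) (by omega)
        have hmem : ∀ s, s = 0 ∨ s = 1 → s :: L ∈ paths (d + 1) e := mem_paths_down hL
        rcases h2 with h2 | h2
        · have e1 : stepC u.1 0 = u'.1 := Prod.ext h1.symm h2.symm
          refine ⟨0 :: L, hmem 0 (by simp), ?_⟩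
          intro x hx
          rw [cells, List.mem_cons] at hx
          rcases hx with rfl | hx
          · exact u.2
          · exact hc x (e1 ▸ hx)
        · have e1 : stepC u.1 1 = u'.1 := Prod.ext h1.symm h2.symm
          refine ⟨1 :: L, hmem 1 (by simp), ?_⟩
          intro x hx
          rw [cells, List.mem_cons] at hx
          rcases hx with rfl | hx
          · exact u.2
          · exact hc x (e1 ▸ hx)
      · omega

theorem Conn.exists_walk {E : Finset Cell} {p q : Cell} (h : Conn E p q) :
    ∃ (hp : p ∈ E) (hq : q ∈ E), (gr E).Reachable ⟨p, hp⟩ ⟨q, hq⟩ := by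
  obtain ⟨hp, h⟩ := h
  induction h with
  | refl => exact ⟨hp, hp, SimpleGraph.Reachable.refl _⟩
  | @tail u v _ huv ih =>
    obtain ⟨_, _, hr⟩ := ih
    refine ⟨hp, huv.2.1, hr.trans (SimpleGraph.Adj.reachable ?_)⟩
    exact huv.2.2

/-- A crossing of `n` rows with at most `n + e` cells, `e ≤ 1`, contains one given by a step
list. -/
theorem cross_cells {a : ℤ} {n e : ℕ} (he : e ≤ 1) {E : Finset Cell} (hE : E ∈ Cross a (n + 1))
    (hc : E.card ≤ n + 1 + e) : ∃ s : ℤ, ∃ L ∈ paths n e, ∀ x ∈ cells (a, s) L, x ∈ E := by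
  obtain ⟨-, p, q, hp, hq, hconn⟩ := hE
  obtain ⟨hpE, hqE, ⟨w⟩⟩ := hconn.exists_walk
  classical
  have hlen := w.toPath.2.length_lt
  rw [Fintype.card_coe] at hlen
  obtain ⟨L, hL, h⟩ := walk_cells w.toPath.1 n e he (by push_cast at hq; simp only; omega) (by omega)
  refine ⟨p.2, L, hL, ?_⟩
  have : (a, p.2) = p := Prod.ext hp.symm rfl
  rw [this]
  exact h

/-- One step on codes. The cell in row `r` and column `c` (relative) has code `64 r + c`. -/
def stepN (k : ℕ) : ℕ → ℕ
  | 0 => k + 64
  | 1 => k + 63
  | 2 => k + 1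
  | _ => k - 1

/-- The codes of the cells of a chain. -/
def codes (k : ℕ) : List ℕ → List ℕ
  | [] => [k]
  | s :: L => k :: codes (stepN k s) L

/-- Decoding: code `k` is the cell in row `a + k / 64` and column `c + k % 64`. -/
def dec (a c : ℤ) (k : ℕ) : Cell := (a + (k / 64 : ℕ), c + (k % 64 : ℕ))

theorem dec_injective (a c : ℤ) : Function.Injective (dec a c) := by
  intro k k' h
  unfold dec at h
  rw [Prod.mk.injEq] at h
  omega

theorem map_codes (a c : ℤ) (L : List ℕ) (k : ℕ) (h1 : L.length ≤ k % 64)
    (h2 : k % 64 + L.length < 64) : (codes k L).map (dec a c) = cells (dec a c k) L := by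
  induction L generalizing k with
  | nil => rfl
  | cons s L ih =>
    rw [List.length_cons] at h1 h2
    rw [codes, cells, List.map_cons]
    have key : dec a c (stepN k s) = stepC (dec a c k) s ∧ L.length ≤ stepN k s % 64 ∧
        stepN k s % 64 + L.length < 64 := by
      match s with
      | 0 =>
        simp only [stepN, stepC, dec, Prod.mk.injEq]
        omega
      | 1 =>
        simp only [stepN, stepC, dec, Prod.mk.injEq]
        omega
      | 2 =>
        simp only [stepN, stepC, dec, Prod.mk.injEq]
        omega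
      | s + 3 =>
        simp only [stepN, stepC, dec, Prod.mk.injEq]
        omega
    rw [ih _ key.2.1 key.2.2, key.1]

/-- The bit mask of a list of codes. -/
def maskOf : List ℕ → ℕ
  | [] => 0
  | k :: l => (1 <<< k) ||| maskOf l

theorem testBit_maskOf (l : List ℕ) (k : ℕ) : (maskOf l).testBit k = true ↔ k ∈ l := by
  induction l with
  | nil => simp [maskOf]
  | cons a l ih =>
    rw [maskOf, Nat.testBit_or, Bool.or_eq_true, ih, List.mem_cons, Nat.one_shiftLeft,
      Nat.testBit_two_pow]
    simp only [decide_eq_true_eq]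
    constructor
    · rintro (h | h)
      · exact Or.inl h.symm
      · exact Or.inr h
    · rintro (h | h)
      · exact Or.inl h.symm
      · exact Or.inr h

theorem codes_add (L : List ℕ) (k t : ℕ) (h : L.length ≤ k) :
    codes (k + t) L = (codes k L).map (· + t) := by
  induction L generalizing k with
  | nil => rfl
  | cons s L ih =>
    rw [List.length_cons] at h
    rw [codes, codes, List.map_cons]
    have key : stepN (k + t) s = stepN k s + t ∧ L.length ≤ stepN k s := by
      match s with
      | 0 => simp only [stepN]; omega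
      | 1 => simp only [stepN]; omega
      | 2 => simp only [stepN]; omega
      | s + 3 => simp only [stepN]; omega
    rw [key.1, ih _ key.2]

theorem maskOf_map_add (l : List ℕ) (t : ℕ) : maskOf (l.map (· + t)) = maskOf l <<< t := by
  apply Nat.eq_of_testBit_eq
  intro i
  rw [Nat.testBit_shiftLeft, Bool.eq_iff_iff, testBit_maskOf]
  simp only [List.mem_map, Bool.and_eq_true, decide_eq_true_eq, testBit_maskOf]
  constructor
  · rintro ⟨a, ha, rfl⟩
    exact ⟨by omega, by simpa using ha⟩
  · rintro ⟨h1, h2⟩
    exact ⟨i - t, h2, by omega⟩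

theorem abs_col_le (p : Cell) (L : List ℕ) (x : Cell) (hx : x ∈ cells p L) :
    x.2 ≤ p.2 + L.length ∧ p.2 ≤ x.2 + L.length := by
  induction L generalizing p with
  | nil =>
    rw [cells, List.mem_singleton] at hx
    subst hx
    simp
  | cons s L ih =>
    rw [cells, List.mem_cons] at hx
    rw [List.length_cons]
    push_cast
    rcases hx with rfl | hx
    · omega
    · have := ih _ hx
      match s with
      | 0 => simp only [stepC] at this; omega
      | 1 => simp only [stepC] at this; omega
      | 2 => simp only [stepC] at this; omega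
      | s + 3 => simp only [stepC] at this; omega

/-- The chain as a finite set. -/
def ch (a s : ℤ) (L : List ℕ) : Finset Cell := (cells (a, s) L).toFinset

/-- The chain in terms of codes, `k` being the code of the start. -/
theorem mem_ch_iff (a s : ℤ) (L : List ℕ) (k : ℕ) (h1 : L.length ≤ k) (h2 : k + L.length < 64)
    (x : Cell) : x ∈ ch a s L ↔ ∃ i ∈ codes k L, dec a (s - k) i = x := by
  have hk : k % 64 = k := Nat.mod_eq_of_lt (by omega)
  have hd : dec a (s - k) k = (a, s) := by
    unfold dec
    rw [hk, Nat.div_eq_of_lt (by omega)]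
    simp
  rw [ch, List.mem_toFinset, ← hd, ← map_codes a (s - k) L k (by omega) (by omega), List.mem_map]

theorem card_ch (a s : ℤ) (L : List ℕ) (k : ℕ) (h1 : L.length ≤ k) (h2 : k + L.length < 64)
    (h : (codes k L).Nodup) : (ch a s L).card = L.length + 1 := by
  have hk : k % 64 = k := Nat.mod_eq_of_lt (by omega)
  have hd : dec a (s - k) k = (a, s) := by
    unfold dec
    rw [hk, Nat.div_eq_of_lt (by omega)]
    simp
  have hlen : ∀ (L : List ℕ) (k : ℕ), (codes k L).length = L.length + 1 := by
    intro L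
    induction L with
    | nil => intro k; rfl
    | cons s L ih => intro k; rw [codes, List.length_cons, ih, List.length_cons]
  rw [ch, ← hd, ← map_codes a (s - k) L k (by omega) (by omega),
    List.toFinset_card_of_nodup (h.map (dec_injective _ _)), List.length_map, hlen]

/-- Every pair (coded as `512 u + v`) consists of two different codes, and no code occurs twice
or is in `used`. -/
def matchOK : List ℕ → List ℕ → Bool
  | _, [] => true
  | used, p :: P => (p / 512 != p % 512) && !(used.contains (p / 512)) &&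
      !(used.contains (p % 512)) && matchOK (p / 512 :: p % 512 :: used) P

theorem matchOK_spec (used P : List ℕ) (h : matchOK used P = true) :
    (∀ p ∈ P, p / 512 ≠ p % 512 ∧ p / 512 ∉ used ∧ p % 512 ∉ used) ∧
    P.Pairwise (fun p q => p / 512 ≠ q / 512 ∧ p / 512 ≠ q % 512 ∧ p % 512 ≠ q / 512 ∧
      p % 512 ≠ q % 512) := by
  induction P generalizing used with
  | nil => simp
  | cons p P ih =>
    simp only [matchOK, Bool.and_eq_true, bne_iff_ne, Bool.not_eq_true', ne_eq] at h
    obtain ⟨⟨⟨h1, h2⟩, h3⟩, h4⟩ := h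
    have h2' : p / 512 ∉ used := by simpa using h2
    have h3' : p % 512 ∉ used := by simpa using h3
    obtain ⟨i1, i2⟩ := ih _ h4
    refine ⟨?_, ?_⟩
    · intro q hq
      rw [List.mem_cons] at hq
      rcases hq with rfl | hq
      · exact ⟨h1, h2', h3'⟩
      · obtain ⟨j1, j2, j3⟩ := i1 q hq
        simp only [List.mem_cons, not_or] at j2 j3
        exact ⟨j1, j2.2.2, j3.2.2⟩
    · rw [List.pairwise_cons]
      refine ⟨fun q hq => ?_, i2⟩
      obtain ⟨j1, j2, j3⟩ := i1 q hq
      simp only [List.mem_cons, not_or] at j2 j3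
      exact ⟨fun h => j2.1 h.symm, fun h => j3.1 h.symm, fun h => j2.2.1 h.symm,
        fun h => j3.2.1 h.symm⟩

/-- The pairing strategy, with the pairs given by codes. -/
theorem safe_of_matchOK {F : Set (Finset Cell)} (a c : ℤ) (used P : List ℕ)
    (h : matchOK used P = true)
    (hF : ∀ E ∈ F, ∃ p ∈ P, dec a c (p / 512) ∈ E ∧ dec a c (p % 512) ∈ E) (m : ℕ) :
    Safe m F := by
  obtain ⟨h1, h2⟩ := matchOK_spec used P h
  have inj := dec_injective a c
  have huniq : ∀ p ∈ P, ∀ q ∈ P, (p / 512 = q / 512 ∨ p / 512 = q % 512 ∨ p % 512 = q / 512 ∨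
      p % 512 = q % 512) → p = q := by
    intro p hp q hq hpq
    by_contra hne
    have hsymm : Std.Symm (fun p q : ℕ => p / 512 ≠ q / 512 ∧ p / 512 ≠ q % 512 ∧
        p % 512 ≠ q / 512 ∧ p % 512 ≠ q % 512) :=
      ⟨fun p q h => ⟨fun e => h.1 e.symm, fun e => h.2.2.1 e.symm, fun e => h.2.1 e.symm,
        fun e => h.2.2.2 e.symm⟩⟩
    have := h2.forall hp hq hne
    omega
  refine Safe.of_matching {x | ∃ p ∈ P, x = (dec a c (p / 512), dec a c (p % 512))} ?_ ?_ m
  · intro x
    by_cases hx : ∃ p ∈ P, dec a c (p / 512) = x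
    · obtain ⟨p, hp, rfl⟩ := hx
      refine ⟨dec a c (p % 512), fun e => (h1 p hp).1 (inj e).symm, ?_⟩
      rintro _ ⟨q, hq, rfl⟩
      refine ⟨fun e => ?_, fun e => ?_⟩
      · have := huniq p hp q hq (Or.inl (inj e).symm)
        rw [this]
      · have e' := inj e
        have := huniq p hp q hq (Or.inr (Or.inl e'.symm))
        subst this
        exact absurd e'.symm (h1 p hp).1
    · by_cases hx' : ∃ p ∈ P, dec a c (p % 512) = x
      · obtain ⟨p, hp, rfl⟩ := hx'
        refine ⟨dec a c (p / 512), fun e => (h1 p hp).1 (inj e), ?_⟩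
        rintro _ ⟨q, hq, rfl⟩
        refine ⟨fun e => absurd ⟨q, hq, e⟩ hx, fun e => ?_⟩
        have := huniq p hp q hq (Or.inr (Or.inr (Or.inr (inj e).symm)))
        rw [this]
      · obtain ⟨y, hy⟩ := exists_ne x
        refine ⟨y, hy, ?_⟩
        rintro _ ⟨q, hq, rfl⟩
        exact ⟨fun e => absurd ⟨q, hq, e⟩ hx, fun e => absurd ⟨q, hq, e⟩ hx'⟩
  · intro E hE
    obtain ⟨p, hp, hp1, hp2⟩ := hF E hE
    exact ⟨_, ⟨p, hp, rfl⟩, hp1, hp2⟩

/-- The chain with mask `M` contains one of the cells `y₁`, `y₂` or one of the pairs in `P`. -/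
def killed (M y₁ y₂ : ℕ) (P : List ℕ) : Bool :=
  M.testBit y₁ || M.testBit y₂ || P.any fun p => M.testBit (p / 512) && M.testBit (p % 512)

theorem killed_spec {a c : ℤ} {M y₁ y₂ : ℕ} {P : List ℕ} {E : Finset Cell}
    (hM : ∀ k, M.testBit k = true → dec a c k ∈ E) (h : killed M y₁ y₂ P = true)
    (h₁ : dec a c y₁ ∉ E) (h₂ : dec a c y₂ ∉ E) :
    ∃ p ∈ P, dec a c (p / 512) ∈ E ∧ dec a c (p % 512) ∈ E := by
  simp only [killed, Bool.or_eq_true, List.any_eq_true, Bool.and_eq_true] at h
  rcases h with (h | h) | ⟨p, hp, h, h'⟩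
  · exact absurd (hM _ h) h₁
  · exact absurd (hM _ h) h₂
  · exact ⟨p, hp, hM _ h, hM _ h'⟩

end Pool.Agent.Lib_helper61
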