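import Mathlib
import Pool.Agent.Lib_helper61.Chains
import Pool.Agent.Lib_helper61.HexData6

/-!
# The finite checks for bands of height six
-/

namespace Pool.Agent.Lib_helper61

/-- First reply (code relative to the column 32 of the first stone). -/
def y6f (r : ℕ) : ℕ := y6.getD r 0

/-- Local pairing. -/
def loc6f (r : ℕ) : List ℕ := loc6.getD r []

/-- Entry of the table: reply to the second stone, followed by the pairs. -/
def ent6 (r r₂ i : ℕ) : List ℕ := (tab6 r r₂).getD i []

/-- The check of one entry: first stone in row `r` (code `64 r + 32`), second stone in row `r₂`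
(code `64 r₂ + t + 12`). -/
def okEntry (r r₂ t : ℕ) (Sr Sr₂ Qr : List ℕ) (y₁ y₂ : ℕ) (P : List ℕ) : Bool :=
  (y₂ != 64 * r + 32) && (y₂ != 64 * r₂ + t + 12) &&
  matchOK [64 * r + 32, 64 * r₂ + t + 12] P &&
  (Sr.all fun M => killed (M <<< 20) y₁ y₂ P) &&
  (Sr₂.all fun M => killed (M <<< t) y₁ y₂ P) &&
  ((64 * r₂ + t + 12 == 64 * r + 32) ||
    Qr.all fun M => !(M <<< 20).testBit (64 * r₂ + t + 12) || killed (M <<< 20) y₁ y₂ P)

/-- The check of the row of entries for `r` and `r₂`. -/
def okBlock (r r₂ : ℕ) : Bool :=
  (List.range 21).all fun i =>
    okEntry r r₂ (i + 10) (S6 r) (S6 r₂) (Q6 r) (y6f r) ((ent6 r r₂ i).headD 0)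
      ((ent6 r r₂ i).tail)

/-- The check of the local pairings. -/
def okLocal (r : ℕ) : Bool :=
  (y6f r != 64 * r + 32) && matchOK [64 * r + 32] (loc6f r) &&
    (S6 r).all fun M => killed (M <<< 20) (y6f r) (y6f r) (loc6f r)

/-- Completeness of the lists of masks. -/
def okThru (i r : ℕ) : Bool :=
  (sh6.all fun L => !(codes (i + 6) L).contains (64 * r + 12) ||
    (S6 r).contains (maskOf (codes (i + 6) L))) &&
  (sh7.all fun L => !(codes (i + 6) L).contains (64 * r + 12) ||
    (Q6 r).contains (maskOf (codes (i + 6) L)))

/-- Every step list with at most one horizontal step contains one from the lists. -/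
def okReduce (L : List ℕ) : Bool :=
  sh6.contains L || sh7.contains L || sh6.any fun L' => [19, 20, 21].any fun k =>
    (codes k L').all fun i => (codes 20 L).contains i

theorem block_0_0 : okBlock 0 0 = true := by decide +kernel
theorem block_0_1 : okBlock 0 1 = true := by decide +kernel
theorem block_0_2 : okBlock 0 2 = true := by decide +kernel
theorem block_0_3 : okBlock 0 3 = true := by decide +kernel
theorem block_0_4 : okBlock 0 4 = true := by decide +kernel
theorem block_0_5 : okBlock 0 5 = true := by decide +kernel
theorem block_1_0 : okBlock 1 0 = true := by decide +kernel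
theorem block_1_1 : okBlock 1 1 = true := by decide +kernel
theorem block_1_2 : okBlock 1 2 = true := by decide +kernel
theorem block_1_3 : okBlock 1 3 = true := by decide +kernel
theorem block_1_4 : okBlock 1 4 = true := by decide +kernel
theorem block_1_5 : okBlock 1 5 = true := by decide +kernel
theorem block_2_0 : okBlock 2 0 = true := by decide +kernel
theorem block_2_1 : okBlock 2 1 = true := by decide +kernel
theorem block_2_2 : okBlock 2 2 = true := by decide +kernel
theorem block_2_3 : okBlock 2 3 = true := by decide +kernel
theorem block_2_4 : okBlock 2 4 = true := by decide +kernel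
theorem block_2_5 : okBlock 2 5 = true := by decide +kernel
theorem block_3_0 : okBlock 3 0 = true := by decide +kernel
theorem block_3_1 : okBlock 3 1 = true := by decide +kernel
theorem block_3_2 : okBlock 3 2 = true := by decide +kernel
theorem block_3_3 : okBlock 3 3 = true := by decide +kernel
theorem block_3_4 : okBlock 3 4 = true := by decide +kernel
theorem block_3_5 : okBlock 3 5 = true := by decide +kernel
theorem block_4_0 : okBlock 4 0 = true := by decide +kernel
theorem block_4_1 : okBlock 4 1 = true := by decide +kernel
theorem block_4_2 : okBlock 4 2 = true := by decide +kernel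
theorem block_4_3 : okBlock 4 3 = true := by decide +kernel
theorem block_4_4 : okBlock 4 4 = true := by decide +kernel
theorem block_4_5 : okBlock 4 5 = true := by decide +kernel
theorem block_5_0 : okBlock 5 0 = true := by decide +kernel
theorem block_5_1 : okBlock 5 1 = true := by decide +kernel
theorem block_5_2 : okBlock 5 2 = true := by decide +kernel
theorem block_5_3 : okBlock 5 3 = true := by decide +kernel
theorem block_5_4 : okBlock 5 4 = true := by decide +kernel
theorem block_5_5 : okBlock 5 5 = true := by decide +kernel
theorem local_all : ∀ r < 6, okLocal r = true := by decide +kernel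
theorem thru_all : ∀ i < 13, ∀ r < 6, okThru i r = true := by decide +kernel
theorem reduce_all : ∀ L ∈ paths 5 1, okReduce L = true := by decide +kernel

end Pool.Agent.Lib_helper61
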