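/-! Data of the certificate for bands of height 4. -/

namespace Pool.Agent.Lib_helper61

/-- Straight crossings of four rows (step lists). -/
def sh4 : List (List Nat) :=
  [[0, 0, 0], [0, 0, 1], [0, 1, 0], [0, 1, 1], [1, 0, 0], [1, 0, 1], [1, 1, 0], [1, 1, 1]]

/-- Bit masks of the straight crossings through row `r`, column 12. -/
def S4 : List (List Nat) :=
  [[3213876088517980551432373328409366191668680517438673480847360, 6427752177035961102516297513091691396713086505004259151450112, 6427752177035961102864746656818732383299582103014389799981056, 6427752177035961102864746656818732383337361034877346961690624, 12855504354071922205032595026183382793388394078145561141186560, 12855504354071922205032595026183382793426173010008518302896128, 12855504354071922205729493313637464766599164206028779599958016, 25711008708143844410065190052366765586776788156291122282369024],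
   [6427752177035961102864746656818732383337361034877346961690624, 6427752177035961102864746656818732383337361034877346961694720, 12855504354071922205032595026183382793426173010008518302896128, 12855504354071922205032595026183382793426173010008518302900224, 12855504354071922205729493313637464766599164206028779599958016, 12855504354071922205729493313637464766599164206028779599962112, 25711008708143844410065190052366765586776788156291122282369024, 25711008708143844410065190052366765586776788156291122282373120],
   [12855504354071922205729493313637464766599164206028779599958016, 12855504354071922205729493313637464766599164206028779599962112, 12855504354071922205729493313637464766674722069754693923381248, 12855504354071922205729493313637464766674722069754693923389440, 25711008708143844410065190052366765586776788156291122282369024, 25711008708143844410065190052366765586776788156291122282373120, 25711008708143844410065190052366765586852346020017036605792256, 25711008708143844410065190052366765586852346020017036605800448],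
   [25711008708143844410065190052366765586776788156291122282369024, 25711008708143844410065190052366765586776788156291122282373120, 25711008708143844410065190052366765586852346020017036605792256, 25711008708143844410065190052366765586852346020017036605800448, 25711008708143844411458986627274929533198328412057559199916032, 25711008708143844411458986627274929533198328412057559199924224, 25711008708143844411458986627274929533349444139509387846762496, 25711008708143844411458986627274929533349444139509387846778880]]

/-- First replies. -/
def y4 : List Nat := [159, 33, 33, 161]

/-- Local pairings. -/
def loc4 : List (List Nat) := [[49312, 48798], [16607, 82144, 81630], [16480, 17505], [17056, 16480, 17505]]

end Pool.Agent.Lib_helper61
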