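import Mathlib
import Pool.Agent.Lib_helper61.Check6
import Pool.Agent.Lib_helper61.HexData4

/-!
# Bands of height four and six
-/

namespace Pool.Agent.Lib_helper61

theorem col_bounds (p : Cell) (L : List ℕ) (x : Cell) (hx : x ∈ cells p L) :
    x.2 ≤ p.2 + L.count 2 ∧ p.2 ≤ x.2 + L.length := by
  refine ⟨?_, (abs_col_le p L x hx).2⟩
  induction L generalizing p with
  | nil =>
    rw [cells, List.mem_singleton] at hx
    subst hx
    simp
  | cons s L ih =>
    rw [cells, List.mem_cons] at hx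
    rcases hx with rfl | hx
    · omega
    · have h0 := ih _ hx
      rw [List.count_cons]
      match s with
      | 0 => simp only [stepC] at h0; simp; omega
      | 1 => simp only [stepC] at h0; simp; omega
      | 2 => simp only [stepC] at h0; simp; omega
      | s + 3 => simp only [stepC] at h0; simp; omega

theorem dec_mk (a c : ℤ) (r k : ℕ) (h : k < 64) : dec a c (64 * r + k) = (a + r, c + k) := by
  unfold dec
  rw [Prod.mk.injEq]
  omega

theorem thru_rep (a s c : ℤ) (r : ℕ) (L : List ℕ) (hL : L.length ≤ 6)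
    (hx : ((a + r, c) : Cell) ∈ ch a s L) : ∃ i < 13, 64 * r + 12 ∈ codes (i + 6) L ∧
      ∀ t ≤ 30, ∀ k, (maskOf (codes (i + 6) L) <<< t).testBit k = true ↔
        dec a (c - 12 - t) k ∈ ch a s L := by
  have hb := abs_col_le (a, s) L _ (by rwa [ch, List.mem_toFinset] at hx)
  simp only at hb
  obtain ⟨i, hi⟩ : ∃ i : ℕ, (i : ℤ) = s - c + 6 := ⟨(s - c + 6).toNat, by omega⟩
  have hi13 : i < 13 := by omega
  have hiff : ∀ t ≤ 30, ∀ k, (maskOf (codes (i + 6) L) <<< t).testBit k = true ↔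
        dec a (c - 12 - t) k ∈ ch a s L := by
    intro t ht k
    rw [← maskOf_map_add, ← codes_add L (i + 6) t (by omega), testBit_maskOf,
      mem_ch_iff a s L (i + 6 + t) (by omega) (by omega)]
    have e : s - ((i + 6 + t : ℕ) : ℤ) = c - 12 - t := by push_cast; omega
    rw [e]
    constructor
    · intro h
      exact ⟨k, h, rfl⟩
    · rintro ⟨j, hj, hjk⟩
      rwa [dec_injective _ _ hjk] at hj
  refine ⟨i, hi13, ?_, hiff⟩
  rw [← testBit_maskOf]
  have := (hiff 0 (by omega) (64 * r + 12)).2 (by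
    rw [dec_mk _ _ _ _ (by omega)]
    convert hx using 2
    push_cast
    omega)
  simpa using this

/-- The local family at a stone. -/
def locF (sh : List (List ℕ)) (a c : ℤ) (r y : ℕ) : Set (Finset Cell) :=
  {E' | ∃ s : ℤ, ∃ L ∈ sh, ((a + r, c) : Cell) ∈ ch a s L ∧ dec a (c - 32) y ∉ ch a s L ∧
    E' = (ch a s L).erase (a + r, c)}

theorem locF_safe (sh : List (List ℕ)) (a c : ℤ) (r y : ℕ) (S loc : List ℕ)
    (hlen : ∀ L ∈ sh, L.length ≤ 6)
    (hthru : ∀ i < 13, ∀ L ∈ sh, 64 * r + 12 ∈ codes (i + 6) L → maskOf (codes (i + 6) L) ∈ S)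
    (hk : ∀ M ∈ S, killed (M <<< 20) y y loc = true) (hm : matchOK [64 * r + 32] loc = true)
    (m : ℕ) : Safe m (locF sh a c r y) := by
  refine safe_of_matchOK a (c - 32) [64 * r + 32] loc hm ?_ m
  rintro _ ⟨s, L, hL, hx, hy, rfl⟩
  obtain ⟨i, hi, hmem, hrep⟩ := thru_rep a s c r L (hlen L hL) hx
  have e : c - 12 - ((20 : ℕ) : ℤ) = c - 32 := by push_cast; omega
  have hrep' := hrep 20 (by omega)
  rw [e] at hrep'
  obtain ⟨p, hp, h1, h2⟩ := killed_spec (fun k hk => (hrep' k).1 hk)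
    (hk _ (hthru i hi L hL hmem)) hy hy
  obtain ⟨-, h3, h4⟩ := (matchOK_spec _ _ hm).1 p hp
  have hd : dec a (c - 32) (64 * r + 32) = (a + r, c) := by
    rw [dec_mk _ _ _ _ (by omega)]
    simp
  refine ⟨p, hp, ?_, ?_⟩
  · rw [Finset.mem_erase]
    refine ⟨fun e => h3 ?_, h1⟩
    rw [← hd] at e
    rw [dec_injective _ _ e]
    simp
  · rw [Finset.mem_erase]
    refine ⟨fun e => h4 ?_, h2⟩
    rw [← hd] at e
    rw [dec_injective _ _ e]
    simp

/-! ### Height four -/

theorem sh4_len : ∀ L ∈ sh4, L.length = 3 ∧ (codes 20 L).Nodup := by decide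
theorem paths_3_0 : ∀ L ∈ paths 3 0, L ∈ sh4 := by decide

/-- The checks for height four. -/
def ok4 (r : ℕ) : Bool :=
  (y4.getD r 0 != 64 * r + 32) && matchOK [64 * r + 32] (loc4.getD r []) &&
  ((S4.getD r []).all fun M => killed (M <<< 20) (y4.getD r 0) (y4.getD r 0) (loc4.getD r [])) &&
  ((List.range 13).all fun i => sh4.all fun L => !(codes (i + 6) L).contains (64 * r + 12) ||
    (S4.getD r []).contains (maskOf (codes (i + 6) L)))

theorem ok4_all : ∀ r < 4, ok4 r = true := by decide +kernel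

theorem safe_cross_four (a : ℤ) : Safe 4 (Cross a 4) := by
  -- restrict to straight crossings
  have hG : Dom {E ∈ Cross a 4 | E.card ≤ 4} {E | ∃ s : ℤ, ∃ L ∈ sh4, E = ch a s L} := by
    rintro E ⟨hE, hc⟩
    obtain ⟨s, L, hL, h⟩ := cross_cells (n := 3) (e := 0) (by omega) hE (by omega)
    refine ⟨_, ⟨s, L, paths_3_0 L hL, rfl⟩, fun x hx => h x ?_⟩
    rwa [ch, List.mem_toFinset] at hx
  refine Safe.of_card (Safe.mono hG ?_)
  have hcard : ∀ s : ℤ, ∀ L ∈ sh4, (ch a s L).card = 4 := by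
    intro s L hL
    obtain ⟨h1, h2⟩ := sh4_len L hL
    rw [card_ch a s L 20 (by omega) (by omega) h2, h1]
  refine Safe.of_supp {x | a ≤ x.1 ∧ x.1 < a + 4} ?_ ⟨(a, 0), by simp⟩ ?_ ?_
  · rintro _ ⟨s, L, hL, rfl⟩ x hx
    obtain ⟨i, hi, rfl⟩ := (mem_ch_iff a s L 20 (by have := (sh4_len L hL).1; omega)
      (by have := (sh4_len L hL).1; omega) x).1 hx
    have : ∀ L ∈ sh4, ∀ i ∈ codes 20 L, i / 64 < 4 := by decide
    have := this L hL i hi
    simp only [dec, Set.mem_ofPred_eq]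
    omega
  · rintro ⟨s, L, hL, h⟩
    have := hcard s L hL
    rw [← h] at this
    simp at this
  · rintro ⟨xr, c⟩ hx
    simp only [Set.mem_ofPred_eq] at hx
    obtain ⟨r, hr⟩ : ∃ r : ℕ, xr = a + r := ⟨(xr - a).toNat, by omega⟩
    subst hr
    have hr4 : r < 4 := by omega
    have hok := ok4_all r hr4
    simp only [ok4, Bool.and_eq_true, bne_iff_ne, ne_eq, List.all_eq_true, List.mem_range,
      Bool.or_eq_true, Bool.not_eq_true', List.contains_iff_mem] at hok
    obtain ⟨⟨⟨h1, h2⟩, h3⟩, h4⟩ := hok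
    have hd : dec a (c - 32) (64 * r + 32) = (a + r, c) := by
      rw [dec_mk _ _ _ _ (by omega)]
      simp
    refine ⟨dec a (c - 32) (y4.getD r 0), fun e => h1 (dec_injective _ _ (e.trans hd.symm)), ?_⟩
    refine Safe.of_card ((locF_safe sh4 a c r (y4.getD r 0) (S4.getD r []) (loc4.getD r [])
      (fun L hL => by have := (sh4_len L hL).1; omega) ?_ h3 h2 3).mono ?_)
    · intro i hi L hL hmem
      rcases h4 i hi L hL with h | h
      · rw [← Bool.not_eq_true, List.contains_iff_mem] at h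
        exact absurd hmem h
      · exact h
    · rintro _ ⟨⟨_, ⟨s, L, hL, rfl⟩, hy, rfl⟩, hc⟩
      have hxE : ((a + r, c) : Cell) ∈ ch a s L := by
        by_contra hx
        rw [Finset.erase_eq_of_notMem hx, hcard s L hL] at hc
        omega
      exact ⟨_, ⟨s, L, hL, hxE, hy, rfl⟩, subset_rfl⟩

end Pool.Agent.Lib_helper61
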