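import Mathlib
import Pool.Agent.Lib_helper61.Band

/-!
# Bands of height six
-/

namespace Pool.Agent.Lib_helper61

theorem sh6_len : ∀ L ∈ sh6, L.length = 5 ∧ L.count 2 = 0 ∧ (codes 20 L).Nodup := by
  decide +kernel
theorem sh7_len : ∀ L ∈ sh7, L.length = 6 ∧ L.count 2 ≤ 1 ∧ (codes 20 L).Nodup := by
  decide +kernel
theorem sh67_rows : ∀ L ∈ sh6 ++ sh7, ∀ i ∈ codes 20 L, i / 64 < 6 := by decide +kernel

/-- The chains to be blocked. -/
def G6 (a : ℤ) : Set (Finset Cell) := {E | ∃ s : ℤ, ∃ L ∈ sh6 ++ sh7, E = ch a s L}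

theorem len67 {L : List ℕ} (hL : L ∈ sh6 ++ sh7) : L.length ≤ 6 := by
  rw [List.mem_append] at hL
  rcases hL with hL | hL
  · have := (sh6_len L hL).1; omega
  · have := (sh7_len L hL).1; omega

theorem dom_G6 (a : ℤ) : Dom {E ∈ Cross a 6 | E.card ≤ 7} (G6 a) := by
  rintro E ⟨hE, hc⟩
  obtain ⟨s, L, hL, h⟩ := cross_cells (n := 5) (e := 1) (by omega) hE (by omega)
  have hsub : ch a s L ⊆ E := fun x hx => h x (by rwa [ch, List.mem_toFinset] at hx)
  have hred := reduce_all L hL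
  simp only [okReduce, Bool.or_eq_true, List.contains_iff_mem, List.any_eq_true,
    List.all_eq_true] at hred
  rcases hred with (h1 | h1) | ⟨L', hL', k, hk, h1⟩
  · exact ⟨_, ⟨s, L, List.mem_append_left _ h1, rfl⟩, hsub⟩
  · exact ⟨_, ⟨s, L, List.mem_append_right _ h1, rfl⟩, hsub⟩
  · refine ⟨_, ⟨s + k - 20, L', List.mem_append_left _ hL', rfl⟩, fun x hx => hsub ?_⟩
    have hk' : 19 ≤ k ∧ k ≤ 21 := by
      simp only [List.mem_cons, List.not_mem_nil, or_false] at hk
      omega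
    have hl' := (sh6_len L' hL').1
    have hl : L.length ≤ 6 := by
      have : ∀ L ∈ paths 5 1, L.length ≤ 6 := by decide +kernel
      exact this L hL
    obtain ⟨i, hi, rfl⟩ := (mem_ch_iff a _ L' k (by omega) (by omega) x).1 hx
    refine (mem_ch_iff a s L 20 (by omega) (by omega) _).2 ⟨i, h1 i hi, ?_⟩
    congr 1
    push_cast
    omega

theorem card6 (a s : ℤ) {L : List ℕ} (hL : L ∈ sh6) : (ch a s L).card = 6 := by
  obtain ⟨h1, -, h2⟩ := sh6_len L hL
  rw [card_ch a s L 20 (by omega) (by omega) h2, h1]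

theorem card7 (a s : ℤ) {L : List ℕ} (hL : L ∈ sh7) : (ch a s L).card = 7 := by
  obtain ⟨h1, -, h2⟩ := sh7_len L hL
  rw [card_ch a s L 20 (by omega) (by omega) h2, h1]

theorem block_all : ∀ r < 6, ∀ r₂ < 6, okBlock r r₂ = true := by
  intro r hr r₂ hr₂
  interval_cases r <;> interval_cases r₂
  · exact block_0_0
  · exact block_0_1
  · exact block_0_2
  · exact block_0_3
  · exact block_0_4
  · exact block_0_5
  · exact block_1_0
  · exact block_1_1
  · exact block_1_2
  · exact block_1_3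
  · exact block_1_4
  · exact block_1_5
  · exact block_2_0
  · exact block_2_1
  · exact block_2_2
  · exact block_2_3
  · exact block_2_4
  · exact block_2_5
  · exact block_3_0
  · exact block_3_1
  · exact block_3_2
  · exact block_3_3
  · exact block_3_4
  · exact block_3_5
  · exact block_4_0
  · exact block_4_1
  · exact block_4_2
  · exact block_4_3
  · exact block_4_4
  · exact block_4_5
  · exact block_5_0
  · exact block_5_1
  · exact block_5_2
  · exact block_5_3
  · exact block_5_4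
  · exact block_5_5

theorem thru6 (r : ℕ) (hr : r < 6) : ∀ i < 13, ∀ L ∈ sh6, 64 * r + 12 ∈ codes (i + 6) L →
    maskOf (codes (i + 6) L) ∈ S6 r := by
  intro i hi L hL hmem
  have h := thru_all i hi r hr
  simp only [okThru, Bool.and_eq_true, List.all_eq_true, Bool.or_eq_true, Bool.not_eq_true',
    List.contains_iff_mem] at h
  rcases h.1 L hL with h | h
  · rw [← Bool.not_eq_true, List.contains_iff_mem] at h
    exact absurd hmem h
  · exact h

theorem thru7 (r : ℕ) (hr : r < 6) : ∀ i < 13, ∀ L ∈ sh7, 64 * r + 12 ∈ codes (i + 6) L →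
    maskOf (codes (i + 6) L) ∈ Q6 r := by
  intro i hi L hL hmem
  have h := thru_all i hi r hr
  simp only [okThru, Bool.and_eq_true, List.all_eq_true, Bool.or_eq_true, Bool.not_eq_true',
    List.contains_iff_mem] at h
  rcases h.2 L hL with h | h
  · rw [← Bool.not_eq_true, List.contains_iff_mem] at h
    exact absurd hmem h
  · exact h

theorem locF6_safe (a c : ℤ) (r : ℕ) (hr : r < 6) (m : ℕ) :
    Safe m (locF sh6 a c r (y6f r)) := by
  have h := local_all r hr
  simp only [okLocal, Bool.and_eq_true, List.all_eq_true] at h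
  exact locF_safe sh6 a c r (y6f r) (S6 r) (loc6f r)
    (fun L hL => by have := (sh6_len L hL).1; omega) (thru6 r hr) h.2 h.1.2 m

/-- The near case: the table. -/
theorem near6 (a c : ℤ) (r r₂ t : ℕ) (hr : r < 6) (hr₂ : r₂ < 6) (ht : 10 ≤ t) (ht' : t ≤ 30) :
    ∃ y, y ≠ ((a + r₂, c - 20 + t) : Cell) ∧
      Safe 5 (after (after (G6 a) (a + r, c) (dec a (c - 32) (y6f r))) (a + r₂, c - 20 + t) y) := by
  have hb := block_all r hr r₂ hr₂
  simp only [okBlock, List.all_eq_true, List.mem_range] at hb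
  have hb := hb (t - 10) (by omega)
  rw [Nat.sub_add_cancel ht] at hb
  set y₂ := (ent6 r r₂ (t - 10)).headD 0
  set P := (ent6 r r₂ (t - 10)).tail
  simp only [okEntry, Bool.and_eq_true, bne_iff_ne, ne_eq, List.all_eq_true, Bool.or_eq_true,
    Bool.not_eq_true', beq_iff_eq] at hb
  obtain ⟨⟨⟨⟨⟨hy1, hy2⟩, hm⟩, hS⟩, hS₂⟩, hQ⟩ := hb
  have inj := dec_injective a (c - 32)
  have hdx : dec a (c - 32) (64 * r + 32) = (a + r, c) := by
    rw [dec_mk _ _ _ _ (by omega)]
    simp
  have hdx₂ : dec a (c - 32) (64 * r₂ + t + 12) = (a + r₂, c - 20 + t) := by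
    rw [add_assoc, dec_mk _ _ _ _ (by omega)]
    rw [Prod.mk.injEq]
    push_cast
    omega
  refine ⟨dec a (c - 32) y₂, fun e => hy2 (inj (e.trans hdx₂.symm)), ?_⟩
  refine Safe.of_card (safe_of_matchOK a (c - 32) _ P hm ?_ 5)
  rintro _ ⟨⟨_, ⟨_, ⟨s, L, hL, rfl⟩, hy₁E, rfl⟩, hy₂E, rfl⟩, hc⟩
  have hy₂E' : dec a (c - 32) y₂ ∉ ch a s L := by
    intro h
    exact hy₂E (Finset.mem_erase.2 ⟨fun e => hy1 (inj (e.trans hdx.symm)), h⟩)
  -- it suffices to find a pair in the chain
  suffices h : ∃ p ∈ P, dec a (c - 32) (p / 512) ∈ ch a s L ∧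
      dec a (c - 32) (p % 512) ∈ ch a s L by
    obtain ⟨p, hp, h1, h2⟩ := h
    obtain ⟨-, h3, h4⟩ := (matchOK_spec _ _ hm).1 p hp
    simp only [List.mem_cons, List.not_mem_nil, or_false, not_or] at h3 h4
    refine ⟨p, hp, ?_, ?_⟩
    · rw [Finset.mem_erase, Finset.mem_erase, ← hdx, ← hdx₂]
      exact ⟨fun e => h3.2 (inj e), fun e => h3.1 (inj e), h1⟩
    · rw [Finset.mem_erase, Finset.mem_erase, ← hdx, ← hdx₂]
      exact ⟨fun e => h4.2 (inj e), fun e => h4.1 (inj e), h2⟩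
  have hlen := len67 hL
  -- masks through the first stone
  have e20 : c - 12 - ((20 : ℕ) : ℤ) = c - 32 := by push_cast; omega
  have et : c - 20 + (t : ℤ) - 12 - ((t : ℕ) : ℤ) = c - 32 := by omega
  rw [List.mem_append] at hL
  rcases hL with hL | hL
  · have h6 := card6 a s hL
    by_cases hx : ((a + r, c) : Cell) ∈ ch a s L
    · obtain ⟨i, hi, hmem, hrep⟩ := thru_rep a s c r L hlen hx
      have hrep' := hrep 20 (by omega)
      rw [e20] at hrep'
      exact killed_spec (fun k hk => (hrep' k).1 hk) (hS _ (thru6 r hr i hi L hL hmem)) hy₁E hy₂E'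
    · by_cases hx₂ : ((a + r₂, c - 20 + t) : Cell) ∈ ch a s L
      · obtain ⟨i, hi, hmem, hrep⟩ := thru_rep a s (c - 20 + t) r₂ L hlen hx₂
        have hrep' := hrep t (by omega)
        rw [et] at hrep'
        exact killed_spec (fun k hk => (hrep' k).1 hk) (hS₂ _ (thru6 r₂ hr₂ i hi L hL hmem))
          hy₁E hy₂E'
      · exfalso
        rw [Finset.erase_eq_of_notMem hx, Finset.erase_eq_of_notMem hx₂, h6] at hc
        omega
  · have h7 := card7 a s hL
    have hx : ((a + r, c) : Cell) ∈ ch a s L := by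
      by_contra hx
      rw [Finset.erase_eq_of_notMem hx] at hc
      have := Finset.pred_card_le_card_erase (s := ch a s L) (a := (a + r₂, c - 20 + t))
      omega
    have hc1 : ((ch a s L).erase (a + r, c)).card = 6 := by
      rw [Finset.card_erase_of_mem hx, h7]
    have hx₂ : ((a + r₂, c - 20 + t) : Cell) ∈ (ch a s L).erase (a + r, c) := by
      by_contra hx₂
      rw [Finset.erase_eq_of_notMem hx₂, hc1] at hc
      omega
    rw [Finset.mem_erase] at hx₂
    obtain ⟨i, hi, hmem, hrep⟩ := thru_rep a s c r L hlen hx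
    have hrep' := hrep 20 (by omega)
    rw [e20] at hrep'
    rcases hQ with hQ | hQ
    · exfalso
      apply hx₂.1
      rw [← hdx, ← hdx₂, hQ]
    · rcases hQ _ (thru7 r hr i hi L hL hmem) with h | h
      · exfalso
        have := (hrep' (64 * r₂ + t + 12)).2 (by rw [hdx₂]; exact hx₂.2)
        rw [h] at this
        exact absurd this (by simp)
      · exact killed_spec (fun k hk => (hrep' k).1 hk) h hy₁E hy₂E'

theorem locF_supp (a c : ℤ) (r y : ℕ) : ∀ E ∈ locF sh6 a c r y, ∀ x ∈ E,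
    x ∈ {p : Cell | c - 5 ≤ p.2 ∧ p.2 ≤ c + 5} := by
  rintro _ ⟨s, L, hL, hx, -, rfl⟩ p hp
  obtain ⟨h1, h2, -⟩ := sh6_len L hL
  rw [Finset.mem_erase, ch, List.mem_toFinset] at hp
  rw [ch, List.mem_toFinset] at hx
  have b1 := col_bounds _ _ _ hx
  have b2 := col_bounds _ _ _ hp.2
  simp only at b1 b2
  rw [h1, h2] at b1 b2
  simp only [Set.mem_ofPred_eq]
  omega

/-- The far case: local replies. -/
theorem far6 (a c c₂ : ℤ) (r r₂ : ℕ) (hr : r < 6) (hr₂ : r₂ < 6)
    (hfar : c₂ < c - 10 ∨ c + 10 < c₂) :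
    ∃ y, y ≠ ((a + r₂, c₂) : Cell) ∧
      Safe 5 (after (after (G6 a) (a + r, c) (dec a (c - 32) (y6f r))) (a + r₂, c₂) y) := by
  have h := local_all r₂ hr₂
  simp only [okLocal, Bool.and_eq_true, bne_iff_ne, ne_eq, List.all_eq_true] at h
  have hdx : dec a (c₂ - 32) (64 * r₂ + 32) = (a + r₂, c₂) := by
    rw [dec_mk _ _ _ _ (by omega)]
    simp
  refine ⟨dec a (c₂ - 32) (y6f r₂), fun e => h.1.1 (dec_injective _ _ (e.trans hdx.symm)), ?_⟩
  refine Safe.of_card ((Safe.union _ _ (locF_supp a c r (y6f r)) (locF_supp a c₂ r₂ (y6f r₂)) ?_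
    (locF6_safe a c r hr 5) (locF6_safe a c₂ r₂ hr₂ 5)).mono ?_)
  · rw [Set.disjoint_left]
    intro p hp hp'
    simp only [Set.mem_ofPred_eq] at hp hp'
    omega
  · rintro _ ⟨⟨_, ⟨_, ⟨s, L, hL, rfl⟩, hy₁E, rfl⟩, hy₂E, rfl⟩, hc⟩
    rw [List.mem_append] at hL
    -- both stones cannot be in the chain
    have hnot : ¬ (((a + r, c) : Cell) ∈ ch a s L ∧ ((a + r₂, c₂) : Cell) ∈ ch a s L) := by
      rintro ⟨hx, hx₂⟩
      rw [ch, List.mem_toFinset] at hx hx₂
      have b1 := col_bounds _ _ _ hx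
      have b2 := col_bounds _ _ _ hx₂
      simp only at b1 b2
      rcases hL with hL | hL
      · obtain ⟨h1, h2, -⟩ := sh6_len L hL
        rw [h1, h2] at b1 b2
        omega
      · obtain ⟨h1, h2, -⟩ := sh7_len L hL
        rw [h1] at b1 b2
        omega
    rcases hL with hL | hL
    · have h6 := card6 a s hL
      by_cases hx : ((a + r, c) : Cell) ∈ ch a s L
      · have hx₂ : ((a + r₂, c₂) : Cell) ∉ ch a s L := fun h => hnot ⟨hx, h⟩
        refine ⟨_, Or.inl ⟨s, L, hL, hx, hy₁E, rfl⟩, ?_⟩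
        rw [Finset.erase_eq_of_notMem (a := ((a + r₂, c₂) : Cell))]
        exact fun h => hx₂ (Finset.mem_of_mem_erase h)
      · rw [Finset.erase_eq_of_notMem hx] at hc hy₂E ⊢
        have hx₂ : ((a + r₂, c₂) : Cell) ∈ ch a s L := by
          by_contra hx₂
          rw [Finset.erase_eq_of_notMem hx₂, h6] at hc
          omega
        exact ⟨_, Or.inr ⟨s, L, hL, hx₂, hy₂E, rfl⟩, subset_rfl⟩
    · exfalso
      have h7 := card7 a s hL
      by_cases hx : ((a + r, c) : Cell) ∈ ch a s L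
      · have hx₂ : ((a + r₂, c₂) : Cell) ∉ ch a s L := fun h => hnot ⟨hx, h⟩
        rw [Finset.erase_eq_of_notMem (a := ((a + r₂, c₂) : Cell))
          (fun h => hx₂ (Finset.mem_of_mem_erase h)), Finset.card_erase_of_mem hx, h7] at hc
        omega
      · rw [Finset.erase_eq_of_notMem hx] at hc
        have := Finset.pred_card_le_card_erase (s := ch a s L) (a := (a + r₂, c₂))
        omega

theorem G6_supp (a : ℤ) : ∀ E ∈ G6 a, ∀ x ∈ E, x ∈ {p : Cell | a ≤ p.1 ∧ p.1 < a + 6} := by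
  rintro _ ⟨s, L, hL, rfl⟩ x hx
  have hlen := len67 hL
  obtain ⟨i, hi, rfl⟩ := (mem_ch_iff a s L 20 (by omega) (by omega) x).1 hx
  have := sh67_rows L hL i hi
  simp only [dec, Set.mem_ofPred_eq]
  omega

theorem G6_card (a : ℤ) : ∀ E ∈ G6 a, 6 ≤ E.card := by
  rintro _ ⟨s, L, hL, rfl⟩
  rw [List.mem_append] at hL
  rcases hL with hL | hL
  · rw [card6 a s hL]
  · rw [card7 a s hL]
    omega

theorem safe_cross_six (a : ℤ) : Safe 7 (Cross a 6) := by
  refine Safe.of_card (Safe.mono (dom_G6 a) ?_)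
  refine Safe.of_supp _ (G6_supp a) ⟨(a, 0), by simp⟩ ?_ ?_
  · intro h
    have := G6_card a _ h
    simp at this
  · rintro ⟨xr, c⟩ hx
    simp only [Set.mem_ofPred_eq] at hx
    obtain ⟨r, hr⟩ : ∃ r : ℕ, xr = a + r := ⟨(xr - a).toNat, by omega⟩
    subst hr
    have hr6 : r < 6 := by omega
    have hok := local_all r hr6
    simp only [okLocal, Bool.and_eq_true, bne_iff_ne, ne_eq, List.all_eq_true] at hok
    have hd : dec a (c - 32) (64 * r + 32) = (a + r, c) := by
      rw [dec_mk _ _ _ _ (by omega)]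
      simp
    refine ⟨dec a (c - 32) (y6f r), fun e => hok.1.1 (dec_injective _ _ (e.trans hd.symm)), ?_⟩
    refine Safe.of_supp {p : Cell | a ≤ p.1 ∧ p.1 < a + 6} ?_ ⟨(a, 0), by simp⟩ ?_ ?_
    · rintro _ ⟨E, hE, -, rfl⟩ x hx
      exact G6_supp a E hE x (Finset.mem_of_mem_erase hx)
    · rintro ⟨E, hE, -, h⟩
      have h1 := G6_card a _ hE
      have h2 := Finset.pred_card_le_card_erase (s := E) (a := (a + r, c))
      rw [← h] at h2
      simp at h2
      omega
    · rintro ⟨xr₂, c₂⟩ hx₂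
      simp only [Set.mem_ofPred_eq] at hx₂
      obtain ⟨r₂, hr₂⟩ : ∃ r₂ : ℕ, xr₂ = a + r₂ := ⟨(xr₂ - a).toNat, by omega⟩
      subst hr₂
      have hr₂6 : r₂ < 6 := by omega
      by_cases hfar : c₂ < c - 10 ∨ c + 10 < c₂
      · exact far6 a c c₂ r r₂ hr6 hr₂6 hfar
      · push Not at hfar
        obtain ⟨t, ht⟩ : ∃ t : ℕ, c₂ = c - 20 + t := ⟨(c₂ - c + 20).toNat, by omega⟩
        subst ht
        exact near6 a c r r₂ t hr6 hr₂6 (by omega) (by omega)

end Pool.Agent.Lib_helper61
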