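import Pool.Agent.Lib_helper61.SwMain

set_option autoImplicit false

namespace Pool.Agent.Lib_helper61.SwCograph

open Finset Pool.Agent.Lib_helper61.SwitchBasic Pool.Agent.Lib_helper61.SwMain

variable {α : Type*} [Fintype α] [DecidableEq α]

/-- no induced path on four vertices -/
def P4Free (Γ : SimpleGraph α) : Prop :=
  ∀ a b c d, Γ.Adj a b → Γ.Adj b c → Γ.Adj c d → ¬ Γ.Adj a c → ¬ Γ.Adj b d → ¬ Γ.Adj a d → False

omit [Fintype α] [DecidableEq α] in
theorem p4Free_compl {Γ : SimpleGraph α} (h : P4Free Γ) : P4Free Γᶜ := by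
  intro a b c d hab hbc hcd hac hbd had
  rw [SimpleGraph.compl_adj] at *
  have hac' : a ≠ c := by
    rintro rfl
    exact had hcd
  have hbd' : b ≠ d := by
    rintro rfl
    exact had hab
  have had' : a ≠ d := by
    rintro rfl
    exact hac ⟨hcd.1.symm, fun h => hcd.2 h.symm⟩
  have h1 : Γ.Adj a c := by
    by_contra h
    exact hac ⟨hac', h⟩
  have h2 : Γ.Adj b d := by
    by_contra h
    exact hbd ⟨hbd', h⟩
  have h3 : Γ.Adj a d := by
    by_contra h
    exact had ⟨had', h⟩
  exact h b d a c h2 h3.symm h1 (fun h => hab.2 h.symm) (fun h => hcd.2 h.symm) hbc.2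

/-- the set can be cut without edges -/
def Sep (Γ : SimpleGraph α) (X : Finset α) : Prop :=
  ∃ Y Z : Finset α, Y ∪ Z = X ∧ Disjoint Y Z ∧ Y.Nonempty ∧ Z.Nonempty ∧
    ∀ a ∈ Y, ∀ b ∈ Z, ¬ Γ.Adj a b

theorem sep_step {Γ : SimpleGraph α} (h : P4Free Γ) (X : Finset α) (v : α) (hv : v ∉ X)
    (hX : Sep Γ X) : Sep Γ (insert v X) ∨ Sep Γᶜ (insert v X) := by
  classical
  obtain ⟨Y, Z, hYZ, hd, hY, hZ, hno⟩ := hX
  have hvY : v ∉ Y := fun h => hv (by rw [← hYZ]; exact Finset.mem_union_left _ h)
  have hvZ : v ∉ Z := fun h => hv (by rw [← hYZ]; exact Finset.mem_union_right _ h)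
  by_cases h1 : ∀ y ∈ Y, ¬ Γ.Adj v y
  · left
    refine ⟨Y, insert v Z, ?_, ?_, hY, Finset.insert_nonempty _ _, ?_⟩
    · rw [Finset.union_insert, hYZ]
    · rw [Finset.disjoint_insert_right]
      exact ⟨hvY, hd⟩
    · intro a ha b hb
      rw [Finset.mem_insert] at hb
      rcases hb with rfl | hb
      · exact fun h => h1 a ha h.symm
      · exact hno a ha b hb
  by_cases h2 : ∀ z ∈ Z, ¬ Γ.Adj v z
  · left
    refine ⟨insert v Y, Z, ?_, ?_, Finset.insert_nonempty _ _, hZ, ?_⟩
    · rw [Finset.insert_union, hYZ]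
    · rw [Finset.disjoint_insert_left]
      exact ⟨hvZ, hd⟩
    · intro a ha b hb
      rw [Finset.mem_insert] at ha
      rcases ha with rfl | ha
      · exact h2 b hb
      · exact hno a ha b hb
  push Not at h1 h2
  obtain ⟨y0, hy0, hvy0⟩ := h1
  obtain ⟨z0, hz0, hvz0⟩ := h2
  by_cases h3 : ∀ x ∈ X, Γ.Adj v x
  · right
    refine ⟨{v}, X, rfl, ?_, Finset.singleton_nonempty v, ?_, ?_⟩
    · rw [Finset.disjoint_singleton_left]
      exact hv
    · rw [← hYZ]
      exact hY.mono Finset.subset_union_left
    · intro a ha b hb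
      rw [Finset.mem_singleton] at ha
      subst ha
      rw [SimpleGraph.compl_adj]
      exact fun h => h.2 (h3 b hb)
  push Not at h3
  obtain ⟨x0, hx0, hvx0⟩ := h3
  left
  refine ⟨X.filter (fun x => ¬ Γ.Adj v x), insert v (X.filter (fun x => Γ.Adj v x)), ?_, ?_,
    ⟨x0, Finset.mem_filter.2 ⟨hx0, hvx0⟩⟩, Finset.insert_nonempty _ _, ?_⟩
  · rw [Finset.union_insert, Finset.union_comm, Finset.filter_union_filter_not_eq]
  · rw [Finset.disjoint_insert_right]
    refine ⟨fun h => hv (Finset.mem_filter.1 h).1, ?_⟩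
    rw [Finset.disjoint_filter]
    intro x _ hx hx'
    exact hx hx'
  · intro a ha b hb hab
    rw [Finset.mem_filter] at ha
    rw [Finset.mem_insert, Finset.mem_filter] at hb
    rcases hb with rfl | ⟨hbX, hvb⟩
    · exact ha.2 hab.symm
    · -- `a - b - v - c` is an induced path, with `c` on the other side
      obtain ⟨haX, hva⟩ := ha
      rw [← hYZ, Finset.mem_union] at haX hbX
      rcases haX with ha | ha <;> rcases hbX with hb | hb
      · exact h a b v z0 hab hvb.symm hvz0 (fun h => hva h.symm) (hno b hb z0 hz0)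
          (hno a ha z0 hz0)
      · exact hno a ha b hb hab
      · exact hno b hb a ha hab.symm
      · exact h a b v y0 hab hvb.symm hvy0 (fun h => hva h.symm)
          (fun h => hno y0 hy0 b hb h.symm) (fun h => hno y0 hy0 a ha h.symm)

/-- a graph without induced path on four vertices, or its complement, can be cut -/
theorem seinsche {Γ : SimpleGraph α} (h : P4Free Γ) (X : Finset α) :
    2 ≤ X.card → Sep Γ X ∨ Sep Γᶜ X := by
  classical
  induction X using Finset.induction_on with
  | empty => simp
  | insert v X hv ih =>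
    intro hc
    rw [Finset.card_insert_of_notMem hv] at hc
    by_cases h2 : 2 ≤ X.card
    · rcases ih h2 with h3 | h3
      · exact sep_step h X v hv h3
      · have h4 := sep_step (p4Free_compl h) X v hv h3
        rw [compl_compl] at h4
        exact h4.symm
    · obtain ⟨w, hw⟩ := Finset.card_eq_one.1 (by omega : X.card = 1)
      subst hw
      rw [Finset.mem_singleton] at hv
      by_cases hadj : Γ.Adj v w
      · right
        refine ⟨{v}, {w}, rfl, by simpa using hv, Finset.singleton_nonempty _,
          Finset.singleton_nonempty _, ?_⟩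
        intro a ha b hb
        rw [Finset.mem_singleton] at ha hb
        subst ha hb
        rw [SimpleGraph.compl_adj]
        exact fun h => h.2 hadj
      · left
        refine ⟨{v}, {w}, rfl, by simpa using hv, Finset.singleton_nonempty _,
          Finset.singleton_nonempty _, ?_⟩
        intro a ha b hb
        rw [Finset.mem_singleton] at ha hb
        subst ha hb
        exact hadj

/-- `X` is a module -/
def IsMod (Γ : SimpleGraph α) (X : Finset α) : Prop :=
  ∀ v, v ∉ X → (∀ x ∈ X, Γ.Adj v x) ∨ (∀ x ∈ X, ¬ Γ.Adj v x)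

omit [Fintype α] [DecidableEq α] in
theorem isMod_compl {Γ : SimpleGraph α} {X : Finset α} (h : IsMod Γ X) : IsMod Γᶜ X := by
  intro v hv
  rcases h v hv with h1 | h1
  · right
    intro x hx
    rw [SimpleGraph.compl_adj]
    exact fun h => h.2 (h1 x hx)
  · left
    intro x hx
    rw [SimpleGraph.compl_adj]
    exact ⟨fun h => hv (by rw [h]; exact hx), h1 x hx⟩

/-- three parts without edges between them give three small components -/
theorem three_comps (Γ : SimpleGraph α) (f : α → Fin 3) (hf : Function.Surjective f)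
    (hadj : ∀ u v, Γ.Adj u v → f u = f v)
    (hs : ∀ i, 2 * (univ.filter (fun v => f v = i)).card ≤ Fintype.card α) :
    3 ≤ Nat.card Γ.ConnectedComponent ∧
      ∀ c : Γ.ConnectedComponent, 2 * c.supp.ncard ≤ Fintype.card α := by
  classical
  have hreach : ∀ u v, Γ.Reachable u v → f u = f v := by
    intro u v h
    obtain ⟨w⟩ := h
    induction w with
    | nil => rfl
    | cons h _ ih => exact (hadj _ _ h).trans ih
  constructor
  · let g : Γ.ConnectedComponent → Fin 3 := fun c => c.lift f (fun u v p _ => hreach u v ⟨p⟩)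
    have hg : Function.Surjective g := by
      intro i
      obtain ⟨v, rfl⟩ := hf i
      exact ⟨Γ.connectedComponentMk v, rfl⟩
    have := Nat.card_le_card_of_surjective g hg
    rwa [Nat.card_eq_fintype_card (α := Fin 3), Fintype.card_fin] at this
  · intro c
    obtain ⟨v, rfl⟩ := Quot.exists_rep c
    have h1 : (Γ.connectedComponentMk v).supp ⊆
        ((univ.filter (fun w => f w = f v) : Finset α) : Set α) := by
      intro w hw
      rw [SimpleGraph.ConnectedComponent.mem_supp_iff, SimpleGraph.ConnectedComponent.eq] at hw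
      simp only [Finset.coe_filter, Finset.mem_univ, true_and]
      exact hreach w v hw
    have h2 := Set.ncard_le_ncard h1 (Finset.finite_toSet _)
    rw [Set.ncard_coe_finset] at h2
    have h3 := hs (f v)
    have h4 : (Γ.connectedComponentMk v).supp.ncard ≤ (univ.filter (fun w => f w = f v)).card := h2
    change 2 * (Γ.connectedComponentMk v).supp.ncard ≤ _
    omega

/-- a minimal large module that can be cut gives a switched graph with three small components -/
theorem cut_module (Γ : SimpleGraph α) (X : Finset α) (hX : IsMod Γ X)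
    (hXc : Fintype.card α ≤ 2 * X.card)
    (hmin : ∀ Y : Finset α, IsMod Γ Y → Fintype.card α ≤ 2 * Y.card → X.card ≤ Y.card)
    (hsep : Sep Γ X) : ∃ T : Finset α, 3 ≤ Nat.card (sw Γ T).ConnectedComponent ∧
      ∀ c : (sw Γ T).ConnectedComponent, 2 * c.supp.ncard ≤ Fintype.card α := by
  classical
  obtain ⟨Y, Z, hYZ, hd, hY, hZ, hno⟩ := hsep
  have hYX : Y ⊆ X := by rw [← hYZ]; exact Finset.subset_union_left
  have hZX : Z ⊆ X := by rw [← hYZ]; exact Finset.subset_union_right
  have hcard : Y.card + Z.card = X.card := by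
    rw [← hYZ, Finset.card_union_of_disjoint hd]
  have hYm : IsMod Γ Y := by
    intro v hv
    by_cases hvX : v ∈ X
    · have hvZ : v ∈ Z := by
        rw [← hYZ, Finset.mem_union] at hvX
        tauto
      right
      exact fun y hy h => hno y hy v hvZ h.symm
    · rcases hX v hvX with h | h
      · exact Or.inl (fun y hy => h y (hYX hy))
      · exact Or.inr (fun y hy => h y (hYX hy))
  have hZm : IsMod Γ Z := by
    intro v hv
    by_cases hvX : v ∈ X
    · have hvY : v ∈ Y := by
        rw [← hYZ, Finset.mem_union] at hvX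
        tauto
      right
      exact fun z hz h => hno v hvY z hz h
    · rcases hX v hvX with h | h
      · exact Or.inl (fun y hy => h y (hZX hy))
      · exact Or.inr (fun y hy => h y (hZX hy))
  have hYpos := hY.card_pos
  have hZpos := hZ.card_pos
  have hYs : 2 * Y.card < Fintype.card α := by
    by_contra h
    have := hmin Y hYm (by omega)
    omega
  have hZs : 2 * Z.card < Fintype.card α := by
    by_contra h
    have := hmin Z hZm (by omega)
    omega
  have hXle := Finset.card_le_univ X
  refine ⟨univ.filter (fun v => v ∉ X ∧ ∀ x ∈ X, Γ.Adj v x), ?_⟩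
  set T : Finset α := univ.filter (fun v => v ∉ X ∧ ∀ x ∈ X, Γ.Adj v x) with hT
  have hTX : ∀ x ∈ X, x ∉ T := by
    intro x hx h
    exact (Finset.mem_filter.1 h).2.1 hx
  have hnoX : ∀ x ∈ X, ∀ w, w ∉ X → ¬ (sw Γ T).Adj x w := by
    intro x hx w hw h
    rw [sw_adj] at h
    have hxT := hTX x hx
    by_cases hwT : w ∈ T
    · have h1 := (Finset.mem_filter.1 hwT).2.2 x hx
      have h2 := h.2.1 h1.symm
      tauto
    · have h1 : ¬ Γ.Adj x w := by
        rcases hX w hw with h3 | h3
        · exact absurd (Finset.mem_filter.2 ⟨Finset.mem_univ _, hw, h3⟩) hwT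
        · exact fun h4 => h3 x hx h4.symm
      tauto
  have hnoYZ : ∀ y ∈ Y, ∀ z ∈ Z, ¬ (sw Γ T).Adj y z := by
    intro y hy z hz h
    rw [sw_adj] at h
    have h1 := hTX y (hYX hy)
    have h2 := hTX z (hZX hz)
    have h3 := hno y hy z hz
    tauto
  have hYZ' : ∀ x, x ∈ X → x ∉ Y → x ∈ Z := by
    intro x hx hxY
    rw [← hYZ, Finset.mem_union] at hx
    tauto
  have hdd : ∀ x, x ∈ Y → x ∉ Z := fun x hx hx' => Finset.disjoint_left.1 hd hx hx'
  obtain ⟨w0, hw0⟩ : ∃ w, w ∉ X := by
    by_contra hcon
    push Not at hcon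
    have : X = univ := Finset.eq_univ_iff_forall.2 hcon
    rw [this, Finset.card_univ] at hcard
    omega
  obtain ⟨y0, hy0⟩ := hY
  obtain ⟨z0, hz0⟩ := hZ
  refine three_comps (sw Γ T) (fun v => if v ∈ Y then 0 else if v ∈ Z then 1 else 2) ?_ ?_ ?_
  · intro i
    fin_cases i
    · exact ⟨y0, by simp [hy0]⟩
    · have h1 : z0 ∉ Y := fun h => hdd z0 h hz0
      exact ⟨z0, by simp [hz0, h1]⟩
    · have h1 : w0 ∉ Y := fun h => hw0 (hYX h)
      have h2 : w0 ∉ Z := fun h => hw0 (hZX h)
      exact ⟨w0, by simp [h1, h2]⟩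
  · intro u v huv
    by_cases huY : u ∈ Y
    · have hvY : v ∈ Y := by
        by_contra hvY
        by_cases hvX : v ∈ X
        · exact hnoYZ u huY v (hYZ' v hvX hvY) huv
        · exact hnoX u (hYX huY) v hvX huv
      simp [huY, hvY]
    · by_cases huZ : u ∈ Z
      · have hvZ : v ∈ Z := by
          by_contra hvZ
          by_cases hvX : v ∈ X
          · have hvY : v ∈ Y := by
              by_contra hvY
              exact hvZ (hYZ' v hvX hvY)
            exact hnoYZ v hvY u huZ huv.symm
          · exact hnoX u (hZX huZ) v hvX huv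
        have hvY : v ∉ Y := fun h => hdd v h hvZ
        simp [huY, huZ, hvZ, hvY]
      · have huX : u ∉ X := fun h => huZ (hYZ' u h huY)
        have hvX : v ∉ X := fun h => hnoX v h u huX huv.symm
        have hvY : v ∉ Y := fun h => hvX (hYX h)
        have hvZ : v ∉ Z := fun h => hvX (hZX h)
        simp [huY, huZ, hvZ, hvY]
  · intro i
    fin_cases i
    · have h1 : (univ.filter (fun v => (if v ∈ Y then (0 : Fin 3) else if v ∈ Z then 1 else 2) = 0)) = Y := by
        ext v
        by_cases h : v ∈ Y <;> by_cases h' : v ∈ Z <;> simp [h, h']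
      change 2 * (univ.filter (fun v => (if v ∈ Y then (0 : Fin 3) else if v ∈ Z then 1 else 2) = 0)).card ≤ _
      rw [h1]
      omega
    · have h1 : (univ.filter (fun v => (if v ∈ Y then (0 : Fin 3) else if v ∈ Z then 1 else 2) = 1)) = Z := by
        ext v
        by_cases h : v ∈ Y
        · have := hdd v h
          simp [h, this]
        · by_cases h' : v ∈ Z <;> simp [h, h']
      change 2 * (univ.filter (fun v => (if v ∈ Y then (0 : Fin 3) else if v ∈ Z then 1 else 2) = 1)).card ≤ _
      rw [h1]
      omega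
    · have h1 : (univ.filter (fun v => (if v ∈ Y then (0 : Fin 3) else if v ∈ Z then 1 else 2) = 2)) = Xᶜ := by
        ext v
        rw [Finset.mem_filter, Finset.mem_compl]
        by_cases h : v ∈ Y
        · have := hYX h
          simp [h, this]
        · by_cases h' : v ∈ Z
          · have := hZX h'
            simp [h, h', this]
          · have : v ∉ X := fun hx => h' (hYZ' v hx h)
            simp [h, h', this]
      change 2 * (univ.filter (fun v => (if v ∈ Y then (0 : Fin 3) else if v ∈ Z then 1 else 2) = 2)).card ≤ _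
      rw [h1, Finset.card_compl]
      omega

/-- the switching class of a graph without induced `P4`, or its complement, contains a graph with
at least three components, all small -/
theorem exists_three (Γ : SimpleGraph α) (h : P4Free Γ) (hn : 3 ≤ Fintype.card α) :
    ∃ T : Finset α, (3 ≤ Nat.card (sw Γ T).ConnectedComponent ∧
      ∀ c : (sw Γ T).ConnectedComponent, 2 * c.supp.ncard ≤ Fintype.card α) ∨
      (3 ≤ Nat.card (sw Γᶜ T).ConnectedComponent ∧
      ∀ c : (sw Γᶜ T).ConnectedComponent, 2 * c.supp.ncard ≤ Fintype.card α) := by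
  classical
  have huniv : IsMod Γ (univ : Finset α) ∧ Fintype.card α ≤ 2 * (univ : Finset α).card := by
    refine ⟨fun v hv => absurd (Finset.mem_univ v) hv, ?_⟩
    rw [Finset.card_univ]
    omega
  obtain ⟨X, hX, hmin⟩ := Finset.exists_min_image
    (univ.filter (fun X : Finset α => IsMod Γ X ∧ Fintype.card α ≤ 2 * X.card)) Finset.card
    ⟨univ, Finset.mem_filter.2 ⟨Finset.mem_univ _, huniv⟩⟩
  obtain ⟨-, hXm, hXc⟩ := Finset.mem_filter.1 hX
  have hmin' : ∀ Y : Finset α, IsMod Γ Y → Fintype.card α ≤ 2 * Y.card → X.card ≤ Y.card :=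
    fun Y h1 h2 => hmin Y (Finset.mem_filter.2 ⟨Finset.mem_univ _, h1, h2⟩)
  rcases seinsche h X (by omega) with hs | hs
  · obtain ⟨T, hT⟩ := cut_module Γ X hXm hXc hmin' hs
    exact ⟨T, Or.inl hT⟩
  · obtain ⟨T, hT⟩ := cut_module Γᶜ X (isMod_compl hXm) hXc
      (fun Y h1 h2 => hmin' Y (by have := isMod_compl h1; rwa [compl_compl] at this) h2) hs
    exact ⟨T, Or.inr hT⟩

end Pool.Agent.Lib_helper61.SwCograph
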