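import Pool.Agent.Lib_helper61.SwitchBasic

set_option autoImplicit false

namespace Pool.Agent.Lib_helper61.SwComp

open Finset

section im

variable {α : Type*} {Γ Δ : SimpleGraph α}

/-- image of a vertex set under an isomorphism -/
def im (φ : Γ ≃g Δ) (U : Finset α) : Finset α := U.map φ.toEquiv.toEmbedding

theorem mem_im (φ : Γ ≃g Δ) (U : Finset α) (v : α) : φ v ∈ im φ U ↔ v ∈ U := by
  unfold im
  constructor
  · intro h
    obtain ⟨x, hx, hxw⟩ := Finset.mem_map.1 h
    have : x = v := φ.toEquiv.injective hxw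
    rwa [← this]
  · intro h
    exact Finset.mem_map.2 ⟨v, h, rfl⟩

theorem mem_im' (φ : Γ ≃g Δ) (U : Finset α) (v : α) : v ∈ im φ U ↔ φ.symm v ∈ U := by
  rw [← mem_im φ U (φ.symm v)]
  simp

theorem im_card (φ : Γ ≃g Δ) (U : Finset α) : (im φ U).card = U.card := by
  unfold im
  exact Finset.card_map _

theorem im_compl [Fintype α] [DecidableEq α] (φ : Γ ≃g Δ) (U : Finset α) :
    im φ Uᶜ = (im φ U)ᶜ := by
  ext v
  rw [Finset.mem_compl, mem_im', mem_im', Finset.mem_compl]

end im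

/-- A partition of the vertices into parts without edges between different parts, respected by
all automorphisms. -/
structure Parts {α : Type*} (Γ : SimpleGraph α) (ι : Type*) where
  cp : α → ι
  surj : Function.Surjective cp
  adj : ∀ u v, Γ.Adj u v → cp u = cp v
  aut : ∀ (φ : Γ ≃g Γ) u v, cp (φ u) = cp (φ v) ↔ cp u = cp v

variable {α ι : Type*} [Fintype α] [DecidableEq α] [Fintype ι] [DecidableEq ι]
  {Γ : SimpleGraph α} (P : Parts Γ ι)

namespace Parts

/-- vertex set of a part -/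
def V (c : ι) : Finset α := univ.filter (fun v => P.cp v = c)

omit [DecidableEq α] [Fintype ι] in
theorem mem_V (c : ι) (v : α) : v ∈ P.V c ↔ P.cp v = c := by
  simp [V]

/-- the automorphism maps the part `c` onto the part `c'` -/
def Maps (φ : Γ ≃g Γ) (c c' : ι) : Prop := ∀ v, P.cp v = c ↔ P.cp (φ v) = c'

omit [Fintype α] [DecidableEq α] [Fintype ι] [DecidableEq ι] in
theorem maps_refl (c : ι) : P.Maps SimpleGraph.Iso.refl c c := fun _ => Iff.rfl

omit [Fintype α] [DecidableEq α] [Fintype ι] [DecidableEq ι] in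
theorem maps_symm {φ : Γ ≃g Γ} {c c' : ι} (h : P.Maps φ c c') : P.Maps φ.symm c' c := by
  intro v
  rw [h (φ.symm v)]
  simp

omit [Fintype α] [DecidableEq α] [Fintype ι] [DecidableEq ι] in
theorem maps_trans {φ ψ : Γ ≃g Γ} {a b c : ι} (h : P.Maps φ a b) (h' : P.Maps ψ b c) :
    P.Maps (φ.trans ψ) a c := by
  intro v
  rw [h v, h' (φ v)]
  rfl

/-- the permutation of the parts induced by an automorphism -/
noncomputable def bar (φ : Γ ≃g Γ) (c : ι) : ι := P.cp (φ (Function.surjInv P.surj c))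

omit [Fintype α] [DecidableEq α] [Fintype ι] [DecidableEq ι] in
theorem bar_cp (φ : Γ ≃g Γ) (v : α) : P.bar φ (P.cp v) = P.cp (φ v) := by
  unfold bar
  rw [P.aut φ]
  exact Function.surjInv_eq P.surj _

omit [Fintype α] [DecidableEq α] [Fintype ι] [DecidableEq ι] in
theorem maps_bar (φ : Γ ≃g Γ) (c : ι) : P.Maps φ c (P.bar φ c) := by
  intro v
  obtain ⟨w, rfl⟩ := P.surj c
  rw [P.bar_cp, P.aut φ]

omit [Fintype α] [DecidableEq α] [Fintype ι] [DecidableEq ι] in
theorem bar_bij (φ : Γ ≃g Γ) : Function.Bijective (P.bar φ) := by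
  constructor
  · intro c c' h
    obtain ⟨v, rfl⟩ := P.surj c
    obtain ⟨w, rfl⟩ := P.surj c'
    rw [P.bar_cp, P.bar_cp, P.aut φ] at h
    exact h
  · intro c
    obtain ⟨v, rfl⟩ := P.surj c
    refine ⟨P.cp (φ.symm v), ?_⟩
    rw [P.bar_cp]
    simp

/-- the parts `c`, `c'` correspond to each other under an automorphism -/
def ty (c c' : ι) : Prop := ∃ φ : Γ ≃g Γ, P.Maps φ c c'

omit [Fintype α] [DecidableEq α] [Fintype ι] [DecidableEq ι] in
theorem ty_refl (c : ι) : P.ty c c := ⟨_, P.maps_refl c⟩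

omit [Fintype α] [DecidableEq α] [Fintype ι] [DecidableEq ι] in
theorem ty_symm {c c' : ι} (h : P.ty c c') : P.ty c' c := by
  obtain ⟨φ, h⟩ := h
  exact ⟨_, P.maps_symm h⟩

omit [Fintype α] [DecidableEq α] [Fintype ι] [DecidableEq ι] in
theorem ty_trans {a b c : ι} (h : P.ty a b) (h' : P.ty b c) : P.ty a c := by
  obtain ⟨φ, h⟩ := h
  obtain ⟨ψ, h'⟩ := h'
  exact ⟨_, P.maps_trans h h'⟩

/-- isomorphism of pairs (part, vertex set) -/
def Rel (x y : ι × Finset α) : Prop :=
  ∃ φ : Γ ≃g Γ, P.Maps φ x.1 y.1 ∧ ∀ v, P.cp v = x.1 → (φ v ∈ y.2 ↔ v ∈ x.2)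

omit [Fintype α] [DecidableEq α] [Fintype ι] [DecidableEq ι] in
theorem rel_equiv : Equivalence P.Rel := by
  refine ⟨fun x => ⟨SimpleGraph.Iso.refl, P.maps_refl _, fun v _ => Iff.rfl⟩, ?_, ?_⟩
  · rintro x y ⟨φ, h1, h2⟩
    refine ⟨φ.symm, P.maps_symm h1, fun v hv => ?_⟩
    have h3 : P.cp (φ.symm v) = x.1 := by
      rw [h1]
      simpa using hv
    have := h2 (φ.symm v) h3
    rw [← this]
    simp
  · rintro x y z ⟨φ, h1, h2⟩ ⟨ψ, h3, h4⟩
    refine ⟨φ.trans ψ, P.maps_trans h1 h3, fun v hv => ?_⟩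
    have h5 : P.cp (φ v) = y.1 := (h1 v).1 hv
    rw [← h2 v hv, ← h4 (φ v) h5]
    rfl

/-- the setoid of isomorphic pairs -/
def std : Setoid (ι × Finset α) := ⟨P.Rel, P.rel_equiv⟩

/-- isomorphism classes of pairs (part, vertex set) -/
def K : Type _ := Quotient P.std

/-- class of the part `c` with the vertex set `U` -/
def κ (c : ι) (U : Finset α) : P.K := Quotient.mk P.std (c, U)

omit [Fintype α] [DecidableEq α] [Fintype ι] [DecidableEq ι] in
theorem κ_eq (c c' : ι) (U U' : Finset α) : P.κ c U = P.κ c' U' ↔ P.Rel (c, U) (c', U') := by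
  exact Quotient.eq (r := P.std)

omit [Fintype α] [DecidableEq α] [Fintype ι] [DecidableEq ι] in
theorem κ_congr (c : ι) (U U' : Finset α) (h : ∀ v, P.cp v = c → (v ∈ U' ↔ v ∈ U)) :
    P.κ c U = P.κ c U' := by
  rw [κ_eq]
  exact ⟨SimpleGraph.Iso.refl, P.maps_refl _, fun v hv => h v hv⟩

omit [Fintype α] [DecidableEq α] [Fintype ι] [DecidableEq ι] in
theorem κ_ty {c c' : ι} {U U' : Finset α} (h : P.κ c U = P.κ c' U') : P.ty c c' := by
  rw [κ_eq] at h
  obtain ⟨φ, h1, -⟩ := h
  exact ⟨φ, h1⟩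

omit [Fintype α] [DecidableEq α] [Fintype ι] [DecidableEq ι] in
theorem κ_im (φ : Γ ≃g Γ) {c c' : ι} (h : P.Maps φ c c') (U : Finset α) :
    P.κ c' (im φ U) = P.κ c U := by
  symm
  rw [κ_eq]
  exact ⟨φ, h, fun v _ => mem_im φ U v⟩

omit [Fintype ι] [DecidableEq ι] in
theorem κ_compl {c c' : ι} {U U' : Finset α} (h : P.κ c U = P.κ c' U') :
    P.κ c Uᶜ = P.κ c' U'ᶜ := by
  rw [κ_eq] at h ⊢
  obtain ⟨φ, h1, h2⟩ := h
  refine ⟨φ, h1, fun v hv => ?_⟩
  have := h2 v hv
  simp only [Finset.mem_compl]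
  exact not_congr this

omit [Fintype α] [Fintype ι] [DecidableEq ι] in
/-- flipping one vertex in isomorphic pairs -/
theorem κ_flip {c c' : ι} {U U' : Finset α} (h : P.κ c U = P.κ c' U') (w : α)
    (hw : P.cp w = c') : ∃ v, P.cp v = c ∧ (v ∈ U ↔ w ∈ U') ∧
      P.κ c (symmDiff U {v}) = P.κ c' (symmDiff U' {w}) := by
  rw [κ_eq] at h
  obtain ⟨φ, h1, h2⟩ := h
  have hv : P.cp (φ.symm w) = c := by
    rw [h1]
    simpa using hw
  refine ⟨φ.symm w, hv, ?_, ?_⟩
  · have := h2 (φ.symm w) hv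
    rw [← this]
    simp
  · rw [κ_eq]
    refine ⟨φ, h1, fun x hx => ?_⟩
    have h3 := h2 x hx
    have h4 : φ x = w ↔ x = φ.symm w := by
      constructor
      · intro h
        rw [← h]
        simp
      · intro h
        rw [h]
        simp
    simp only [Finset.mem_symmDiff, Finset.mem_singleton] at h3 ⊢
    rw [h3, h4]

/-- number of vertices of `U` in the part `c` -/
def u (c : ι) (U : Finset α) : ℕ := (U ∩ P.V c).card

/-- discrepancy of `U` in the part `c` -/
def d (c : ι) (U : Finset α) : ℤ := ((P.V c).card : ℤ) - 2 * (P.u c U : ℤ)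

omit [DecidableEq α] [Fintype ι] in
theorem V_card_of_maps {φ : Γ ≃g Γ} {c c' : ι} (h : P.Maps φ c c') :
    (P.V c).card = (P.V c').card := by
  rw [← im_card φ (P.V c)]
  congr 1
  ext v
  rw [mem_im', P.mem_V, P.mem_V, h]
  simp

omit [DecidableEq α] [Fintype ι] in
theorem V_card_of_ty {c c' : ι} (h : P.ty c c') : (P.V c).card = (P.V c').card := by
  obtain ⟨φ, h⟩ := h
  exact P.V_card_of_maps h

omit [Fintype ι] in
theorem u_of_κ {c c' : ι} {U U' : Finset α} (h : P.κ c U = P.κ c' U') : P.u c U = P.u c' U' := by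
  rw [κ_eq] at h
  obtain ⟨φ, h1, h2⟩ := h
  unfold u
  rw [← im_card φ]
  congr 1
  ext v
  rw [mem_im', Finset.mem_inter, Finset.mem_inter, P.mem_V, P.mem_V]
  have h3 : P.cp (φ.symm v) = c ↔ P.cp v = c' := by
    have := h1 (φ.symm v)
    simpa using this
  simp only at h2
  constructor
  · rintro ⟨h4, h5⟩
    have := h2 _ h5
    rw [← this] at h4
    exact ⟨by simpa using h4, h3.1 h5⟩
  · rintro ⟨h4, h5⟩
    have h6 := h3.2 h5
    refine ⟨?_, h6⟩
    rw [← h2 _ h6]
    simpa using h4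

omit [Fintype ι] in
theorem d_of_κ {c c' : ι} {U U' : Finset α} (h : P.κ c U = P.κ c' U') : P.d c U = P.d c' U' := by
  unfold d
  rw [P.u_of_κ h, P.V_card_of_ty (P.κ_ty h)]

omit [Fintype ι] in
theorem u_compl (c : ι) (U : Finset α) : P.u c Uᶜ + P.u c U = (P.V c).card := by
  unfold u
  rw [Finset.inter_comm Uᶜ, ← Finset.sdiff_eq_inter_compl, Finset.inter_comm U,
    Finset.card_sdiff_add_card_inter]

omit [Fintype ι] in
theorem d_compl (c : ι) (U : Finset α) : P.d c Uᶜ = - P.d c U := by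
  have := P.u_compl c U
  unfold d
  omega

omit [Fintype ι] in
theorem u_congr (c : ι) (U U' : Finset α) (h : ∀ v, P.cp v = c → (v ∈ U' ↔ v ∈ U)) :
    P.u c U = P.u c U' := P.u_of_κ (P.κ_congr c U U' h)

omit [Fintype ι] in
theorem d_congr (c : ι) (U U' : Finset α) (h : ∀ v, P.cp v = c → (v ∈ U' ↔ v ∈ U)) :
    P.d c U = P.d c U' := P.d_of_κ (P.κ_congr c U U' h)

omit [Fintype α] [Fintype ι] [DecidableEq ι] in
/-- flipping `v` does not change the other parts -/
theorem flip_other (c : ι) (U : Finset α) (v : α) (hv : P.cp v ≠ c) :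
    ∀ x, P.cp x = c → (x ∈ symmDiff U {v} ↔ x ∈ U) := by
  intro x hx
  have : x ≠ v := by
    rintro rfl
    exact hv hx
  simp [Finset.mem_symmDiff, this]

omit [Fintype ι] in
theorem u_flip_mem (U : Finset α) (v : α) (hv : v ∈ U) :
    P.u (P.cp v) (symmDiff U {v}) + 1 = P.u (P.cp v) U := by
  unfold u
  have h1 : symmDiff U {v} ∩ P.V (P.cp v) = (U ∩ P.V (P.cp v)).erase v := by
    ext x
    simp only [Finset.mem_inter, Finset.mem_symmDiff, Finset.mem_singleton, Finset.mem_erase]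
    by_cases hx : x = v
    · subst hx
      simp [hv]
    · simp [hx]
  rw [h1, Finset.card_erase_add_one]
  rw [Finset.mem_inter, P.mem_V]
  exact ⟨hv, rfl⟩

omit [Fintype ι] in
theorem u_flip_not_mem (U : Finset α) (v : α) (hv : v ∉ U) :
    P.u (P.cp v) (symmDiff U {v}) = P.u (P.cp v) U + 1 := by
  have h1 : v ∈ symmDiff U {v} := by simp [Finset.mem_symmDiff, hv]
  have h2 := P.u_flip_mem (symmDiff U {v}) v h1
  rw [SwitchBasic.sd_cancel] at h2
  exact h2.symm

omit [Fintype ι] in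
theorem d_flip_mem (U : Finset α) (v : α) (hv : v ∈ U) :
    P.d (P.cp v) (symmDiff U {v}) = P.d (P.cp v) U + 2 := by
  have := P.u_flip_mem U v hv
  unfold d
  omega

omit [Fintype ι] in
theorem d_flip_not_mem (U : Finset α) (v : α) (hv : v ∉ U) :
    P.d (P.cp v) (symmDiff U {v}) = P.d (P.cp v) U - 2 := by
  have := P.u_flip_not_mem U v hv
  unfold d
  omega

omit [Fintype ι] in
theorem u_le (c : ι) (U : Finset α) : P.u c U ≤ (P.V c).card :=
  Finset.card_le_card Finset.inter_subset_right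

omit [DecidableEq α] [Fintype ι] in
theorem V_nonempty (c : ι) : 0 < (P.V c).card := by
  obtain ⟨v, hv⟩ := P.surj c
  exact Finset.card_pos.2 ⟨v, (P.mem_V c v).2 hv⟩

open Classical in
/-- number of parts of class `k` -/
noncomputable def N (U : Finset α) (k : P.K) : ℕ := (univ.filter (fun c => P.κ c U = k)).card

omit [Fintype α] [DecidableEq α] [DecidableEq ι] in
theorem N_pos (U : Finset α) (k : P.K) : 0 < P.N U k ↔ ∃ c, P.κ c U = k := by
  classical
  unfold N
  rw [Finset.card_pos]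
  constructor
  · rintro ⟨c, hc⟩
    exact ⟨c, (Finset.mem_filter.1 hc).2⟩
  · rintro ⟨c, hc⟩
    exact ⟨c, Finset.mem_filter.2 ⟨Finset.mem_univ _, hc⟩⟩

omit [Fintype α] [DecidableEq α] [DecidableEq ι] in
theorem N_eq_of_bij {U U' : Finset α} (π : ι → ι) (hπ : Function.Bijective π)
    (h : ∀ c, P.κ (π c) U' = P.κ c U) : P.N U = P.N U' := by
  classical
  funext k
  unfold N
  refine Finset.card_bij (fun c _ => π c) ?_ ?_ ?_
  · intro c hc
    rw [Finset.mem_filter] at hc ⊢
    exact ⟨Finset.mem_univ _, (h c).trans hc.2⟩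
  · intro c _ c' _ hcc
    exact hπ.1 hcc
  · intro c hc
    obtain ⟨c', rfl⟩ := hπ.2 c
    rw [Finset.mem_filter] at hc
    exact ⟨c', Finset.mem_filter.2 ⟨Finset.mem_univ _, (h c').symm.trans hc.2⟩, rfl⟩

omit [Fintype α] [DecidableEq α] [DecidableEq ι] in
theorem N_im (φ : Γ ≃g Γ) (U : Finset α) : P.N (im φ U) = P.N U :=
  (P.N_eq_of_bij (P.bar φ) (P.bar_bij φ) (fun c => P.κ_im φ (P.maps_bar φ c) U)).symm

omit [Fintype α] [DecidableEq α] [DecidableEq ι] in
theorem exists_perm {U U' : Finset α} (h : P.N U = P.N U') :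
    ∃ π : ι ≃ ι, ∀ c, P.κ (π c) U' = P.κ c U := by
  classical
  have hcard : ∀ k : P.K, Fintype.card {c // P.κ c U = k} = Fintype.card {c // P.κ c U' = k} := by
    intro k
    have := congrFun h k
    unfold N at this
    rw [Fintype.card_subtype, Fintype.card_subtype]
    exact this
  let e : ∀ k : P.K, {c // P.κ c U = k} ≃ {c // P.κ c U' = k} :=
    fun k => Fintype.equivOfCardEq (hcard k)
  refine ⟨Equiv.ofFiberEquiv (f := fun c => P.κ c U) (g := fun c => P.κ c U') e, fun c => ?_⟩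
  exact Equiv.ofFiberEquiv_map e c

omit [DecidableEq α] [DecidableEq ι] in
/-- gluing: equal class statistics give an automorphism -/
theorem exists_aut {U U' : Finset α} (h : P.N U = P.N U') : ∃ φ : Γ ≃g Γ, im φ U = U' := by
  classical
  obtain ⟨π, hπ⟩ := P.exists_perm h
  have h1 : ∀ c, ∃ φ : Γ ≃g Γ, P.Maps φ c (π c) ∧
      ∀ v, P.cp v = c → (φ v ∈ U' ↔ v ∈ U) := by
    intro c
    have := (hπ c).symm
    rw [κ_eq] at this
    exact this
  choose φ hφ1 hφ2 using h1
  have hcp : ∀ v, P.cp (φ (P.cp v) v) = π (P.cp v) := fun v => (hφ1 (P.cp v) v).1 rfl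
  have hinj : Function.Injective (fun v => φ (P.cp v) v) := by
    intro a b hab
    simp only at hab
    have h2 : π (P.cp a) = π (P.cp b) := by
      rw [← hcp a, ← hcp b, hab]
    have h3 : P.cp a = P.cp b := π.injective h2
    rw [h3] at hab
    exact (φ (P.cp b)).injective hab
  have hbij : Function.Bijective (fun v => φ (P.cp v) v) :=
    Finite.injective_iff_bijective.1 hinj
  let Φ : Γ ≃g Γ :=
    { toEquiv := Equiv.ofBijective _ hbij
      map_rel_iff' := by
        intro a b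
        simp only [Equiv.ofBijective_apply]
        by_cases hab : P.cp a = P.cp b
        · rw [hab]
          exact (φ (P.cp b)).map_rel_iff'
        · constructor
          · intro h
            exfalso
            have h4 := P.adj _ _ h
            rw [hcp, hcp] at h4
            exact hab (π.injective h4)
          · intro h
            exact absurd (P.adj _ _ h) hab }
  refine ⟨Φ, ?_⟩
  have hΦ : ∀ v, Φ v = φ (P.cp v) v := fun v => rfl
  ext x
  obtain ⟨v, rfl⟩ := Φ.surjective x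
  rw [mem_im, hΦ, hφ2 (P.cp v) v rfl]

end Parts

end Pool.Agent.Lib_helper61.SwComp
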