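import Pool.Agent.Lib_helper61.SwSys

set_option autoImplicit false

namespace Pool.Agent.Lib_helper61.SwLoc

open Finset Pool.Agent.Lib_helper61.SwComp Pool.Agent.Lib_helper61.SwitchBasic
  Pool.Agent.Lib_helper61.SwSys

variable {α ι : Type*} [Fintype α] [DecidableEq α] [Fintype ι] [DecidableEq ι]
  {Γ : SimpleGraph α} {P : Parts Γ ι} {F : Finset α → ℚ}

theorem im_univ (φ : Γ ≃g Γ) (U : Finset α) : im φ U ∩ univ = im φ U := by simp

/-- the square of `card α - 2 |U|` is constant on the support -/
theorem Leq (S : Sys Γ F) (hn : Fintype.card α ≠ 4) (hn0 : Fintype.card α ≠ 0)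
    (U U' : Finset α) (hU : F U ≠ 0) (hU' : F U' ≠ 0) :
    ((Fintype.card α : ℤ) - 2 * U.card) ^ 2 = ((Fintype.card α : ℤ) - 2 * U'.card) ^ 2 := by
  have h := inv_eq S hn0 (qV univ) ((Fintype.card α : ℚ) - 4)
    (by
      intro h0
      apply hn
      have : (Fintype.card α : ℚ) = 4 := by linarith
      exact_mod_cast this)
    (fun U => qV_T univ U)
    (fun φ U => by
      unfold qV
      rw [Finset.inter_univ, Finset.inter_univ, im_card])
    (fun U => by
      unfold qV
      rw [Finset.inter_univ, Finset.inter_univ, Finset.card_compl, Finset.card_univ,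
        Nat.cast_sub (Finset.card_le_univ U)]
      push_cast
      ring)
    U U' hU hU'
  unfold qV at h
  rw [Finset.inter_univ, Finset.inter_univ, Finset.card_univ] at h
  have h2 : ((((Fintype.card α : ℤ) - 2 * U.card : ℤ)) : ℚ) ^ 2
      = ((((Fintype.card α : ℤ) - 2 * U'.card : ℤ)) : ℚ) ^ 2 := by linarith
  exact_mod_cast h2

open Classical in
/-- the sum of squared discrepancies over the parts of one type is constant on the support -/
theorem Qeq (S : Sys Γ F) (hn : Fintype.card α ≠ 4) (hn0 : Fintype.card α ≠ 0)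
    (U U' : Finset α) (hU : F U ≠ 0) (hU' : F U' ≠ 0) (c0 : ι) :
    ∑ c ∈ univ.filter (fun c => P.ty c0 c), P.d c U ^ 2
      = ∑ c ∈ univ.filter (fun c => P.ty c0 c), P.d c U' ^ 2 := by
  have hq : ∀ (c : ι) (U : Finset α), qV (P.V c) U = ((P.d c U : ℤ) : ℚ) ^ 2 - (P.V c).card :=
    fun c U => rfl
  have h := inv_eq S hn0 (fun U => ∑ c ∈ univ.filter (fun c => P.ty c0 c), qV (P.V c) U)
    ((Fintype.card α : ℚ) - 4)
    (by
      intro h0
      apply hn
      have : (Fintype.card α : ℚ) = 4 := by linarith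
      exact_mod_cast this)
    (fun U => by
      rw [Finset.sum_comm, Finset.mul_sum]
      exact Finset.sum_congr rfl (fun c _ => qV_T (P.V c) U))
    (fun φ U => by
      symm
      refine Finset.sum_bij (fun c _ => P.bar φ c) ?_ ?_ ?_ ?_
      · intro c hc
        rw [Finset.mem_filter] at hc ⊢
        exact ⟨Finset.mem_univ _, P.ty_trans hc.2 ⟨φ, P.maps_bar φ c⟩⟩
      · intro c _ c' _ h
        exact (P.bar_bij φ).1 h
      · intro c hc
        obtain ⟨c', rfl⟩ := (P.bar_bij φ).2 c
        rw [Finset.mem_filter] at hc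
        refine ⟨c', ?_, rfl⟩
        rw [Finset.mem_filter]
        exact ⟨Finset.mem_univ _, P.ty_trans hc.2 (P.ty_symm ⟨φ, P.maps_bar φ c'⟩)⟩
      · intro c _
        have h1 := P.κ_im φ (P.maps_bar φ c) U
        have h2 := P.d_of_κ h1
        have h3 := P.V_card_of_maps (P.maps_bar φ c)
        rw [hq, hq, h2, h3])
    (fun U => by
      refine Finset.sum_congr rfl (fun c _ => ?_)
      rw [hq, hq, P.d_compl]
      push_cast
      ring)
    U U' hU hU'
  simp only [hq] at h
  rw [Finset.sum_sub_distrib, Finset.sum_sub_distrib] at h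
  have h2 : ∑ c ∈ univ.filter (fun c => P.ty c0 c), ((P.d c U : ℤ) : ℚ) ^ 2
      = ∑ c ∈ univ.filter (fun c => P.ty c0 c), ((P.d c U' : ℤ) : ℚ) ^ 2 := by linarith
  exact_mod_cast h2

theorem loc (S : Sys Γ F) (hn : Fintype.card α ≠ 4) (hn0 : Fintype.card α ≠ 0)
    (U U' : Finset α) (hU : F U ≠ 0) (hU' : F U' ≠ 0) (c c' : ι) (hcc : c ≠ c')
    (h1 : P.d c U' = P.d c U + 2) (h2 : P.d c' U' = P.d c' U - 2)
    (h3 : ∀ x, x ≠ c → x ≠ c' → P.d x U' = P.d x U) :
    (P.ty c c' → P.d c' U = P.d c U + 2) ∧ (¬ P.ty c c' → P.d c U = -1) := by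
  classical
  have hQ := Qeq (P := P) S hn hn0 U' U hU' hU c
  have hQ2 : ∑ x ∈ univ.filter (fun x => P.ty c x), (P.d x U' ^ 2 - P.d x U ^ 2) = 0 := by
    rw [Finset.sum_sub_distrib, hQ]
    ring
  have hcm : c ∈ univ.filter (fun x => P.ty c x) :=
    Finset.mem_filter.2 ⟨Finset.mem_univ _, P.ty_refl c⟩
  constructor
  · intro ht
    have hcm' : c' ∈ univ.filter (fun x => P.ty c x) :=
      Finset.mem_filter.2 ⟨Finset.mem_univ _, ht⟩
    rw [Finset.sum_eq_add_of_mem c c' hcm hcm' hcc] at hQ2
    · rw [h1, h2] at hQ2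
      nlinarith
    · intro x _ hx
      rw [h3 x hx.1 hx.2]
      ring
  · intro ht
    rw [Finset.sum_eq_single_of_mem c hcm] at hQ2
    · rw [h1] at hQ2
      nlinarith
    · intro x hx hxc
      have hxc' : x ≠ c' := by
        rintro rfl
        exact ht (Finset.mem_filter.1 hx).2
      rw [h3 x hxc hxc']
      ring

theorem card_flip_mem (U : Finset α) (v : α) (hv : v ∈ U) :
    (symmDiff U {v}).card + 1 = U.card := by
  have := inter_flip_mem univ U v (Finset.mem_univ v) hv
  simpa using this

theorem card_flip_not_mem (U : Finset α) (v : α) (hv : v ∉ U) :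
    (symmDiff U {v}).card = U.card + 1 := by
  have := inter_flip_not_mem univ U v (Finset.mem_univ v) hv
  simpa using this

/-- on the support `|U|` is `n/2` or `n/2 ± 1` -/
theorem level (S : Sys Γ F) (hn : Fintype.card α ≠ 4) (hn0 : Fintype.card α ≠ 0)
    (heven : Even (Fintype.card α)) (U : Finset α) (hU : F U ≠ 0) :
    ((Fintype.card α : ℤ) - 2 * U.card) ^ 2 = 0 ∨ ((Fintype.card α : ℤ) - 2 * U.card) ^ 2 = 4 := by
  by_contra hcon
  push Not at hcon
  obtain ⟨hc0, hc4⟩ := hcon
  set k := U.card with hk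
  set n := Fintype.card α with hnn
  let G : Finset α → ℚ := fun W => if W.card = k then F W else 0
  have hother : ∀ W : Finset α, F W ≠ 0 → W.card ≠ k + 2 ∧ W.card + 2 ≠ k := by
    intro W hW
    have h := Leq S hn hn0 W U hW hU
    rw [← hk, ← hnn] at h
    constructor
    · intro h1
      rw [h1] at h
      apply hc4
      push_cast at h
      have h2 : (n : ℤ) - 2 * k = 2 := by nlinarith
      rw [h2]
      norm_num
    · intro h1
      rw [← h1] at h hc4
      apply hc4
      push_cast at h ⊢
      have h2 : (n : ℤ) - 2 * (W.card + 2) = -2 := by nlinarith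
      rw [h2]
      norm_num
  have hG : ∀ W, ∑ i ∈ (univ : Finset α), G (symmDiff W {i}) = ((0 : ℤ) : ℚ) * G W := by
    intro W
    rw [Int.cast_zero, zero_mul]
    by_cases hW : W.card = k + 1 ∨ W.card + 1 = k
    · rw [← S.hT W]
      refine Finset.sum_congr rfl (fun i _ => ?_)
      by_cases hi : (symmDiff W {i}).card = k
      · simp only [G, if_pos hi]
      · simp only [G, if_neg hi]
        by_contra hne
        have h5 := hother _ (fun h => hne h.symm)
        by_cases hiW : i ∈ W
        · have := card_flip_mem W i hiW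
          rcases hW with h | h <;> omega
        · have := card_flip_not_mem W i hiW
          rcases hW with h | h <;> omega
    · push Not at hW
      refine Finset.sum_eq_zero (fun i _ => ?_)
      have hi : (symmDiff W {i}).card ≠ k := by
        by_cases hiW : i ∈ W
        · have := card_flip_mem W i hiW
          omega
        · have := card_flip_not_mem W i hiW
          omega
      simp only [G, if_neg hi]
  obtain ⟨j, hj⟩ := heven
  have h6 := (eigen univ 0 G hG).1 (j : ℤ) (by rw [Finset.card_univ, ← hnn, hj]; push_cast; ring) U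
  have h7 : symmDiff U univ = Uᶜ := by
    ext x
    simp [Finset.mem_symmDiff]
  rw [h7] at h6
  have h8 : G U = F U := by simp only [G, ← hk, if_true]
  have h9 : G Uᶜ = 0 := by
    have : Uᶜ.card ≠ k := by
      rw [Finset.card_compl, ← hk, ← hnn]
      intro h
      have h10 : k ≤ n := by
        rw [hk, hnn]
        exact Finset.card_le_univ U
      apply hc0
      have : (n : ℤ) - 2 * k = 0 := by omega
      rw [this]
      norm_num
    simp only [G, if_neg this]
  rw [h9, h8] at h6
  rcases mul_eq_zero.1 h6.symm with h | h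
  · have h11 : ((Int.negOnePow (j : ℤ) : ℤ)) = 0 := by exact_mod_cast h
    exact (Int.negOnePow (j : ℤ)).ne_zero h11
  · exact hU h

end Pool.Agent.Lib_helper61.SwLoc
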