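import Pool.Agent.Lib_helper61.SwSide

set_option autoImplicit false

namespace Pool.Agent.Lib_helper61.SwMain

open Finset Pool.Agent.Lib_helper61.SwComp Pool.Agent.Lib_helper61.SwitchBasic
  Pool.Agent.Lib_helper61.SwSys Pool.Agent.Lib_helper61.SwLoc Pool.Agent.Lib_helper61.SwEx
  Pool.Agent.Lib_helper61.SwMid Pool.Agent.Lib_helper61.SwMidB Pool.Agent.Lib_helper61.SwSide

section sw

variable {α : Type*} [Fintype α] [DecidableEq α]

theorem sw_compl (Γ : SimpleGraph α) (U : Finset α) : sw Γ Uᶜ = sw Γ U := by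
  ext u v
  simp only [sw_adj, Finset.mem_compl]
  tauto

theorem sw_univ (Γ : SimpleGraph α) : sw Γ univ = Γ := by
  rw [← Finset.compl_empty, sw_compl, sw_empty]

theorem sw_inj (Γ : SimpleGraph α) (A B : Finset α) (h : sw Γ A = sw Γ B) : A = B ∨ A = Bᶜ := by
  have h1 : ∀ u v, u ≠ v → ((u ∈ A ↔ v ∈ A) ↔ (u ∈ B ↔ v ∈ B)) := by
    intro u v huv
    have h2 : (sw Γ A).Adj u v ↔ (sw Γ B).Adj u v := by rw [h]
    rw [sw_adj, sw_adj] at h2
    tauto
  by_cases hAB : A = B
  · exact Or.inl hAB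
  · right
    obtain ⟨x, hx⟩ : ∃ x, ¬ (x ∈ A ↔ x ∈ B) := by
      by_contra hcon
      push Not at hcon
      exact hAB (Finset.ext (fun x => by have := hcon x; tauto))
    ext y
    rw [Finset.mem_compl]
    by_cases hxy : x = y
    · subst hxy
      tauto
    · have := h1 x y hxy
      tauto

theorem ff_iso {G H : SimpleGraph α} {A B : Finset α} (h : Nonempty (sw G A ≃g sw G B)) :
    ff G H A = ff G H B := by
  unfold ff
  rw [ind_congr_left G h, ind_congr_left H h]

theorem iso_of_ff_pos {G H : SimpleGraph α} {A : Finset α} (h : 0 < ff G H A) :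
    Nonempty (sw G A ≃g G) := by
  by_contra hcon
  unfold ff at h
  rw [ind_of_not _ _ hcon] at h
  have h1 : 0 ≤ cnt G G := by
    unfold cnt
    exact Finset.sum_nonneg (fun _ _ => ind_nonneg _ _)
  have h2 := mul_nonneg h1 (ind_nonneg (sw G A) H)
  linarith

theorem iso_of_ff_neg {G H : SimpleGraph α} {A : Finset α} (h : ff G H A < 0) :
    Nonempty (sw G A ≃g H) := by
  by_contra hcon
  unfold ff at h
  rw [ind_of_not _ _ hcon] at h
  have h1 : 0 ≤ cnt G H := by
    unfold cnt
    exact Finset.sum_nonneg (fun _ _ => ind_nonneg _ _)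
  have h2 := mul_nonneg h1 (ind_nonneg (sw G A) G)
  linarith

theorem iso_of_ff_mul_pos {G H : SimpleGraph α} {A B : Finset α} (h : 0 < ff G H A * ff G H B) :
    Nonempty (sw G A ≃g sw G B) := by
  rcases pos_and_pos_or_neg_and_neg_of_mul_pos h with ⟨h1, h2⟩ | ⟨h1, h2⟩
  · obtain ⟨φ⟩ := iso_of_ff_pos h1
    obtain ⟨ψ⟩ := iso_of_ff_pos h2
    exact ⟨φ.trans ψ.symm⟩
  · obtain ⟨φ⟩ := iso_of_ff_neg h1
    obtain ⟨ψ⟩ := iso_of_ff_neg h2
    exact ⟨φ.trans ψ.symm⟩

theorem ff_empty_ne {G H : SimpleGraph α} (hdeck : SameDeck G H) (hne : ¬ Nonempty (G ≃g H)) :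
    ff G H ∅ ≠ 0 := by
  rw [ff_empty hne]
  by_cases h0 : Nonempty α
  · obtain ⟨i⟩ := h0
    obtain ⟨T, hT⟩ := exists_sw hdeck i
    exact (cnt_pos G H T hT).ne'
  · exfalso
    apply hne
    have : IsEmpty α := not_nonempty_iff.1 h0
    exact ⟨⟨Equiv.refl _, fun {a} => isEmptyElim a⟩⟩

/-- the number of vertices of a graph that is not reconstructible is divisible by four -/
theorem four_dvd {G H : SimpleGraph α} (hdeck : SameDeck G H) (hne : ¬ Nonempty (G ≃g H)) :
    4 ∣ Fintype.card α ∧ Fintype.card α ≠ 0 := by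
  have hT : ∀ S, ∑ i ∈ univ, ff G H (symmDiff S {i}) = ((0 : ℤ) : ℚ) * ff G H S := by
    intro S
    rw [sum_ff hdeck S]
    simp
  have hei := eigen univ 0 (ff G H) hT
  have h0 := ff_empty_ne hdeck hne
  constructor
  · rcases Nat.even_or_odd (Fintype.card α) with he | ho
    · obtain ⟨j, hj⟩ := he
      have h1 := hei.1 (j : ℤ) (by rw [Finset.card_univ, hj]; push_cast; ring) ∅
      have h2 : ff G H (symmDiff ∅ univ) = ff G H ∅ := by
        apply ff_iso
        have : symmDiff (∅ : Finset α) univ = univ := by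
          rw [← Finset.bot_eq_empty, bot_symmDiff]
        rw [this, sw_univ, sw_empty]
        exact ⟨SimpleGraph.Iso.refl⟩
      rw [h2] at h1
      rcases Nat.even_or_odd j with hje | hjo
      · obtain ⟨m, hm⟩ := hje
        exact ⟨m, by omega⟩
      · exfalso
        rw [Int.negOnePow_odd _ (by exact_mod_cast hjo)] at h1
        simp at h1
        apply h0
        linarith
    · exfalso
      apply h0
      exact hei.2 (by
        rw [Finset.card_univ, sub_zero]
        exact_mod_cast ho) ∅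
  · intro hc
    apply hne
    have : IsEmpty α := Fintype.card_eq_zero_iff.1 hc
    exact ⟨⟨Equiv.refl _, fun {a} => isEmptyElim a⟩⟩

/-- the signed orbit function of a pair of graphs with the same deck, seen from a member `Γ` of
the switching class fixed by all class automorphisms -/
theorem mkSys {G H Γ : SimpleGraph α} (hdeck : SameDeck G H) (hne : ¬ Nonempty (G ≃g H))
    (S0 : Finset α) (hΓ : sw G S0 = Γ)
    (hA : ∀ σ : Equiv.Perm α, IsClassAut Γ σ → ∀ u v, Γ.Adj (σ u) (σ v) ↔ Γ.Adj u v) :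
    Sys Γ (fun U => ff G H (symmDiff S0 U)) := by
  have hsw : ∀ U, sw G (symmDiff S0 U) = sw Γ U := by
    intro U
    rw [← hΓ, sw_sw]
  refine ⟨?_, ?_, ?_, ?_, ?_⟩
  · intro U
    have := sum_ff hdeck (symmDiff S0 U)
    simp only [symmDiff_assoc] at this
    exact this
  · intro U
    apply ff_iso
    rw [hsw, hsw, sw_compl]
    exact ⟨SimpleGraph.Iso.refl⟩
  · intro φ U
    apply ff_iso
    rw [hsw, hsw]
    exact ⟨(isoSw φ U).symm⟩
  · intro U U' h
    obtain ⟨ψ⟩ := iso_of_ff_mul_pos h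
    rw [hsw, hsw] at ψ
    have h1 := hA _ (classAut_of_iso Γ U U' ψ)
    let φ : Γ ≃g Γ := ⟨ψ.toEquiv, fun {a b} => h1 a b⟩
    refine ⟨φ, ?_⟩
    apply sw_inj Γ
    ext x y
    obtain ⟨u, rfl⟩ := φ.surjective x
    obtain ⟨v, rfl⟩ := φ.surjective y
    have h2 : (sw Γ (im φ U)).Adj (φ u) (φ v) ↔ (sw Γ U).Adj u v := (isoSw φ U).map_rel_iff'
    have h3 : (sw Γ U').Adj (ψ u) (ψ v) ↔ (sw Γ U).Adj u v := ψ.map_rel_iff'
    have h4 : ∀ z, φ z = ψ z := fun z => rfl
    rw [h2, h4, h4, h3]
  · refine ⟨S0, ?_⟩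
    simp only [symmDiff_self]
    exact ff_empty_ne hdeck hne

end sw

section main

variable {α ι : Type*} [Fintype α] [DecidableEq α] [Fintype ι] [DecidableEq ι]

theorem sys_false {Γ : SimpleGraph α} {F : Finset α → ℚ} (S : Sys Γ F) (P : Parts Γ ι)
    (hn4 : Fintype.card α ≠ 4) (hn0 : Fintype.card α ≠ 0) (h4 : 4 ∣ Fintype.card α)
    (h3 : 3 ≤ Fintype.card ι) (hsz : ∀ c, (P.V c).card + 3 ≤ Fintype.card α) : False := by
  obtain ⟨m, hm⟩ := h4
  obtain ⟨U0, hU0⟩ := S.hne
  rcases level S hn4 hn0 ⟨2 * m, by omega⟩ U0 hU0 with h | h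
  · refine mid_false S hn4 hn0 (fun U hU => ?_) P h3
    have h1 := Leq S hn4 hn0 U U0 hU hU0
    rw [h] at h1
    have h2 : (Fintype.card α : ℤ) - 2 * U.card = 0 := by
      exact pow_eq_zero_iff (two_ne_zero) |>.1 h1
    omega
  · refine side_false S (fun U hU => ?_) P ⟨m, hm⟩ (by omega) hsz
    have h1 := Leq S hn4 hn0 U U0 hU hU0
    rw [h] at h1
    have h2 : ((Fintype.card α : ℤ) - 2 * U.card - 2) * ((Fintype.card α : ℤ) - 2 * U.card + 2) = 0 := by
      nlinarith
    rcases mul_eq_zero.1 h2 with h3 | h3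
    · left
      omega
    · right
      omega

theorem main_parts {G H Γ : SimpleGraph α} (P : Parts Γ ι) (hn4 : Fintype.card α ≠ 4)
    (h3 : 3 ≤ Fintype.card ι) (hsz : ∀ c, (P.V c).card + 3 ≤ Fintype.card α)
    (hA : ∀ σ : Equiv.Perm α, IsClassAut Γ σ → ∀ u v, Γ.Adj (σ u) (σ v) ↔ Γ.Adj u v)
    (S0 : Finset α) (hΓ : sw G S0 = Γ) (hdeck : SameDeck G H) : Nonempty (G ≃g H) := by
  by_contra hne
  obtain ⟨h4, hn0⟩ := four_dvd hdeck hne
  exact sys_false (mkSys hdeck hne S0 hΓ hA) P hn4 hn0 h4 h3 hsz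

end main

section comps

variable {α : Type*} [Fintype α] [DecidableEq α]

/-- the connected components as parts -/
def compParts (Γ : SimpleGraph α) : Parts Γ Γ.ConnectedComponent where
  cp := Γ.connectedComponentMk
  surj := Quot.exists_rep
  adj := fun _ _ h => SimpleGraph.ConnectedComponent.sound h.reachable
  aut := fun φ u v => by
    rw [SimpleGraph.ConnectedComponent.eq, SimpleGraph.ConnectedComponent.eq]
    exact φ.reachable_iff

theorem sw_isoCompl {G : SimpleGraph α} (S : Finset α) : (sw G S)ᶜ = sw Gᶜ S := by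
  ext u v
  simp only [SimpleGraph.compl_adj, sw_adj]
  tauto

theorem sameDeck_compl {G H : SimpleGraph α} (h : SameDeck G H) : SameDeck Gᶜ Hᶜ := by
  obtain ⟨σ, hσ⟩ := h
  refine ⟨σ, fun i => ?_⟩
  obtain ⟨φ⟩ := hσ i
  rw [← sw_isoCompl, ← sw_isoCompl]
  refine ⟨⟨φ.toEquiv, fun {a b} => ?_⟩⟩
  have h1 : (sw H {σ i}).Adj (φ.toEquiv a) (φ.toEquiv b) ↔ (sw G {i}).Adj a b := φ.map_rel_iff'
  rw [SimpleGraph.compl_adj, SimpleGraph.compl_adj, h1]
  constructor
  · rintro ⟨h2, h3⟩
    exact ⟨fun h => h2 (by rw [h]), h3⟩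
  · rintro ⟨h2, h3⟩
    exact ⟨fun h => h2 (φ.toEquiv.injective h), h3⟩

theorem iso_compl {G H : SimpleGraph α} (h : Nonempty (Gᶜ ≃g Hᶜ)) : Nonempty (G ≃g H) := by
  obtain ⟨φ⟩ := h
  refine ⟨⟨φ.toEquiv, fun {a b} => ?_⟩⟩
  have h1 : Hᶜ.Adj (φ.toEquiv a) (φ.toEquiv b) ↔ Gᶜ.Adj a b := φ.map_rel_iff'
  rw [SimpleGraph.compl_adj, SimpleGraph.compl_adj] at h1
  by_cases hab : a = b
  · subst hab
    simp
  · have h2 : φ.toEquiv a ≠ φ.toEquiv b := fun h => hab (φ.toEquiv.injective h)
    tauto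

/-- if the components are small then every class automorphism is an automorphism -/
theorem small_aut (Γ : SimpleGraph α) (h3 : 3 ≤ Nat.card Γ.ConnectedComponent)
    (hs : ∀ c : Γ.ConnectedComponent, 2 * c.supp.ncard ≤ Fintype.card α)
    (σ : Equiv.Perm α) (hσ : IsClassAut Γ σ) (u v : α) : Γ.Adj (σ u) (σ v) ↔ Γ.Adj u v := by
  classical
  obtain ⟨S, hS⟩ := hσ
  by_cases hS0 : S = ∅
  · subst hS0
    rw [sw_empty] at hS
    exact hS u v
  by_cases hS1 : S = univ
  · subst hS1
    rw [sw_univ] at hS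
    exact hS u v
  exfalso
  set Δ := sw Γ S with hΔ
  let ψ : Γ ≃g Δ := ⟨σ, fun {a b} => hS a b⟩
  -- all reachability sets of `Δ` are small
  have hreach : ∀ x : α, 2 * (univ.filter (fun w => Δ.Reachable x w)).card ≤ Fintype.card α := by
    intro x
    have h1 := hs (Γ.connectedComponentMk (ψ.symm x))
    have h2 : (Γ.connectedComponentMk (ψ.symm x)).supp.ncard
        = (univ.filter (fun w => Δ.Reachable x w)).card := by
      rw [← Set.ncard_coe_finset]
      have h3 : ((univ.filter (fun w => Δ.Reachable x w) : Finset α) : Set α)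
          = ψ '' (Γ.connectedComponentMk (ψ.symm x)).supp := by
        ext w
        simp only [Finset.coe_filter, Finset.mem_univ, true_and, Set.mem_setOf_eq, Set.mem_image,
          SimpleGraph.ConnectedComponent.mem_supp_iff, SimpleGraph.ConnectedComponent.eq]
        constructor
        · intro h
          refine ⟨ψ.symm w, ?_, by simp⟩
          rw [← ψ.reachable_iff]
          simpa using h.symm
        · rintro ⟨y, hy, rfl⟩
          rw [← ψ.reachable_iff] at hy
          simpa using hy.symm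
      rw [h3, Set.ncard_image_of_injective _ ψ.injective]
    rw [← h2]
    exact h1
  have hcard : ∀ c : Γ.ConnectedComponent, c.supp.ncard
      = (univ.filter (fun w => Γ.connectedComponentMk w = c)).card := by
    intro c
    rw [← Set.ncard_coe_finset]
    congr 1
    ext w
    simp
  have hnadj : ∀ a b, Γ.connectedComponentMk a ≠ Γ.connectedComponentMk b → ¬ Γ.Adj a b :=
    fun a b h h' => h (SimpleGraph.ConnectedComponent.sound h'.reachable)
  have hΔadj : ∀ a b, Γ.connectedComponentMk a ≠ Γ.connectedComponentMk b → a ∈ S → b ∉ S →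
      Δ.Adj a b := by
    intro a b hab ha hb
    rw [hΔ, sw_adj]
    refine ⟨fun h => hab (by rw [h]), ?_⟩
    have := hnadj a b hab
    tauto
  obtain ⟨s0, hs0⟩ := Finset.nonempty_iff_ne_empty.2 hS0
  obtain ⟨t0, ht0⟩ : ∃ t, t ∉ S := by
    by_contra hcon
    push Not at hcon
    exact hS1 (Finset.eq_univ_iff_forall.2 hcon)
  -- one side inside one component
  have hone : ∀ (x : α) (c : Γ.ConnectedComponent),
      (∀ w, Γ.connectedComponentMk w ≠ c → Δ.Adj x w) → Γ.connectedComponentMk x = c → False := by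
    intro x c h hx
    have h1 := hreach x
    have h2 := hs c
    rw [hcard] at h2
    have h3 : insert x (univ.filter (fun w => ¬ Γ.connectedComponentMk w = c)) ⊆
        univ.filter (fun w => Δ.Reachable x w) := by
      intro w hw
      rw [Finset.mem_insert, Finset.mem_filter] at hw
      rw [Finset.mem_filter]
      refine ⟨Finset.mem_univ _, ?_⟩
      rcases hw with h4 | h4
      · rw [h4]
      · exact (h w h4.2).reachable
    have h5 := Finset.card_le_card h3
    rw [Finset.card_insert_of_notMem (by simp [hx])] at h5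
    have h6 : (univ.filter (fun w => Γ.connectedComponentMk w = c)).card
        + (univ.filter (fun w => ¬ Γ.connectedComponentMk w = c)).card = Fintype.card α := by
      rw [Finset.card_filter_add_card_filter_not, Finset.card_univ]
    omega
  by_cases hc1 : ∃ c, ∀ s ∈ S, Γ.connectedComponentMk s = c
  · obtain ⟨c, hc⟩ := hc1
    refine hone s0 c (fun w hw => ?_) (hc s0 hs0)
    have hwS : w ∉ S := fun h => hw (hc w h)
    exact hΔadj s0 w (by rw [hc s0 hs0]; exact fun h => hw h.symm) hs0 hwS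
  by_cases hc2 : ∃ c, ∀ t, t ∉ S → Γ.connectedComponentMk t = c
  · obtain ⟨c, hc⟩ := hc2
    refine hone t0 c (fun w hw => ?_) (hc t0 ht0)
    have hwS : w ∈ S := by
      by_contra h
      exact hw (hc w h)
    exact (hΔadj w t0 (by rw [hc t0 ht0]; exact hw) hwS ht0).symm
  push Not at hc1 hc2
  have hthree : ∀ a b : Γ.ConnectedComponent, ∃ z : α, Γ.connectedComponentMk z ≠ a ∧
      Γ.connectedComponentMk z ≠ b := by
    intro a b
    by_contra hcon
    push Not at hcon
    have : ∀ c : Γ.ConnectedComponent, c = a ∨ c = b := by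
      intro c
      obtain ⟨z, rfl⟩ := Quot.exists_rep c
      by_cases h : Γ.connectedComponentMk z = a
      · exact Or.inl h
      · exact Or.inr (hcon z h)
    have hsub : (Set.univ : Set Γ.ConnectedComponent) ⊆ {a, b} := by
      intro c _
      rcases this c with h | h
      · simp [h]
      · simp [h]
    have h5 := Set.ncard_le_ncard hsub (Set.toFinite _)
    rw [Set.ncard_univ] at h5
    have h6 := Set.ncard_insert_le a {b}
    rw [Set.ncard_singleton] at h6
    omega
  have hcross : ∀ x y, x ∈ S → y ∉ S → Δ.Reachable x y := by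
    intro x y hx hy
    by_cases hxy : Γ.connectedComponentMk x = Γ.connectedComponentMk y
    · obtain ⟨y', hy', hy'c⟩ := hc2 (Γ.connectedComponentMk x)
      obtain ⟨x', hx', hx'c⟩ := hc1 (Γ.connectedComponentMk y)
      by_cases hk : Γ.connectedComponentMk y' = Γ.connectedComponentMk x'
      · obtain ⟨z, hz1, hz2⟩ := hthree (Γ.connectedComponentMk x) (Γ.connectedComponentMk x')
        by_cases hzS : z ∈ S
        · exact ((hΔadj x y' hy'c.symm hx hy').reachable.trans
            (hΔadj z y' (by rw [hk]; exact hz2) hzS hy').symm.reachable).trans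
            (hΔadj z y (by rw [← hxy]; exact hz1) hzS hy).reachable
        · exact ((hΔadj x z hz1.symm hx hzS).reachable.trans
            (hΔadj x' z hz2.symm hx' hzS).symm.reachable).trans
            (hΔadj x' y hx'c hx' hy).reachable
      · exact ((hΔadj x y' hy'c.symm hx hy').reachable.trans
            (hΔadj x' y' (fun h => hk h.symm) hx' hy').symm.reachable).trans
            (hΔadj x' y hx'c hx' hy).reachable
    · exact (hΔadj x y hxy hx hy).reachable
  have hall : ∀ w, Δ.Reachable s0 w := by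
    intro w
    by_cases hw : w ∈ S
    · exact (hcross s0 t0 hs0 ht0).trans (hcross w t0 hw ht0).symm
    · exact hcross s0 w hs0 hw
  have h7 := hreach s0
  have h8 : univ.filter (fun w => Δ.Reachable s0 w) = univ := by
    ext w
    simp [hall w]
  rw [h8, Finset.card_univ] at h7
  have h9 : 0 < Fintype.card α := Fintype.card_pos_iff.2 ⟨s0⟩
  omega

theorem main_comps {G H Γ : SimpleGraph α} (hn4 : Fintype.card α ≠ 4)
    (h3 : 3 ≤ Nat.card Γ.ConnectedComponent)
    (hsz : ∀ c : Γ.ConnectedComponent, c.supp.ncard + 3 ≤ Fintype.card α)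
    (hA : ∀ σ : Equiv.Perm α, IsClassAut Γ σ → ∀ u v, Γ.Adj (σ u) (σ v) ↔ Γ.Adj u v)
    (S0 : Finset α) (hΓ : sw G S0 = Γ) (hdeck : SameDeck G H) : Nonempty (G ≃g H) := by
  classical
  haveI : Fintype Γ.ConnectedComponent := Fintype.ofFinite _
  refine main_parts (compParts Γ) hn4 ?_ ?_ hA S0 hΓ hdeck
  · rw [← Nat.card_eq_fintype_card]
    exact h3
  · intro c
    have h1 : ((compParts Γ).V c).card = c.supp.ncard := by
      rw [← Set.ncard_coe_finset]
      congr 1
      ext w
      simp [Parts.mem_V, compParts]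
    rw [h1]
    exact hsz c

end comps

end Pool.Agent.Lib_helper61.SwMain
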