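import Pool.Agent.Lib_helper61.SwEx

set_option autoImplicit false

namespace Pool.Agent.Lib_helper61.SwMid

open Finset Pool.Agent.Lib_helper61.SwComp Pool.Agent.Lib_helper61.SwitchBasic
  Pool.Agent.Lib_helper61.SwSys Pool.Agent.Lib_helper61.SwLoc Pool.Agent.Lib_helper61.SwEx

variable {α ι : Type*} [Fintype α] [DecidableEq α] [Fintype ι] [DecidableEq ι]
  {Γ : SimpleGraph α} {P : Parts Γ ι} {F : Finset α → ℚ}

theorem ne_of_opp {U U' : Finset α} (h : F U * F U' < 0) : F U ≠ 0 ∧ F U' ≠ 0 := by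
  constructor
  · intro h0
    rw [h0] at h
    simp at h
  · intro h0
    rw [h0] at h
    simp at h

theorem same_of_opp {U U1 U2 : Finset α} (h1 : F U * F U1 < 0) (h2 : F U * F U2 < 0) :
    0 < F U1 * F U2 := by
  have hU := (ne_of_opp h1).1
  have h3 : 0 < (F U * F U1) * (F U * F U2) := mul_pos_of_neg_of_neg h1 h2
  have h4 : (F U * F U1) * (F U * F U2) = (F U * F U) * (F U1 * F U2) := by ring
  rw [h4] at h3
  exact (pos_iff_pos_of_mul_pos h3).1 (mul_self_pos.2 hU)

theorem N_pos' {U : Finset α} {k : P.K} {c : ι} (h : P.κ c U = k) : 0 < P.N U k :=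
  (P.N_pos U k).2 ⟨c, h⟩

theorem agr_card {c : ι} {U U' : Finset α} (h : Agr P c U U') :
    U'.card + P.u c U = U.card + P.u c U' := by
  have h1 : ∀ W : Finset α, W.card = P.u c W + (W \ P.V c).card := by
    intro W
    unfold Parts.u
    have := Finset.card_sdiff_add_card_inter W (P.V c)
    omega
  have h2 : U \ P.V c = U' \ P.V c := by
    ext x
    rw [Finset.mem_sdiff, Finset.mem_sdiff, P.mem_V]
    constructor
    · rintro ⟨h3, h4⟩
      exact ⟨(h x h4).2 h3, h4⟩
    · rintro ⟨h3, h4⟩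
      exact ⟨(h x h4).1 h3, h4⟩
  rw [h1 U, h1 U', h2]
  omega

theorem N_ne_κ (S : Sys Γ F) {c : ι} {U U' : Finset α} (ho : F U * F U' < 0)
    (h : Agr P c U U') : P.κ c U' ≠ P.κ c U := fun h1 => N_ne S ho (h.N_eq h1).symm

theorem N_compl_eq (S : Sys Γ F) {U U1 U2 : Finset α} (h1 : F U * F U1 < 0)
    (h2 : F U * F U2 < 0) (hN : P.N U1 ≠ P.N U2) : P.N U2 = P.N U1ᶜ := by
  rcases N_same (P := P) S (same_of_opp h1 h2) with h | h
  · exact absurd h.symm hN
  · exact h

theorem lemY (S : Sys Γ F) {c1 c2 c3 : ι} {U U1 U2 : Finset α} (hne : P.κ c1 U ≠ P.κ c2 U)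
    (ho1 : F U * F U1 < 0) (ho2 : F U * F U2 < 0) (ha1 : Agr P c1 U U1) (ha2 : Agr P c2 U U2)
    (h31 : c3 ≠ c1) (h32 : c3 ≠ c2)
    (hh : P.κ c1 U1ᶜ = P.κ c3 U → ∃ c', P.κ c' Uᶜ = P.κ c3 U) : False := by
  have hN := N_compl_eq S ho1 ho2 (lemX hne ha1 (N_ne_κ S ho1 ha1) ha2)
  have p1 : 0 < P.N U (P.κ c3 U) := N_pos' rfl
  have p2 : 0 < P.N U1 (P.κ c3 U) := N_pos' (ha1.κ c3 h31)
  have p3 : 0 < P.N U1ᶜ (P.κ c3 U) := by
    rw [← hN]
    exact N_pos' (ha2.κ c3 h32)
  have p4 : 0 < P.N Uᶜ (P.κ c3 U) := by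
    obtain ⟨c', hc'⟩ := (P.N_pos _ _).1 p3
    by_cases hc : c' = c1
    · rw [hc] at hc'
      exact (P.N_pos _ _).2 (hh hc')
    · rw [(ha1.compl).κ c' hc] at hc'
      exact N_pos' hc'
  obtain ⟨W, hW, hW0⟩ := lemG S (P.κ c3 U)
  rcases four (P := P) S ho1 W hW with h | h | h | h <;> rw [h] at hW0 <;> omega

section mid

variable (S : Sys Γ F) (hn4 : Fintype.card α ≠ 4) (hn0 : Fintype.card α ≠ 0)
  (hmid : ∀ U, F U ≠ 0 → 2 * U.card = Fintype.card α)

include S hmid

theorem mv_out (U : Finset α) (hU : F U ≠ 0) (v : α) (hv : v ∈ U) :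
    ∃ w, w ∉ U ∧ F U * F (fl U v w) < 0 := by
  obtain ⟨w, hw⟩ := opp S.hT U hU v
  refine ⟨w, ?_, hw⟩
  have hw' : F U * F (fl U v w) < 0 := hw
  intro hwU
  by_cases hwv : w = v
  · rw [hwv] at hw'
    unfold fl at hw'
    rw [sd_cancel] at hw'
    nlinarith [mul_self_nonneg (F U)]
  · have h1 := card_flip_mem U v hv
    have h2 : w ∈ symmDiff U {v} := by
      simp [Finset.mem_symmDiff, hwU, hwv]
    have h3 := card_flip_mem (symmDiff U {v}) w h2
    have h4 := hmid _ (ne_of_opp hw').1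
    have h5 := hmid _ (ne_of_opp hw').2
    unfold fl at h5
    omega

theorem agr_u {c : ι} {U U' : Finset α} (hU : F U ≠ 0) (hU' : F U' ≠ 0) (h : Agr P c U U') :
    P.d c U' = P.d c U := by
  have h1 := agr_card h
  have h2 := hmid U hU
  have h3 := hmid U' hU'
  unfold Parts.d
  omega

omit S hmid in
theorem full_iff (c : ι) (U : Finset α) : P.d c U = - (P.V c).card ↔ P.V c ⊆ U := by
  unfold Parts.d Parts.u
  constructor
  · intro h
    have h1 : (U ∩ P.V c).card = (P.V c).card := by omega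
    have h2 := Finset.eq_of_subset_of_card_le (Finset.inter_subset_right) h1.ge
    rw [← h2]
    exact Finset.inter_subset_left
  · intro h
    rw [Finset.inter_eq_right.2 h]
    ring

omit S hmid in
theorem full_κ {c c' : ι} (hc : P.ty c c') {U U' : Finset α} (h : P.V c ⊆ U) (h' : P.V c' ⊆ U') :
    P.κ c U = P.κ c' U' := by
  obtain ⟨φ, hφ⟩ := hc
  rw [P.κ_eq]
  refine ⟨φ, hφ, fun v hv => ?_⟩
  have h1 : v ∈ U := h ((P.mem_V c v).2 hv)
  have h2 : φ v ∈ U' := h' ((P.mem_V c' _).2 ((hφ v).1 hv))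
  simp only at h1 h2 ⊢
  tauto

include hn4 hn0

theorem no_full (U : Finset α) (hU : F U ≠ 0) (c : ι) (hc : 2 ≤ (P.V c).card) :
    ¬ P.V c ⊆ U := by
  intro hfull
  have hsub : ∀ (c' : ι) (W : Finset α), P.κ c' W = P.κ c U → P.V c' ⊆ W := by
    intro c' W h
    rw [← full_iff, P.d_of_κ h, P.V_card_of_ty (P.κ_ty h), full_iff]
    exact hfull
  refine lemH (P := P) True (fun W => F W ≠ 0 ∧ ∃ c', P.κ c' W = P.κ c U) (P.κ c U)
    ⟨U, hU, c, rfl⟩ ?_ ?_
  · rintro W ⟨hW, c', hc'⟩
    obtain ⟨v, rfl⟩ := P.surj c'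
    exact ⟨v, hc', fun _ => hsub _ W hc' ((P.mem_V _ _).2 rfl)⟩
  · rintro W ⟨hW, -⟩ v hv hvW
    replace hvW := hvW trivial
    obtain ⟨w, hw1, hw2⟩ := mv_out S hmid W hW v hvW
    have hVv : P.V (P.cp v) ⊆ W := hsub _ W hv
    have hwv : w ≠ v := by
      rintro rfl
      exact hw1 hvW
    have hcc : P.cp v ≠ P.cp w := by
      intro h
      exact hw1 (hVv ((P.mem_V _ _).2 h.symm))
    have hcard : (P.V (P.cp v)).card = (P.V c).card := P.V_card_of_ty (P.κ_ty hv)
    have hw3 : w ∉ symmDiff W {v} := by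
      simp [Finset.mem_symmDiff, hw1, hwv]
    have d1 : P.d (P.cp v) (fl W v w) = P.d (P.cp v) W + 2 := by
      have h1 := P.d_of_κ (κ_flip_other (P := P) (P.cp v) (symmDiff W {v}) w hcc.symm)
      have h2 := P.d_flip_mem W v hvW
      unfold fl
      omega
    have d2 : P.d (P.cp w) (fl W v w) = P.d (P.cp w) W - 2 := by
      have h1 := P.d_of_κ (κ_flip_other (P := P) (P.cp w) W v hcc)
      have h2 := P.d_flip_not_mem (symmDiff W {v}) w hw3
      unfold fl
      omega
    have hl := loc (P := P) S hn4 hn0 W (fl W v w) hW (ne_of_opp hw2).2 _ _ hcc d1 d2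
      (fun x hx hx' => P.d_of_κ (κ_fl_other x W v w hx.symm hx'.symm))
    have d3 : P.d (P.cp v) W = - (P.V (P.cp v)).card := (full_iff _ _).2 hVv
    have hty : P.ty (P.cp v) (P.cp w) := by
      by_contra hnt
      have := hl.2 hnt
      omega
    have hf : P.V (P.cp w) ⊆ fl W v w := by
      rw [← full_iff, d2, hl.1 hty, d3, P.V_card_of_ty hty]
      ring
    have hk : P.κ (P.cp w) (fl W v w) = P.κ c U := by
      rw [← hv]
      exact (full_κ hty hVv hf).symm
    refine ⟨w, ⟨(ne_of_opp hw2).2, _, hk⟩, fun _ => ?_, hk, fun h => N_ne S hw2 h.symm⟩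
    exact hf ((P.mem_V _ _).2 rfl)

theorem d_lt (U : Finset α) (hU : F U ≠ 0) (c : ι) (hc : 2 ≤ (P.V c).card) :
    |P.d c U| < (P.V c).card := by
  have h1 := no_full S hn4 hn0 hmid U hU c hc
  have h2 := no_full S hn4 hn0 hmid Uᶜ (by rw [S.hc]; exact hU) c hc
  rw [← full_iff] at h1 h2
  rw [P.d_compl] at h2
  have h3 := P.u_le c U
  rw [abs_lt]
  unfold Parts.d at *
  omega

theorem exW_neg (c0 : ι) (M : ℤ) (hM : ∀ U, F U ≠ 0 → ∀ c, P.ty c0 c → |P.d c U| ≤ M)
    (hM2 : 2 ≤ M) (U : Finset α) (hU : F U ≠ 0) (c : ι) (hc : P.ty c0 c) (hd : P.d c U = - M) :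
    ∃ c', P.ty c0 c' ∧ |P.d c' U| = M - 2 := by
  classical
  by_contra hcon
  push Not at hcon
  let G : Finset α → ℚ := fun W => if Agr P c U W then F W else 0
  have hflip : ∀ (W : Finset α) (i : α), P.cp i = c → (Agr P c U (symmDiff W {i}) ↔ Agr P c U W) := by
    intro W i hi
    have h1 : ∀ x, P.cp x ≠ c → (x ∈ symmDiff W {i} ↔ x ∈ W) := by
      intro x hx
      have : x ≠ i := by
        rintro rfl
        exact hx hi
      simp [Finset.mem_symmDiff, this]
    unfold Agr
    constructor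
    · intro h x hx
      rw [← h1 x hx]
      exact h x hx
    · intro h x hx
      rw [h1 x hx]
      exact h x hx
  have hG : ∀ W, ∑ i ∈ P.V c, G (symmDiff W {i}) = ((0 : ℤ) : ℚ) * G W := by
    intro W
    rw [Int.cast_zero, zero_mul]
    by_cases hW : Agr P c U W
    · by_cases hz : ∀ i ∈ P.V c, F (symmDiff W {i}) = 0
      · refine Finset.sum_eq_zero (fun i hi => ?_)
        simp only [G, hz i hi, ite_self]
      · push Not at hz
        obtain ⟨i0, hi0, hFi0⟩ := hz
        have hi0c : P.cp i0 = c := (P.mem_V _ _).1 hi0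
        have ha0 : Agr P c U (symmDiff W {i0}) := (hflip W i0 hi0c).2 hW
        have hd0 := agr_u (P := P) S hmid hU hFi0 ha0
        have hm0 := hmid _ hFi0
        have hout : ∀ j, j ∉ P.V c → F (symmDiff W {j}) = 0 := by
          intro j hj
          by_contra hFj
          have hjc : P.cp j ≠ c := fun h => hj ((P.mem_V _ _).2 h)
          have hmj := hmid _ hFj
          have hdj : P.d c (symmDiff W {j}) = P.d c W := P.d_of_κ (κ_flip_other c W j hjc)
          have hMj := hM _ hFj c hc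
          rw [hdj] at hMj
          have hMj' := (abs_le.1 hMj).1
          -- `i0` is not in `W`
          have hi0W : i0 ∉ W := by
            intro h
            have := P.d_flip_mem W i0 h
            rw [hi0c] at this
            omega
          have e1 := P.d_flip_not_mem W i0 hi0W
          rw [hi0c] at e1
          have e2 := card_flip_not_mem W i0 hi0W
          have hjW : j ∉ W := by
            intro h
            have := card_flip_mem W j h
            omega
          have e3 := P.d_flip_not_mem W j hjW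
          have hother : ∀ x, x ≠ c → P.d x W = P.d x U := fun x hx => P.d_of_κ (hW.κ x hx)
          have hl := loc (P := P) S hn4 hn0 U (symmDiff W {j}) hU hFj c (P.cp j) hjc.symm
            (by rw [hdj]; omega) (by rw [e3, hother _ hjc])
            (fun x hx hx' => by
              rw [P.d_of_κ (κ_flip_other x W j (fun h => hx' h.symm)), hother x hx])
          by_cases ht : P.ty c (P.cp j)
          · have h1 := hl.1 ht
            apply hcon (P.cp j) (P.ty_trans hc ht)
            rw [h1, hd]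
            rw [abs_of_nonpos (by omega)]
            ring
          · have h1 := hl.2 ht
            omega
        have hs := S.hT W
        rw [← Finset.sum_subset (Finset.subset_univ (P.V c)) (fun x _ hx => hout x hx)] at hs
        rw [← hs]
        refine Finset.sum_congr rfl (fun i hi => ?_)
        have : Agr P c U (symmDiff W {i}) := (hflip W i ((P.mem_V _ _).1 hi)).2 hW
        simp only [G, if_pos this]
    · refine Finset.sum_eq_zero (fun i hi => ?_)
      have : ¬ Agr P c U (symmDiff W {i}) := fun h => hW ((hflip W i ((P.mem_V _ _).1 hi)).1 h)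
      simp only [G, if_neg this]
  have hGU : G U = F U := by
    have : Agr P c U U := fun x _ => Iff.rfl
    simp only [G, if_pos this]
  have hei := eigen (P.V c) 0 G hG
  rcases Nat.even_or_odd (P.V c).card with he | ho
  · obtain ⟨j, hj⟩ := he
    have h6 := hei.1 (j : ℤ) (by rw [hj]; push_cast; ring) U
    have ha : Agr P c U (symmDiff U (P.V c)) := by
      intro x hx
      have : x ∉ P.V c := fun h => hx ((P.mem_V _ _).1 h)
      simp [Finset.mem_symmDiff, this]
    have h7 : G (symmDiff U (P.V c)) = F (symmDiff U (P.V c)) := by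
      simp only [G, if_pos ha]
    rw [h7, hGU] at h6
    have h8 : F (symmDiff U (P.V c)) ≠ 0 := by
      rw [h6]
      refine mul_ne_zero ?_ hU
      exact_mod_cast (Int.negOnePow (j : ℤ)).ne_zero
    have h9 := agr_u (P := P) S hmid hU h8 ha
    have h10 : P.d c (symmDiff U (P.V c)) = - P.d c U := by
      rw [← P.d_compl]
      refine (P.d_congr c _ _ (fun v hv => ?_)).symm
      have : v ∈ P.V c := (P.mem_V _ _).2 hv
      simp [Finset.mem_symmDiff, this]
    omega
  · have h6 := hei.2 (by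
      rw [sub_zero]
      exact_mod_cast ho) U
    rw [hGU] at h6
    exact hU h6

theorem exW (c0 : ι) (M : ℤ) (hM : ∀ U, F U ≠ 0 → ∀ c, P.ty c0 c → |P.d c U| ≤ M)
    (hM2 : 2 ≤ M) (U : Finset α) (hU : F U ≠ 0) (c : ι) (hc : P.ty c0 c) (hd : |P.d c U| = M) :
    ∃ c', P.ty c0 c' ∧ |P.d c' U| = M - 2 := by
  rcases abs_eq (by omega) |>.1 hd with h | h
  · obtain ⟨c', h1, h2⟩ := exW_neg S hn4 hn0 hmid c0 M hM hM2 Uᶜ (by rw [S.hc]; exact hU) c hc
      (by rw [P.d_compl, h])
    refine ⟨c', h1, ?_⟩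
    rw [P.d_compl, abs_neg] at h2
    exact h2
  · exact exW_neg S hn4 hn0 hmid c0 M hM hM2 U hU c hc h

end mid

end Pool.Agent.Lib_helper61.SwMid
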