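import Pool.Agent.Lib_helper61.SwMidB

set_option autoImplicit false

namespace Pool.Agent.Lib_helper61.SwSide

open Finset Pool.Agent.Lib_helper61.SwComp Pool.Agent.Lib_helper61.SwitchBasic
  Pool.Agent.Lib_helper61.SwSys Pool.Agent.Lib_helper61.SwLoc Pool.Agent.Lib_helper61.SwEx
  Pool.Agent.Lib_helper61.SwMid Pool.Agent.Lib_helper61.SwMidB

section lower

variable {α : Type*} [DecidableEq α]

/-- a function on the `k`-subsets of `V` killed by the lowering operator vanishes if `|V| < 2k` -/
theorem lower (V : Finset α) (k : ℕ) (g : Finset α → ℚ)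
    (ha : ∀ Y, g Y ≠ 0 → Y ⊆ V ∧ Y.card = k)
    (hb : ∀ Z, Z ⊆ V → Z.card + 1 = k → ∑ i ∈ V \ Z, g (insert i Z) = 0) (hV : V.card < 2 * k)
    (X0 : Finset α) : g X0 = 0 := by
  classical
  by_contra hX0
  let E : Finset α → ℚ := fun X => ∑ Y ∈ X.powerset, g Y
  let a : Finset α → α → ℚ := fun X i => ∑ Y ∈ (X.erase i).powerset, g (insert i Y)
  have hins : ∀ (X : Finset α) (i : α), i ∉ X → E (insert i X) = E X + a X i := by
    intro X i hi
    simp only [E, a]
    rw [Finset.sum_powerset_insert hi, Finset.erase_eq_of_notMem hi]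
  have hflip : ∀ (X : Finset α) (i : α), E (symmDiff X {i}) = E X + (if i ∈ X then - a X i else a X i) := by
    intro X i
    by_cases hi : i ∈ X
    · rw [if_pos hi]
      have h1 : symmDiff X {i} = X.erase i := by
        ext x
        simp only [Finset.mem_symmDiff, Finset.mem_singleton, Finset.mem_erase]
        by_cases hx : x = i
        · subst hx; simp [hi]
        · simp [hx]
      have h2 := hins (X.erase i) i (Finset.notMem_erase i X)
      rw [Finset.insert_erase hi] at h2
      have h3 : a (X.erase i) i = a X i := by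
        simp only [a, Finset.erase_idem]
      rw [h1, h2, h3]
      ring
    · rw [if_neg hi]
      have h1 : symmDiff X {i} = insert i X := by
        ext x
        simp only [Finset.mem_symmDiff, Finset.mem_singleton, Finset.mem_insert]
        by_cases hx : x = i
        · subst hx; simp [hi]
        · simp [hx]
      rw [h1]
      exact hins X i hi
  have hin : ∀ X : Finset α, ∑ i ∈ V ∩ X, a X i = (k : ℚ) * E X := by
    intro X
    have h1 : ∀ i ∈ V ∩ X, a X i = ∑ Y ∈ X.powerset, if i ∈ Y then g Y else 0 := by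
      intro i hi
      have hiX : i ∈ X := (Finset.mem_inter.1 hi).2
      have h2 : X = insert i (X.erase i) := (Finset.insert_erase hiX).symm
      conv_rhs => rw [h2]
      rw [Finset.sum_powerset_insert (Finset.notMem_erase i X)]
      have h3 : ∑ Y ∈ (X.erase i).powerset, (if i ∈ Y then g Y else 0) = 0 := by
        refine Finset.sum_eq_zero (fun Y hY => ?_)
        rw [if_neg]
        intro h
        exact Finset.notMem_erase i X (Finset.mem_powerset.1 hY h)
      rw [h3, zero_add]
      simp only [a]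
      refine Finset.sum_congr rfl (fun Y _ => ?_)
      rw [if_pos (Finset.mem_insert_self i Y)]
    rw [Finset.sum_congr rfl h1, Finset.sum_comm, Finset.mul_sum]
    refine Finset.sum_congr rfl (fun Y hY => ?_)
    by_cases hg : g Y = 0
    · simp [hg]
    · obtain ⟨h4, h5⟩ := ha Y hg
      rw [← Finset.sum_filter]
      have h6 : (V ∩ X).filter (fun i => i ∈ Y) = Y := by
        ext x
        simp only [Finset.mem_filter, Finset.mem_inter]
        constructor
        · exact fun h => h.2
        · exact fun h => ⟨⟨h4 h, Finset.mem_powerset.1 hY h⟩, h⟩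
      rw [h6, Finset.sum_const, h5, nsmul_eq_mul]
  have hout : ∀ X : Finset α, ∑ i ∈ V \ X, a X i = - ((k : ℚ) * E X) := by
    intro X
    rw [← hin X]
    have h1 : ∀ i ∈ V \ X, a X i = ∑ Y ∈ X.powerset, g (insert i Y) := by
      intro i hi
      have hiX : i ∉ X := (Finset.mem_sdiff.1 hi).2
      simp only [a]
      rw [Finset.erase_eq_of_notMem hiX]
    have h2 : ∀ i ∈ V ∩ X, a X i = ∑ Y ∈ X.powerset, if i ∈ Y then 0 else g (insert i Y) := by
      intro i hi
      have hiX : i ∈ X := (Finset.mem_inter.1 hi).2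
      have h2 : X = insert i (X.erase i) := (Finset.insert_erase hiX).symm
      conv_rhs => rw [h2]
      rw [Finset.sum_powerset_insert (Finset.notMem_erase i X)]
      have h3 : ∑ Y ∈ (X.erase i).powerset, (if i ∈ insert i Y then 0 else g (insert i (insert i Y))) = 0 := by
        refine Finset.sum_eq_zero (fun Y hY => ?_)
        rw [if_pos (Finset.mem_insert_self i Y)]
      rw [h3, add_zero]
      simp only [a]
      refine Finset.sum_congr rfl (fun Y hY => ?_)
      rw [if_neg]
      intro h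
      exact Finset.notMem_erase i X (Finset.mem_powerset.1 hY h)
    rw [Finset.sum_congr rfl h1, Finset.sum_congr rfl h2, Finset.sum_comm,
      Finset.sum_comm (s := V ∩ X), ← Finset.sum_neg_distrib]
    refine Finset.sum_congr rfl (fun Y hY => ?_)
    rw [Finset.mem_powerset] at hY
    by_cases hYc : Y ⊆ V ∧ Y.card + 1 = k
    · have h3 := hb Y hYc.1 hYc.2
      have h4 : V \ Y = (V \ X) ∪ ((V ∩ X).filter (fun i => i ∉ Y)) := by
        ext x
        simp only [Finset.mem_sdiff, Finset.mem_union, Finset.mem_filter, Finset.mem_inter]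
        constructor
        · rintro ⟨h5, h6⟩
          by_cases hx : x ∈ X
          · exact Or.inr ⟨⟨h5, hx⟩, h6⟩
          · exact Or.inl ⟨h5, hx⟩
        · rintro (⟨h5, h6⟩ | ⟨⟨h5, h6⟩, h7⟩)
          · exact ⟨h5, fun h => h6 (hY h)⟩
          · exact ⟨h5, h7⟩
      have h5 : Disjoint (V \ X) ((V ∩ X).filter (fun i => i ∉ Y)) := by
        rw [Finset.disjoint_left]
        intro x hx hx'
        rw [Finset.mem_filter, Finset.mem_inter] at hx'
        exact (Finset.mem_sdiff.1 hx).2 hx'.1.2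
      rw [h4, Finset.sum_union h5] at h3
      have h6 : ∑ i ∈ (V ∩ X).filter (fun i => i ∉ Y), g (insert i Y)
          = ∑ i ∈ V ∩ X, if i ∈ Y then 0 else g (insert i Y) := by
        rw [Finset.sum_filter]
        refine Finset.sum_congr rfl (fun i _ => ?_)
        by_cases hi : i ∈ Y <;> simp [hi]
      rw [h6] at h3
      linarith
    · have h3 : ∀ i, i ∉ Y → g (insert i Y) = 0 := by
        intro i hi
        by_contra hne
        obtain ⟨h4, h5⟩ := ha _ hne
        rw [Finset.card_insert_of_notMem hi] at h5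
        exact hYc ⟨fun x hx => h4 (Finset.mem_insert_of_mem hx), h5⟩
      rw [Finset.sum_eq_zero, Finset.sum_eq_zero, neg_zero]
      · intro i _
        by_cases hi : i ∈ Y
        · rw [if_pos hi]
        · rw [if_neg hi, h3 i hi]
      · intro i hi
        exact h3 i (fun h => (Finset.mem_sdiff.1 hi).2 (hY h))
  have hT : ∀ X, ∑ i ∈ V, E (symmDiff X {i}) = (((V.card : ℤ) - 2 * k : ℤ) : ℚ) * E X := by
    intro X
    simp only [hflip]
    rw [Finset.sum_add_distrib, Finset.sum_const, nsmul_eq_mul]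
    have h1 : ∑ i ∈ V, (if i ∈ X then - a X i else a X i)
        = - ∑ i ∈ V ∩ X, a X i + ∑ i ∈ V \ X, a X i := by
      rw [Finset.sum_ite, Finset.sum_neg_distrib, Finset.filter_mem_eq_inter,
        Finset.filter_notMem_eq_sdiff]
    rw [h1, hin, hout]
    push_cast
    ring
  have hei := (eigen V _ E hT).1 (k : ℤ) rfl X0
  obtain ⟨h1, h2⟩ := ha X0 hX0
  have h3 : symmDiff X0 V = V \ X0 := by
    ext x
    simp only [Finset.mem_symmDiff, Finset.mem_sdiff]
    constructor
    · rintro (⟨h, h'⟩ | h)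
      · exact absurd (h1 h) h'
      · exact h
    · exact fun h => Or.inr h
  have h4 : E (V \ X0) = 0 := by
    refine Finset.sum_eq_zero (fun Y hY => ?_)
    by_contra hne
    obtain ⟨-, h5⟩ := ha Y hne
    have h6 := Finset.card_le_card (Finset.mem_powerset.1 hY)
    rw [Finset.card_sdiff_of_subset h1] at h6
    omega
  have h5 : E X0 = g X0 := by
    simp only [E]
    refine Finset.sum_eq_single_of_mem X0 (Finset.mem_powerset_self X0) (fun Y hY hne => ?_)
    by_contra h
    obtain ⟨-, h6⟩ := ha Y h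
    exact hne (Finset.eq_of_subset_of_card_le (Finset.mem_powerset.1 hY) (by omega))
  rw [h3, h4, h5] at hei
  rcases mul_eq_zero.1 hei.symm with h | h
  · have h11 : ((Int.negOnePow (k : ℤ) : ℤ)) = 0 := by exact_mod_cast h
    exact (Int.negOnePow (k : ℤ)).ne_zero h11
  · exact hX0 h

end lower

variable {α ι : Type*} [Fintype α] [DecidableEq α] [Fintype ι] [DecidableEq ι]
  {Γ : SimpleGraph α} {P : Parts Γ ι} {F : Finset α → ℚ}

variable (S : Sys Γ F)
  (hside : ∀ U, F U ≠ 0 → 2 * U.card + 2 = Fintype.card α ∨ 2 * U.card = Fintype.card α + 2)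

include S hside

theorem mvm (U : Finset α) (hU : F U ≠ 0) (hUc : 2 * U.card + 2 = Fintype.card α) (v : α)
    (hv : v ∈ U) : ∃ w, w ∉ U ∧ F U * F (fl U v w) < 0 ∧
      2 * (fl U v w).card + 2 = Fintype.card α := by
  obtain ⟨w, hw⟩ := opp S.hT U hU v
  have hw' : F U * F (fl U v w) < 0 := hw
  have h1 := card_flip_mem U v hv
  have h5 := hside _ (ne_of_opp hw').2
  have hwv : w ≠ v := by
    rintro rfl
    unfold fl at hw'
    rw [sd_cancel] at hw'
    nlinarith [mul_self_nonneg (F U)]
  by_cases hwU : w ∈ U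
  · exfalso
    have h2 : w ∈ symmDiff U {v} := by
      simp [Finset.mem_symmDiff, hwU, hwv]
    have h3 := card_flip_mem (symmDiff U {v}) w h2
    unfold fl at h5
    omega
  · refine ⟨w, hwU, hw', ?_⟩
    have h2 : w ∉ symmDiff U {v} := by
      simp [Finset.mem_symmDiff, hwU, hwv]
    have h3 := card_flip_not_mem (symmDiff U {v}) w h2
    unfold fl
    omega

omit hside in
theorem same_side {U U' : Finset α} (h : 0 < F U * F U')
    (hUc : 2 * U.card + 2 = Fintype.card α) (hUc' : 2 * U'.card + 2 = Fintype.card α) :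
    P.N U' = P.N U := by
  obtain ⟨φ, hφ | hφ⟩ := S.hs U U' h
  · rw [← hφ, P.N_im]
  · exfalso
    have h1 := congrArg Finset.card hφ
    rw [im_card, Finset.card_compl] at h1
    omega

theorem lemGm {U U' : Finset α} (ho : F U * F U' < 0)
    (hUc : 2 * U.card + 2 = Fintype.card α) (hUc' : 2 * U'.card + 2 = Fintype.card α)
    {c c' : ι} (hκ : P.κ c U = P.κ c' U') (hpos : 0 < P.u c U) : False := by
  classical
  set k := P.κ c U with hk
  have hall : ∀ W, F W ≠ 0 → 2 * W.card + 2 = Fintype.card α → 0 < P.N W k := by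
    intro W hW hWc
    rcases lt_or_gt_of_ne (mul_ne_zero (ne_of_opp ho).1 hW) with h | h
    · rw [same_side (P := P) S (same_of_opp ho h) hUc' hWc]
      exact N_pos' hκ.symm
    · rw [same_side (P := P) S h hUc hWc]
      exact N_pos' hk.symm
  obtain ⟨U1, hU1, hmin⟩ := Finset.exists_min_image
    (univ.filter (fun W => F W ≠ 0 ∧ 2 * W.card + 2 = Fintype.card α)) (fun W => P.N W k)
    ⟨U, Finset.mem_filter.2 ⟨Finset.mem_univ _, (ne_of_opp ho).1, hUc⟩⟩
  obtain ⟨-, hU1, hU1c⟩ := Finset.mem_filter.1 hU1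
  refine lemH (P := P) True (fun W => (F W ≠ 0 ∧ 2 * W.card + 2 = Fintype.card α) ∧
    P.N W k = P.N U1 k) k ⟨U1, ⟨hU1, hU1c⟩, rfl⟩ ?_ ?_
  · rintro W ⟨⟨hW, hWc⟩, -⟩
    obtain ⟨c'', hc''⟩ := (P.N_pos W k).1 (hall W hW hWc)
    have h1 : 0 < P.u c'' W := by
      rw [P.u_of_κ (hc''.trans hk)]
      exact hpos
    obtain ⟨v, hv⟩ := Finset.card_pos.1 h1
    rw [Finset.mem_inter, P.mem_V] at hv
    exact ⟨v, by rw [hv.2]; exact hc'', fun _ => hv.1⟩
  · rintro W ⟨⟨hW, hWc⟩, hWk⟩ v hv hvW
    replace hvW := hvW trivial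
    obtain ⟨w, hw1, hw2, hw3⟩ := mvm S hside W hW hWc v hvW
    have hw0 := (ne_of_opp hw2).2
    have hge : P.N U1 k ≤ P.N (fl W v w) k :=
      hmin _ (Finset.mem_filter.2 ⟨Finset.mem_univ _, hw0, hw3⟩)
    have hwv : w ≠ v := by
      rintro rfl
      exact hw1 hvW
    refine ⟨w, ⟨⟨hw0, hw3⟩, ?_⟩, fun _ => ?_, ?_, fun h => N_ne S hw2 h.symm⟩
    · have := N_fl_le W v w k hv
      omega
    · unfold fl
      simp [Finset.mem_symmDiff, hw1, hwv]
    · by_contra hne
      have := N_fl_lt W v w k hv hne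
      omega

/-- the new vertex of a move lies in every other part that meets the set -/
theorem mv_part (U : Finset α) (hUc : 2 * U.card + 2 = Fintype.card α) (v w : α)
    (ho : F U * F (fl U v w) < 0) (hfc : 2 * (fl U v w).card + 2 = Fintype.card α) (c : ι)
    (hc : c ≠ P.cp v) (hpos : 0 < P.u c U) : P.cp w = c := by
  by_contra hne
  exact lemGm S hside ho hUc hfc (c := c) (c' := c)
    (κ_fl_other c U v w hc.symm hne).symm hpos

theorem two_parts_lt (U : Finset α) (hU : F U ≠ 0) (hUc : 2 * U.card + 2 = Fintype.card α)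
    (c1 c2 : ι) (h12 : c1 ≠ c2) (hlt : P.u c2 U < P.u c1 U) (hpos : 0 < P.u c2 U)
    (hrest : ∀ c, c ≠ c1 → c ≠ c2 → P.u c U = 0) : False := by
  have hex : ∀ c, 0 < P.u c U → ∃ v ∈ U, P.cp v = c := by
    intro c hc
    obtain ⟨v, hv⟩ := Finset.card_pos.1 hc
    rw [Finset.mem_inter, P.mem_V] at hv
    exact ⟨v, hv.1, hv.2⟩
  obtain ⟨v1, hv1, hv1c⟩ := hex c1 (by omega)
  obtain ⟨v2, hv2, hv2c⟩ := hex c2 hpos
  obtain ⟨w1, hw1, ho1, hf1⟩ := mvm S hside U hU hUc v1 hv1
  obtain ⟨w2, hw2, ho2, hf2⟩ := mvm S hside U hU hUc v2 hv2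
  have e1 : P.cp w1 = c2 := mv_part S hside U hUc v1 w1 ho1 hf1 c2 (by rw [hv1c]; exact h12.symm)
    hpos
  have e2 : P.cp w2 = c1 := mv_part S hside U hUc v2 w2 ho2 hf2 c1 (by rw [hv2c]; exact h12)
    (by omega)
  have hN : P.N (fl U v2 w2) = P.N (fl U v1 w1) :=
    same_side (P := P) S (same_of_opp ho1 ho2) hf1 hf2
  have hw1v : w1 ≠ v1 := by
    rintro rfl
    exact hw1 hv1
  have hw2v : w2 ≠ v2 := by
    rintro rfl
    exact hw2 hv2
  -- sizes
  have hother : ∀ c (W : Finset α) (v : α), P.cp v ≠ c → P.u c (symmDiff W {v}) = P.u c W :=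
    fun c W v hv => P.u_of_κ (κ_flip_other c W v hv)
  have a1 : P.u c1 (fl U v2 w2) = P.u c1 U + 1 := by
    have h1 := P.u_flip_not_mem (symmDiff U {v2}) w2 (by simp [Finset.mem_symmDiff, hw2, hw2v])
    rw [e2] at h1
    have h2 := hother c1 U v2 (by rw [hv2c]; exact h12.symm)
    unfold fl
    omega
  have a2 : P.u c1 (fl U v1 w1) + 1 = P.u c1 U := by
    have h1 := P.u_flip_mem U v1 hv1
    rw [hv1c] at h1
    have h2 := hother c1 (symmDiff U {v1}) w1 (by rw [e1]; exact h12.symm)
    unfold fl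
    omega
  have a3 : P.u c2 (fl U v1 w1) = P.u c2 U + 1 := by
    have h1 := P.u_flip_not_mem (symmDiff U {v1}) w1 (by simp [Finset.mem_symmDiff, hw1, hw1v])
    rw [e1] at h1
    have h2 := hother c2 U v1 (by rw [hv1c]; exact h12)
    unfold fl
    omega
  have hp : 0 < P.N (fl U v1 w1) (P.κ c1 (fl U v2 w2)) := by
    rw [← hN]
    exact N_pos' rfl
  obtain ⟨c', hc'⟩ := (P.N_pos _ _).1 hp
  have h3 := P.u_of_κ hc'
  by_cases hc1 : c' = c1
  · rw [hc1] at h3
    omega
  · by_cases hc2 : c' = c2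
    · rw [hc2] at h3
      omega
    · have h4 : P.u c' (fl U v1 w1) = P.u c' U := by
        unfold fl
        rw [hother _ _ _ (by rw [e1]; exact fun h => hc2 h.symm),
          hother _ _ _ (by rw [hv1c]; exact fun h => hc1 h.symm)]
      rw [h4, hrest c' hc1 hc2] at h3
      omega

theorem one_part (P : Parts Γ ι) (h4 : 4 ∣ Fintype.card α) (U : Finset α) (hU : F U ≠ 0)
    (hUc : 2 * U.card + 2 = Fintype.card α) (v1 v2 : α) (hv1 : v1 ∈ U) (hv2 : v2 ∈ U) :
    P.cp v1 = P.cp v2 := by
  by_contra h12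
  have hposmem : ∀ v ∈ U, 0 < P.u (P.cp v) U := by
    intro v hv
    refine Finset.card_pos.2 ⟨v, ?_⟩
    rw [Finset.mem_inter, P.mem_V]
    exact ⟨hv, rfl⟩
  have p1 := hposmem v1 hv1
  have p2 := hposmem v2 hv2
  obtain ⟨w1, hw1, ho1, hf1⟩ := mvm S hside U hU hUc v1 hv1
  have e1 := mv_part S hside U hUc v1 w1 ho1 hf1 (P.cp v2) (fun h => h12 h.symm) p2
  have hrest : ∀ c, c ≠ P.cp v1 → c ≠ P.cp v2 → P.u c U = 0 := by
    intro c hc1 hc2
    by_contra hne
    have := mv_part S hside U hUc v1 w1 ho1 hf1 c hc1 (Nat.pos_of_ne_zero hne)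
    exact hc2 (by rw [← this, e1])
  have hsum : P.u (P.cp v1) U + P.u (P.cp v2) U = U.card := by
    rw [← sum_u (P := P) U, Finset.sum_eq_add_of_mem (P.cp v1) (P.cp v2) (Finset.mem_univ _)
      (Finset.mem_univ _) h12 (fun c _ hc => hrest c hc.1 hc.2)]
  have hne : P.u (P.cp v1) U ≠ P.u (P.cp v2) U := by
    intro h
    obtain ⟨m, hm⟩ := h4
    omega
  rcases lt_or_gt_of_ne hne with h | h
  · exact two_parts_lt S hside U hU hUc (P.cp v2) (P.cp v1) (fun h => h12 h.symm) h p1
      (fun c hc1 hc2 => hrest c hc2 hc1)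
  · exact two_parts_lt S hside U hU hUc (P.cp v1) (P.cp v2) h12 h p2 hrest

theorem side_false (P : Parts Γ ι) (h4 : 4 ∣ Fintype.card α) (h8 : 8 ≤ Fintype.card α)
    (hsz : ∀ c, (P.V c).card + 3 ≤ Fintype.card α) : False := by
  classical
  obtain ⟨U, hU, hUc⟩ : ∃ U, F U ≠ 0 ∧ 2 * U.card + 2 = Fintype.card α := by
    obtain ⟨U, hU⟩ := S.hne
    rcases hside U hU with h | h
    · exact ⟨U, hU, h⟩
    · refine ⟨Uᶜ, by rw [S.hc]; exact hU, ?_⟩
      have := Finset.card_le_univ U
      rw [Finset.card_compl]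
      omega
  have hpos : 0 < U.card := by omega
  obtain ⟨v0, hv0⟩ := Finset.card_pos.1 hpos
  set c := P.cp v0 with hc
  have hUV : U ⊆ P.V c := by
    intro x hx
    rw [P.mem_V]
    exact one_part S hside P h4 U hU hUc x v0 hx hv0
  let g : Finset α → ℚ := fun Y =>
    if Y ⊆ P.V c ∧ 2 * Y.card + 2 = Fintype.card α then F Y else 0
  have hgU : g U = F U := by
    simp only [g, if_pos (⟨hUV, hUc⟩ : U ⊆ P.V c ∧ 2 * U.card + 2 = Fintype.card α)]
  apply hU
  rw [← hgU]
  refine lower (P.V c) U.card g ?_ ?_ ?_ U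
  · intro Y hY
    by_cases h : Y ⊆ P.V c ∧ 2 * Y.card + 2 = Fintype.card α
    · exact ⟨h.1, by omega⟩
    · exfalso
      apply hY
      simp only [g, if_neg h]
  · intro Z hZ hZc
    have hT := S.hT Z
    rw [← hT]
    rw [← Finset.sum_subset (Finset.subset_univ (P.V c \ Z))]
    · refine Finset.sum_congr rfl (fun i hi => ?_)
      rw [Finset.mem_sdiff] at hi
      have h1 : symmDiff Z {i} = insert i Z := by
        ext x
        simp only [Finset.mem_symmDiff, Finset.mem_singleton, Finset.mem_insert]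
        by_cases hx : x = i
        · subst hx; simp [hi.2]
        · simp [hx]
      have h2 : insert i Z ⊆ P.V c ∧ 2 * (insert i Z).card + 2 = Fintype.card α := by
        refine ⟨Finset.insert_subset hi.1 hZ, ?_⟩
        rw [Finset.card_insert_of_notMem hi.2]
        omega
      rw [h1]
      simp only [g, if_pos h2]
    · intro i _ hi
      rw [Finset.mem_sdiff, not_and, not_not] at hi
      by_contra hne
      have h5 := hside _ hne
      by_cases hiZ : i ∈ Z
      · have := card_flip_mem Z i hiZ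
        omega
      · have hiV : i ∉ P.V c := fun h => hiZ (hi h)
        have h6 := card_flip_not_mem Z i hiZ
        have hZpos : 0 < Z.card := by omega
        obtain ⟨z, hz⟩ := Finset.card_pos.1 hZpos
        have hzi : z ≠ i := by
          rintro rfl
          exact hiZ hz
        have h7 := one_part S hside P h4 (symmDiff Z {i}) hne (by omega) z i
          (by simp [Finset.mem_symmDiff, hz, hzi]) (by simp [Finset.mem_symmDiff, hiZ])
        apply hiV
        rw [P.mem_V, ← h7, ← P.mem_V]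
        exact hZ hz
  · have := hsz c
    omega

end Pool.Agent.Lib_helper61.SwSide
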