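import Mathlib

set_option autoImplicit false

namespace Pool.Agent.Lib_helper61.SwitchBasic

open Finset

/-- `sw G S` is the graph `G` switched with respect to the vertex set `S`: the pairs of distinct
vertices with exactly one member in `S` are complemented, all other pairs are kept.
`sw G {i}` is the switch of `G` at the vertex `i`. -/
def sw {α : Type*} (G : SimpleGraph α) (S : Finset α) : SimpleGraph α where
  Adj u v := u ≠ v ∧ (G.Adj u v ↔ (u ∈ S ↔ v ∈ S))
  symm := ⟨by
    intro u v h
    refine ⟨h.1.symm, ?_⟩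
    rw [G.adj_comm, h.2]
    tauto⟩
  loopless := ⟨fun u h => h.1 rfl⟩

/-- `G` and `H` have the same switching deck. -/
def SameDeck {α : Type*} (G H : SimpleGraph α) : Prop :=
  ∃ σ : Equiv.Perm α, ∀ i : α, Nonempty (sw G {i} ≃g sw H {σ i})

/-- The permutation `σ` maps `G` to a graph that is switching-equivalent to `G`: it is an
automorphism of the switching class (two-graph) of `G`. -/
def IsClassAut {α : Type*} (G : SimpleGraph α) (σ : Equiv.Perm α) : Prop :=
  ∃ S : Finset α, ∀ u v : α, (sw G S).Adj (σ u) (σ v) ↔ G.Adj u v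

/-- The vertex set `V` is invariant under every automorphism of the switching class of `G`. -/
def IsInvariant {α : Type*} (G : SimpleGraph α) (V : Finset α) : Prop :=
  ∀ σ : Equiv.Perm α, IsClassAut G σ → ∀ v : α, σ v ∈ V ↔ v ∈ V

section basic

variable {α : Type*} [DecidableEq α]

omit [DecidableEq α] in
theorem sw_adj (G : SimpleGraph α) (S : Finset α) (u v : α) :
    (sw G S).Adj u v ↔ u ≠ v ∧ (G.Adj u v ↔ (u ∈ S ↔ v ∈ S)) := Iff.rfl

omit [DecidableEq α] in
theorem sw_empty (G : SimpleGraph α) : sw G ∅ = G := by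
  ext u v
  simp only [sw_adj, Finset.notMem_empty, iff_self, iff_true]
  constructor
  · exact fun h => h.2
  · exact fun h => ⟨h.ne, h⟩

theorem sw_sw (G : SimpleGraph α) (S T : Finset α) :
    sw (sw G S) T = sw G (symmDiff S T) := by
  ext u v
  simp only [sw_adj, Finset.mem_symmDiff]
  by_cases huv : u = v
  · simp [huv]
  · have : u ≠ v := huv
    tauto

/-- transport of a switching along an isomorphism -/
def isoSw {K L : SimpleGraph α} (φ : K ≃g L) (S : Finset α) :
    sw K S ≃g sw L (S.map φ.toEquiv.toEmbedding) where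
  toEquiv := φ.toEquiv
  map_rel_iff' := by
    intro u v
    have h1 : ∀ w : α, φ.toEquiv w ∈ S.map φ.toEquiv.toEmbedding ↔ w ∈ S := by
      intro w
      constructor
      · intro h
        obtain ⟨x, hx, hxw⟩ := Finset.mem_map.1 h
        have : x = w := φ.toEquiv.injective hxw
        rwa [← this]
      · intro h
        exact Finset.mem_map.2 ⟨w, h, rfl⟩
    have h2 : L.Adj (φ.toEquiv u) (φ.toEquiv v) ↔ K.Adj u v := φ.map_rel_iff'
    rw [sw_adj, sw_adj, h1, h1, h2]
    simp

end basic

section eigen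

variable {α : Type*} [DecidableEq α]

theorem sd_sd (S T U : Finset α) : symmDiff (symmDiff S T) U = symmDiff (symmDiff S U) T := by
  rw [symmDiff_assoc, symmDiff_comm T U, ← symmDiff_assoc]

theorem sd_cancel (S T : Finset α) : symmDiff (symmDiff S T) T = S := by
  simp

theorem sd_empty (S : Finset α) : symmDiff S ∅ = S := by
  rw [← Finset.bot_eq_empty, symmDiff_bot]

theorem sd_insert (S V : Finset α) (a : α) (ha : a ∉ V) :
    symmDiff S (insert a V) = symmDiff (symmDiff S V) {a} := by
  have : insert a V = symmDiff V {a} := by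
    ext x
    simp only [Finset.mem_insert, Finset.mem_symmDiff, Finset.mem_singleton]
    by_cases hx : x = a
    · subst hx; simp [ha]
    · simp [hx]
  rw [this, symmDiff_assoc]

/-- Eigenfunctions of the sum of the coordinate flips over `V`. -/
theorem eigen (V : Finset α) : ∀ (l : ℤ) (f : Finset α → ℚ),
    (∀ S, ∑ i ∈ V, f (symmDiff S {i}) = (l : ℚ) * f S) →
    (∀ j : ℤ, l = (V.card : ℤ) - 2 * j → ∀ S, f (symmDiff S V) = (Int.negOnePow j : ℤ) * f S) ∧
    (Odd ((V.card : ℤ) - l) → ∀ S, f S = 0) := by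
  induction V using Finset.induction_on with
  | empty =>
    intro l f hf
    have h0 : ∀ S, (l : ℚ) * f S = 0 := by
      intro S
      have := hf S
      simpa using this.symm
    constructor
    · intro j hj S
      by_cases hl : l = 0
      · have hj0 : j = 0 := by
          simp [hl] at hj
          omega
        subst hj0
        simp [sd_empty]
      · have : f S = 0 := by
          have := h0 S
          rcases mul_eq_zero.1 this with h | h
          · exact absurd (by exact_mod_cast h) hl
          · exact h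
        simp [this, sd_empty]
    · intro hodd S
      have hl : l ≠ 0 := by
        rintro rfl
        simp at hodd
      rcases mul_eq_zero.1 (h0 S) with h | h
      · exact absurd (by exact_mod_cast h) hl
      · exact h
  | insert a V ha ih =>
    intro l f hf
    have hf' : ∀ S, ∑ i ∈ V, f (symmDiff S {i}) = (l : ℚ) * f S - f (symmDiff S {a}) := by
      intro S
      have := hf S
      rw [Finset.sum_insert ha] at this
      linarith
    have hp : ∀ S, ∑ i ∈ V, (fun S => f S + f (symmDiff S {a})) (symmDiff S {i})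
        = ((l - 1 : ℤ) : ℚ) * (fun S => f S + f (symmDiff S {a})) S := by
      intro S
      have h1 := hf' S
      have h2 := hf' (symmDiff S {a})
      rw [sd_cancel] at h2
      simp only [Finset.sum_add_distrib]
      have h3 : ∑ i ∈ V, f (symmDiff (symmDiff S {i}) {a})
          = ∑ i ∈ V, f (symmDiff (symmDiff S {a}) {i}) := by
        refine Finset.sum_congr rfl (fun i _ => ?_)
        rw [sd_sd]
      rw [h3, h1, h2]
      push_cast
      ring
    have hm : ∀ S, ∑ i ∈ V, (fun S => f S - f (symmDiff S {a})) (symmDiff S {i})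
        = ((l + 1 : ℤ) : ℚ) * (fun S => f S - f (symmDiff S {a})) S := by
      intro S
      have h1 := hf' S
      have h2 := hf' (symmDiff S {a})
      rw [sd_cancel] at h2
      simp only [Finset.sum_sub_distrib]
      have h3 : ∑ i ∈ V, f (symmDiff (symmDiff S {i}) {a})
          = ∑ i ∈ V, f (symmDiff (symmDiff S {a}) {i}) := by
        refine Finset.sum_congr rfl (fun i _ => ?_)
        rw [sd_sd]
      rw [h3, h1, h2]
      push_cast
      ring
    obtain ⟨p1, p2⟩ := ih (l - 1) (fun S => f S + f (symmDiff S {a})) hp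
    obtain ⟨m1, m2⟩ := ih (l + 1) (fun S => f S - f (symmDiff S {a})) hm
    have hcard : ((insert a V).card : ℤ) = (V.card : ℤ) + 1 := by
      rw [Finset.card_insert_of_notMem ha]
      push_cast
      ring
    constructor
    · intro j hj S
      rw [hcard] at hj
      have e1 := p1 j (by omega) S
      have e2 := m1 (j - 1) (by omega) S
      have e3 : ((Int.negOnePow (j - 1) : ℤˣ) : ℤ) = - ((Int.negOnePow j : ℤˣ) : ℤ) := by
        rw [Int.negOnePow_sub]
        simp
      rw [e3] at e2
      rw [sd_insert S V a ha]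
      push_cast at e1 e2 ⊢
      linarith
    · intro hodd S
      rw [hcard] at hodd
      have hpo : Odd ((V.card : ℤ) - (l - 1)) := by
        have : (V.card : ℤ) - (l - 1) = (V.card : ℤ) + 1 - l := by ring
        rwa [this]
      have hmo : Odd ((V.card : ℤ) - (l + 1)) := by
        have : (V.card : ℤ) - (l + 1) = ((V.card : ℤ) + 1 - l) - 2 := by ring
        rw [this]
        rcases hodd with ⟨k, hk⟩
        exact ⟨k - 1, by rw [hk]; ring⟩
      have e1 := p2 hpo S
      have e2 := m2 hmo S
      linarith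

end eigen

section count

variable {α : Type*} [DecidableEq α]

open Classical in
/-- indicator of isomorphism -/
noncomputable def ind {α : Type*} (K L : SimpleGraph α) : ℚ :=
  if Nonempty (K ≃g L) then 1 else 0

omit [DecidableEq α] in
theorem ind_congr_left {K K' : SimpleGraph α} (L : SimpleGraph α) (h : Nonempty (K ≃g K')) :
    ind K L = ind K' L := by
  obtain ⟨φ⟩ := h
  unfold ind
  have : Nonempty (K ≃g L) ↔ Nonempty (K' ≃g L) :=
    ⟨fun ⟨ψ⟩ => ⟨φ.symm.trans ψ⟩, fun ⟨ψ⟩ => ⟨φ.trans ψ⟩⟩
  by_cases h : Nonempty (K ≃g L)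
  · rw [if_pos h, if_pos (this.1 h)]
  · rw [if_neg h, if_neg (fun h' => h (this.2 h'))]

omit [DecidableEq α] in
theorem ind_nonneg (K L : SimpleGraph α) : 0 ≤ ind K L := by
  unfold ind
  split_ifs <;> norm_num

omit [DecidableEq α] in
theorem ind_of (K L : SimpleGraph α) (h : Nonempty (K ≃g L)) : ind K L = 1 := by
  unfold ind
  simp [h]

omit [DecidableEq α] in
theorem ind_of_not (K L : SimpleGraph α) (h : ¬ Nonempty (K ≃g L)) : ind K L = 0 := by
  unfold ind
  simp [h]

variable [Fintype α]

/-- number of vertex sets whose switching in `G` gives a graph isomorphic to `K` -/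
noncomputable def cnt (G K : SimpleGraph α) : ℚ := ∑ S : Finset α, ind (sw G S) K

/-- number of vertices whose switching in `K` gives a graph isomorphic to `L` -/
noncomputable def nb (K L : SimpleGraph α) : ℚ := ∑ i : α, ind (sw K {i}) L

theorem nb_congr_left {K K' : SimpleGraph α} (L : SimpleGraph α) (h : Nonempty (K ≃g K')) :
    nb K L = nb K' L := by
  obtain ⟨φ⟩ := h
  unfold nb
  rw [← Equiv.sum_comp φ.toEquiv (fun i => ind (sw K' {i}) L)]
  refine Finset.sum_congr rfl (fun i _ => ?_)
  apply ind_congr_left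
  have := isoSw φ {i}
  rw [Finset.map_singleton] at this
  exact ⟨this⟩

/-- the flip of one coordinate as a permutation of the vertex sets -/
def flipE (i : α) : Equiv.Perm (Finset α) :=
  Function.Involutive.toPerm (fun S => symmDiff S {i}) (fun S => sd_cancel S {i})

theorem flipE_apply (i : α) (S : Finset α) : flipE i S = symmDiff S {i} := rfl

theorem double (G K L : SimpleGraph α) : cnt G K * nb K L = cnt G L * nb L K := by
  have h1 : ∀ A B : SimpleGraph α, cnt G A * nb A B =
      ∑ i : α, ∑ S : Finset α, ind (sw G S) A * ind (sw G (symmDiff S {i})) B := by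
    intro A B
    rw [Finset.sum_comm]
    unfold cnt
    rw [Finset.sum_mul]
    refine Finset.sum_congr rfl (fun S _ => ?_)
    rw [← Finset.mul_sum]
    by_cases h : Nonempty (sw G S ≃g A)
    · congr 1
      rw [← nb_congr_left B h]
      unfold nb
      simp only [sw_sw]
    · simp [ind_of_not _ _ h]
  rw [h1, h1]
  refine Finset.sum_congr rfl (fun i _ => ?_)
  rw [← Equiv.sum_comp (flipE i)]
  refine Finset.sum_congr rfl (fun S _ => ?_)
  rw [flipE_apply, sd_cancel, mul_comm]

theorem nb_deck {G H : SimpleGraph α} (h : SameDeck G H) (K : SimpleGraph α) :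
    nb G K = nb H K := by
  obtain ⟨σ, hσ⟩ := h
  unfold nb
  rw [← Equiv.sum_comp σ (fun i => ind (sw H {i}) K)]
  exact Finset.sum_congr rfl (fun i _ => ind_congr_left K (hσ i))

/-- the signed orbit function -/
noncomputable def ff (G H : SimpleGraph α) (S : Finset α) : ℚ :=
  cnt G H * ind (sw G S) G - cnt G G * ind (sw G S) H

theorem cnt_pos (G K : SimpleGraph α) (S : Finset α) (h : Nonempty (sw G S ≃g K)) :
    0 < cnt G K := by
  unfold cnt
  refine Finset.sum_pos' (fun T _ => ind_nonneg _ _) ⟨S, Finset.mem_univ _, ?_⟩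
  rw [ind_of _ _ h]
  norm_num

theorem sum_ff {G H : SimpleGraph α} (h : SameDeck G H) (S : Finset α) :
    ∑ i : α, ff G H (symmDiff S {i}) = 0 := by
  have hK : 0 < cnt G (sw G S) := cnt_pos G (sw G S) S ⟨SimpleGraph.Iso.refl⟩
  have hL : ∀ L : SimpleGraph α, ∑ i : α, ind (sw G (symmDiff S {i})) L = nb (sw G S) L := by
    intro L
    unfold nb
    simp only [sw_sw]
  have e : ∑ i : α, ff G H (symmDiff S {i})
      = cnt G H * nb (sw G S) G - cnt G G * nb (sw G S) H := by
    unfold ff
    rw [Finset.sum_sub_distrib, ← Finset.mul_sum, ← Finset.mul_sum, hL, hL]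
  rw [e]
  have d1 := double G (sw G S) G
  have d2 := double G (sw G S) H
  have d3 := nb_deck h (sw G S)
  have : cnt G (sw G S) * (cnt G H * nb (sw G S) G - cnt G G * nb (sw G S) H) = 0 := by
    calc cnt G (sw G S) * (cnt G H * nb (sw G S) G - cnt G G * nb (sw G S) H)
        = cnt G H * (cnt G (sw G S) * nb (sw G S) G)
          - cnt G G * (cnt G (sw G S) * nb (sw G S) H) := by ring
      _ = 0 := by rw [d1, d2, d3]; ring
  rcases mul_eq_zero.1 this with h0 | h0
  · exact absurd h0 hK.ne'
  · exact h0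

end count

section quad

variable {α : Type*} [DecidableEq α]

open Classical in
/-- Seidel entry -/
noncomputable def mm {α : Type*} (K : SimpleGraph α) (i j : α) : ℤ := if K.Adj i j then -1 else 1

omit [DecidableEq α] in
theorem mm_comm (K : SimpleGraph α) (i j : α) : mm K i j = mm K j i := by
  unfold mm
  by_cases h : K.Adj i j
  · rw [if_pos h, if_pos h.symm]
  · rw [if_neg h, if_neg (fun h' => h h'.symm)]

omit [DecidableEq α] in
theorem mm_odd (K : SimpleGraph α) (i j : α) : Odd (mm K i j) := by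
  unfold mm
  split_ifs
  · exact ⟨-1, by norm_num⟩
  · exact ⟨0, by norm_num⟩

omit [DecidableEq α] in
theorem mm_sw_neg (K : SimpleGraph α) (b j : α) (h : j ≠ b) :
    mm (sw K {b}) b j = - mm K b j := by
  have h2 : b ≠ j := fun e => h e.symm
  have hadj : (sw K {b}).Adj b j ↔ ¬ K.Adj b j := by
    rw [sw_adj]
    simp [h, h2]
  unfold mm
  by_cases hk : K.Adj b j
  · rw [if_pos hk, if_neg (fun h' => (hadj.1 h') hk)]
    norm_num
  · rw [if_neg hk, if_pos (hadj.2 hk)]

omit [DecidableEq α] in
theorem mm_sw_pos (K : SimpleGraph α) (b i j : α) (hij : i ≠ j) (hi : i ≠ b) (hj : j ≠ b) :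
    mm (sw K {b}) i j = mm K i j := by
  have hadj : (sw K {b}).Adj i j ↔ K.Adj i j := by
    rw [sw_adj]
    simp [hij, hi, hj]
  unfold mm
  by_cases hk : K.Adj i j
  · rw [if_pos hk, if_pos (hadj.2 hk)]
  · rw [if_neg hk, if_neg (fun h' => hk (hadj.1 h'))]

/-- Seidel degree of `b` inside `V` -/
noncomputable def DD (K : SimpleGraph α) (V : Finset α) (b : α) : ℤ := ∑ j ∈ V.erase b, mm K b j

/-- Seidel form of `V` -/
noncomputable def qq (K : SimpleGraph α) (V : Finset α) : ℤ := ∑ i ∈ V, DD K V i

theorem DD_self (K : SimpleGraph α) (V : Finset α) (b : α) :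
    DD (sw K {b}) V b = - DD K V b := by
  unfold DD
  rw [← Finset.sum_neg_distrib]
  exact Finset.sum_congr rfl (fun j hj => mm_sw_neg K b j (Finset.ne_of_mem_erase hj))

theorem DD_other (K : SimpleGraph α) (V : Finset α) (b i : α) (hb : b ∈ V) (hi : i ≠ b) :
    DD (sw K {b}) V i = DD K V i - 2 * mm K i b := by
  unfold DD
  have hbe : b ∈ V.erase i := Finset.mem_erase.2 ⟨hi.symm, hb⟩
  rw [← Finset.add_sum_erase _ _ hbe, ← Finset.add_sum_erase _ (fun j => mm K i j) hbe]
  have h1 : mm (sw K {b}) i b = - mm K i b := by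
    rw [mm_comm, mm_sw_neg K b i hi, mm_comm]
  have h2 : ∑ j ∈ (V.erase i).erase b, mm (sw K {b}) i j
      = ∑ j ∈ (V.erase i).erase b, mm K i j := by
    refine Finset.sum_congr rfl (fun j hj => ?_)
    have hjb : j ≠ b := Finset.ne_of_mem_erase hj
    have hji : j ≠ i := Finset.ne_of_mem_erase (Finset.mem_of_mem_erase hj)
    exact mm_sw_pos K b i j hji.symm hi hjb
  rw [h1, h2]
  ring

theorem DD_out (K : SimpleGraph α) (V : Finset α) (b i : α) (hb : b ∉ V) (hi : i ∈ V) :
    DD (sw K {b}) V i = DD K V i := by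
  unfold DD
  refine Finset.sum_congr rfl (fun j hj => ?_)
  have hji : j ≠ i := Finset.ne_of_mem_erase hj
  have hjV : j ∈ V := Finset.mem_of_mem_erase hj
  exact mm_sw_pos K b i j hji.symm (fun e => hb (e ▸ hi)) (fun e => hb (e ▸ hjV))

theorem qq_out (K : SimpleGraph α) (V : Finset α) (b : α) (hb : b ∉ V) :
    qq (sw K {b}) V = qq K V := by
  unfold qq
  exact Finset.sum_congr rfl (fun i hi => DD_out K V b i hb hi)

theorem qq_in (K : SimpleGraph α) (V : Finset α) (b : α) (hb : b ∈ V) :
    qq (sw K {b}) V = qq K V - 4 * DD K V b := by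
  unfold qq
  rw [← Finset.add_sum_erase _ _ hb, ← Finset.add_sum_erase _ (fun i => DD K V i) hb, DD_self]
  have h1 : ∑ i ∈ V.erase b, DD (sw K {b}) V i
      = ∑ i ∈ V.erase b, DD K V i - 2 * DD K V b := by
    have : ∑ i ∈ V.erase b, DD (sw K {b}) V i
        = ∑ i ∈ V.erase b, (DD K V i - 2 * mm K i b) :=
      Finset.sum_congr rfl (fun i hi => DD_other K V b i hb (Finset.ne_of_mem_erase hi))
    rw [this, Finset.sum_sub_distrib, ← Finset.mul_sum]
    unfold DD
    congr 2
    exact Finset.sum_congr rfl (fun i _ => mm_comm K i b)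
  rw [h1]
  ring

theorem qq_sum [Fintype α] (K : SimpleGraph α) (V : Finset α) :
    ∑ i : α, qq (sw K {i}) V = ((Fintype.card α : ℤ) - 4) * qq K V := by
  have h : ∀ i : α, qq (sw K {i}) V = qq K V - (if i ∈ V then 4 * DD K V i else 0) := by
    intro i
    by_cases hi : i ∈ V
    · simp [hi, qq_in K V i hi]
    · simp [hi, qq_out K V i hi]
  rw [Finset.sum_congr rfl (fun i _ => h i), Finset.sum_sub_distrib, Finset.sum_const,
    Finset.sum_ite_mem, Finset.univ_inter, ← Finset.mul_sum, Finset.card_univ]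
  simp only [nsmul_eq_mul]
  have : ∑ i ∈ V, DD K V i = qq K V := rfl
  rw [this]
  ring

theorem DD_odd (K : SimpleGraph α) (V : Finset α) (b : α) (hb : b ∈ V) (hV : Even V.card) :
    DD K V b ≠ 0 := by
  have key : ∀ (T : Finset α), (Even (∑ j ∈ T, mm K b j) ↔ Even T.card) := by
    intro T
    induction T using Finset.induction_on with
    | empty => simp
    | insert a T ha ih =>
      rw [Finset.sum_insert ha, Finset.card_insert_of_notMem ha, Int.even_add, Nat.even_add_one, ih]
      have : ¬ Even (mm K b a) := Int.not_even_iff_odd.2 (mm_odd K b a)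
      tauto
  intro h0
  have h1 := key (V.erase b)
  unfold DD at h0
  rw [h0, Finset.card_erase_of_mem hb] at h1
  have h2 : Even (V.card - 1) := h1.1 (by simp)
  have h3 : 0 < V.card := Finset.card_pos.2 ⟨b, hb⟩
  rcases h2 with ⟨k, hk⟩
  rcases hV with ⟨l, hl⟩
  omega

theorem qq_iso {K L : SimpleGraph α} (V : Finset α) (φ : K ≃g L)
    (hφ : ∀ v, φ v ∈ V ↔ v ∈ V) : qq K V = qq L V := by
  unfold qq DD
  refine Finset.sum_bij (fun i _ => φ i) (fun i hi => (hφ i).2 hi)
    (fun i _ j _ h => φ.injective h) ?_ ?_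
  · intro j hj
    refine ⟨φ.symm j, ?_, by simp⟩
    rw [← hφ]
    simpa using hj
  · intro i hi
    refine Finset.sum_bij (fun j _ => φ j) ?_ (fun j _ k _ h => φ.injective h) ?_ ?_
    · intro j hj
      rw [Finset.mem_erase] at hj ⊢
      exact ⟨fun e => hj.1 (φ.injective e), (hφ j).2 hj.2⟩
    · intro k hk
      rw [Finset.mem_erase] at hk
      refine ⟨φ.symm k, ?_, by simp⟩
      rw [Finset.mem_erase]
      refine ⟨fun e => hk.1 (by rw [← e]; simp), ?_⟩
      rw [← hφ]
      simpa using hk.2
    · intro j _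
      have : L.Adj (φ i) (φ j) ↔ K.Adj i j := φ.map_rel_iff'
      unfold mm
      by_cases hk : K.Adj i j
      · rw [if_pos hk, if_pos (this.2 hk)]
      · rw [if_neg hk, if_neg (fun h' => hk (this.1 h'))]

end quad

section main

variable {α : Type*} [DecidableEq α]

theorem classAut_of_iso (G : SimpleGraph α) (S T : Finset α) (φ : sw G S ≃g sw G T) :
    IsClassAut G φ.toEquiv := by
  refine ⟨symmDiff T (S.map φ.toEquiv.toEmbedding), ?_⟩
  intro u v
  have h : (sw (sw G T) (S.map φ.toEquiv.toEmbedding)).Adj (φ.toEquiv u) (φ.toEquiv v) ↔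
      (sw (sw G S) S).Adj u v := (isoSw φ S).map_rel_iff'
  rw [sw_sw, sw_sw, symmDiff_self, Finset.bot_eq_empty, sw_empty] at h
  exact h

theorem inv_of_iso {G : SimpleGraph α} {V : Finset α} (hV : IsInvariant G V) {K L : SimpleGraph α}
    (S T : Finset α) (hK : K = sw G S) (hL : L = sw G T) (φ : K ≃g L) (v : α) :
    φ v ∈ V ↔ v ∈ V := by
  subst hK
  subst hL
  exact hV φ.toEquiv (classAut_of_iso G S T φ) v

theorem exists_sw {G H : SimpleGraph α} (h : SameDeck G H) (i : α) :
    ∃ T : Finset α, Nonempty (sw G T ≃g H) := by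
  obtain ⟨σ, hσ⟩ := h
  obtain ⟨φ⟩ := hσ i
  have ψ := isoSw φ.symm {σ i}
  rw [sw_sw, sw_sw, symmDiff_self, Finset.bot_eq_empty, sw_empty] at ψ
  exact ⟨_, ⟨ψ.symm⟩⟩

theorem qq_deck [Fintype α] {G H : SimpleGraph α} (hn : Fintype.card α ≠ 4) (h : SameDeck G H)
    {V : Finset α} (hV : IsInvariant G V) (T : Finset α) (hT : Nonempty (sw G T ≃g H)) :
    qq G V = qq (sw G T) V := by
  obtain ⟨σ, hσ⟩ := h
  obtain ⟨θ⟩ := hT
  have e1 := qq_sum G V
  have e2 := qq_sum (sw G T) V
  have e3 : ∑ i : α, qq (sw G {i}) V = ∑ i : α, qq (sw (sw G T) {i}) V := by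
    rw [← Equiv.sum_comp (σ.trans θ.symm.toEquiv) (fun i => qq (sw (sw G T) {i}) V)]
    refine Finset.sum_congr rfl (fun i _ => ?_)
    obtain ⟨φ⟩ := hσ i
    have ψ := isoSw θ.symm {σ i}
    rw [Finset.map_singleton] at ψ
    have χ := φ.trans ψ
    exact qq_iso V χ (fun v => inv_of_iso hV {i} (symmDiff T {θ.symm.toEquiv (σ i)}) rfl
      (sw_sw G T _) χ v)
  rw [e1, e2] at e3
  have hn' : ((Fintype.card α : ℤ) - 4) ≠ 0 := by
    intro h0
    apply hn
    omega
  exact mul_left_cancel₀ hn' e3

theorem sum_ff_inv [Fintype α] {G H : SimpleGraph α} (hn : Fintype.card α ≠ 4)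
    (h : SameDeck G H) {V : Finset α} (hV : IsInvariant G V) (hVe : Even V.card) (S : Finset α) :
    ∑ i ∈ V, ff G H (symmDiff S {i}) = 0 := by
  have hval : ∀ U : Finset α, ff G H U ≠ 0 → qq (sw G U) V = qq G V := by
    intro U hU
    by_cases h1 : Nonempty (sw G U ≃g G)
    · obtain ⟨φ⟩ := h1
      exact qq_iso V φ (fun v => inv_of_iso hV U ∅ rfl (sw_empty G).symm φ v)
    · by_cases h2 : Nonempty (sw G U ≃g H)
      · by_cases hα : Nonempty α
        · obtain ⟨i⟩ := hα
          obtain ⟨T, hT⟩ := exists_sw h i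
          rw [qq_deck hn h hV T hT]
          obtain ⟨φ⟩ := h2
          obtain ⟨θ⟩ := hT
          have χ := φ.trans θ.symm
          exact qq_iso V χ (fun v => inv_of_iso hV U T rfl rfl χ v)
        · have : V = ∅ := by
            ext x
            exact absurd ⟨x⟩ hα
          subst this
          rfl
      · exfalso
        apply hU
        unfold ff
        rw [ind_of_not _ _ h1, ind_of_not _ _ h2]
        ring
  by_cases hc : ∃ c, c ∉ V ∧ ff G H (symmDiff S {c}) ≠ 0
  · obtain ⟨c, hcV, hc⟩ := hc
    refine Finset.sum_eq_zero (fun b hb => ?_)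
    by_contra hb0
    have e1 := hval _ hb0
    have e2 := hval _ hc
    rw [← sw_sw, qq_in _ V b hb] at e1
    rw [← sw_sw, qq_out _ V c hcV] at e2
    have : DD (sw G S) V b = 0 := by omega
    exact DD_odd (sw G S) V b hb hVe this
  · push Not at hc
    rw [← sum_ff h S]
    exact Finset.sum_subset (Finset.subset_univ V) (fun x _ hx => hc x hx)

theorem ff_switch [Fintype α] {G H : SimpleGraph α} (hn : Fintype.card α ≠ 4)
    (h : SameDeck G H) {V : Finset α} (hV : IsInvariant G V) (j : ℕ) (hj : V.card = 2 * j)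
    (S : Finset α) : ff G H (symmDiff S V) = (Int.negOnePow (j : ℤ) : ℤ) * ff G H S := by
  refine (eigen V 0 (ff G H) ?_).1 j ?_ S
  · intro S
    rw [sum_ff_inv hn h hV (by rw [hj]; exact even_two_mul j) S]
    simp
  · rw [hj]
    push_cast
    ring

theorem ff_empty [Fintype α] {G H : SimpleGraph α} (hne : ¬ Nonempty (G ≃g H)) :
    ff G H ∅ = cnt G H := by
  unfold ff
  rw [sw_empty, ind_of_not G H hne, ind_of G G ⟨SimpleGraph.Iso.refl⟩]
  ring

end main

end Pool.Agent.Lib_helper61.SwitchBasic
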